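import Mathlib

set_option autoImplicit false

namespace Pool.Agent.Helper58.Circ

/-! ## Lorentz space `W × ℝ × ℝ` -/

section Lorentz

variable {W : Type*} [NormedAddCommGroup W] [InnerProductSpace ℝ W]

/-- The Lorentz form in light-cone coordinates. -/
def B (p q : W × ℝ × ℝ) : ℝ := inner ℝ p.1 q.1 - p.2.1 * q.2.2 - p.2.2 * q.2.1

lemma B_comm (p q : W × ℝ × ℝ) : B p q = B q p := by
  unfold B; rw [real_inner_comm]; ring

lemma B_add_left (p q r : W × ℝ × ℝ) : B (p + q) r = B p r + B q r := by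
  unfold B; simp only [Prod.fst_add, Prod.snd_add, inner_add_left]; ring

lemma B_add_right (p q r : W × ℝ × ℝ) : B p (q + r) = B p q + B p r := by
  rw [B_comm, B_add_left, B_comm q, B_comm r]

lemma B_smul_left (c : ℝ) (p q : W × ℝ × ℝ) : B (c • p) q = c * B p q := by
  unfold B; simp only [Prod.smul_fst, Prod.smul_snd, real_inner_smul_left, smul_eq_mul]; ring

lemma B_smul_right (c : ℝ) (p q : W × ℝ × ℝ) : B p (c • q) = c * B p q := by
  rw [B_comm, B_smul_left, B_comm]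

lemma B_neg_left (p q : W × ℝ × ℝ) : B (-p) q = - B p q := by
  have := B_smul_left (-1) p q
  simpa using this

lemma B_neg_right (p q : W × ℝ × ℝ) : B p (-q) = - B p q := by
  rw [B_comm, B_neg_left, B_comm]

lemma B_sub_left (p q r : W × ℝ × ℝ) : B (p - q) r = B p r - B q r := by
  rw [sub_eq_add_neg, B_add_left, B_neg_left]; ring

lemma B_sub_right (p q r : W × ℝ × ℝ) : B p (q - r) = B p q - B p r := by
  rw [sub_eq_add_neg, B_add_right, B_neg_right]; ring

lemma B_zero_left (p : W × ℝ × ℝ) : B 0 p = 0 := by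
  simp [B]

lemma B_zero_right (p : W × ℝ × ℝ) : B p 0 = 0 := by
  simp [B]

/-- `B` as a linear form in the first variable. -/
def Bl (y : W × ℝ × ℝ) : (W × ℝ × ℝ) →ₗ[ℝ] ℝ where
  toFun k := B k y
  map_add' p q := B_add_left p q y
  map_smul' c p := by rw [B_smul_left]; rfl

lemma Bl_apply (y k : W × ℝ × ℝ) : Bl y k = B k y := rfl

lemma B_nondeg {k : W × ℝ × ℝ} (h : ∀ y, B k y = 0) : k = 0 := by
  obtain ⟨w, a, b⟩ := k
  have h1 := h (w, 0, 0)
  have h2 := h (0, 1, 0)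
  have h3 := h (0, 0, 1)
  simp only [B, mul_zero, sub_zero, inner_zero_right, mul_one, zero_sub, neg_eq_zero] at h1 h2 h3
  rw [inner_self_eq_zero (𝕜 := ℝ)] at h1
  rw [h1, h2, h3]
  rfl

/-- The orthogonal complement of a timelike vector is positive definite. -/
lemma orth_timelike {z k : W × ℝ × ℝ} (hz : B z z < 0) (hk : B k z = 0) :
    0 ≤ B k k ∧ (B k k = 0 → k = 0) := by
  obtain ⟨w, a, b⟩ := z
  obtain ⟨w', a', b'⟩ := k
  simp only [B] at hz hk ⊢
  rw [real_inner_self_eq_norm_sq] at hz ⊢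
  have hcs : (inner ℝ w' w) ^ 2 ≤ ‖w'‖ ^ 2 * ‖w‖ ^ 2 := by
    have h1 := abs_real_inner_le_norm w' w
    have h2 : |inner ℝ w' w| ^ 2 ≤ (‖w'‖ * ‖w‖) ^ 2 := by gcongr
    rw [sq_abs] at h2
    nlinarith
  have hab : 0 < a * b := by nlinarith [sq_nonneg ‖w‖]
  have hin : inner ℝ w' w = a' * b + b' * a := by linarith
  rw [hin] at hcs
  have key : 2 * (a' * b') * (2 * (a * b)) ≤ ‖w'‖ ^ 2 * ‖w‖ ^ 2 := by
    nlinarith [sq_nonneg (a' * b - b' * a)]
  have hW : ‖w'‖ ^ 2 * ‖w‖ ^ 2 ≤ ‖w'‖ ^ 2 * (2 * (a * b)) := by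
    apply mul_le_mul_of_nonneg_left _ (sq_nonneg _)
    linarith
  have h1 : 2 * (a' * b') ≤ ‖w'‖ ^ 2 := by
    have := le_trans key hW
    exact le_of_mul_le_mul_right this (by positivity)
  refine ⟨by linarith, ?_⟩
  intro h0
  have hw' : ‖w'‖ ^ 2 = 0 := by
    by_contra hne
    have hpos : 0 < ‖w'‖ ^ 2 := lt_of_le_of_ne (sq_nonneg _) (Ne.symm hne)
    have hlt : ‖w'‖ ^ 2 * ‖w‖ ^ 2 < ‖w'‖ ^ 2 * (2 * (a * b)) := by
      apply mul_lt_mul_of_pos_left _ hpos
      linarith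
    have h2 : 2 * (a' * b') * (2 * (a * b)) < ‖w'‖ ^ 2 * (2 * (a * b)) := lt_of_le_of_lt key hlt
    have h3 : 2 * (a' * b') < ‖w'‖ ^ 2 := lt_of_mul_lt_mul_right h2 (by positivity)
    linarith
  have hw0 : w' = 0 := by
    have : ‖w'‖ = 0 := by nlinarith [norm_nonneg w']
    exact norm_eq_zero.mp this
  have hab' : a' * b' = 0 := by linarith
  have hsum : a' * b + b' * a = 0 := by rw [← hin, hw0, inner_zero_left]
  have ha : a ≠ 0 := by rintro rfl; simp at hab
  have hb : b ≠ 0 := by rintro rfl; simp at hab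
  rcases mul_eq_zero.mp hab' with h | h
  · rw [h] at hsum
    have : b' = 0 := by
      have : b' * a = 0 := by linarith
      rcases mul_eq_zero.mp this with h' | h'
      · exact h'
      · exact absurd h' ha
    rw [hw0, h, this]; rfl
  · rw [h] at hsum
    have : a' = 0 := by
      have : a' * b = 0 := by linarith
      rcases mul_eq_zero.mp this with h' | h'
      · exact h'
      · exact absurd h' hb
    rw [hw0, h, this]; rfl

/-- Orthogonal null vectors are proportional. -/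
lemma null_orth {n k : W × ℝ × ℝ} (hn0 : n ≠ 0) (hn : B n n = 0) (hk : B k k = 0)
    (hnk : B k n = 0) : ∃ c : ℝ, k = c • n := by
  obtain ⟨w, a, b⟩ := n
  obtain ⟨w', a', b'⟩ := k
  simp only [B] at hn hk hnk
  rw [real_inner_self_eq_norm_sq] at hn hk
  have hcs : (inner ℝ w' w) ^ 2 ≤ ‖w'‖ ^ 2 * ‖w‖ ^ 2 := by
    have h1 := abs_real_inner_le_norm w' w
    have h2 : |inner ℝ w' w| ^ 2 ≤ (‖w'‖ * ‖w‖) ^ 2 := by gcongr
    rw [sq_abs] at h2
    nlinarith
  have hin : inner ℝ w' w = a' * b + b' * a := by linarith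
  have e1 : ‖w‖ ^ 2 = 2 * (a * b) := by linarith
  have e2 : ‖w'‖ ^ 2 = 2 * (a' * b') := by linarith
  rw [hin, e1, e2] at hcs
  have hdet : a' * b - b' * a = 0 := by
    have : (a' * b - b' * a) ^ 2 ≤ 0 := by nlinarith
    nlinarith [sq_nonneg (a' * b - b' * a)]
  have hnorm : ∀ c : ℝ, ‖w' - c • w‖ ^ 2 =
      2 * (a' * b') - 2 * c * (a' * b + b' * a) + c ^ 2 * (2 * (a * b)) := by
    intro c
    rw [norm_sub_sq_real, norm_smul, real_inner_smul_right, hin, mul_pow, e1, e2,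
      Real.norm_eq_abs, sq_abs]
    ring
  have hzero : ∀ c : ℝ, a' = c * a → b' = c * b → w' = c • w := by
    intro c ha hb
    have h := hnorm c
    rw [ha, hb] at h
    have h0 : ‖w' - c • w‖ ^ 2 = 0 := by rw [h]; ring
    have h1 : ‖w' - c • w‖ = 0 := by nlinarith [norm_nonneg (w' - c • w)]
    exact sub_eq_zero.mp (norm_eq_zero.mp h1)
  by_cases hb : b = 0
  · have hw : w = 0 := by
      rw [hb, mul_zero, mul_zero] at e1
      have : ‖w‖ = 0 := by nlinarith [norm_nonneg w]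
      exact norm_eq_zero.mp this
    have ha : a ≠ 0 := by
      rintro rfl
      exact hn0 (by rw [hw, hb]; rfl)
    have hb' : b' = 0 := by
      rw [hb, mul_zero, zero_sub, neg_eq_zero] at hdet
      rcases mul_eq_zero.mp hdet with h | h
      · exact h
      · exact absurd h ha
    refine ⟨a' / a, ?_⟩
    have h1 : a' = a' / a * a := by field_simp
    have h2 : b' = a' / a * b := by rw [hb', hb, mul_zero]
    have h3 := hzero _ h1 h2
    ext1
    · exact h3
    · ext1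
      · exact h1
      · exact h2
  · refine ⟨b' / b, ?_⟩
    have h2 : b' = b' / b * b := by field_simp
    have h1 : a' = b' / b * a := by
      field_simp
      linarith
    have h3 := hzero _ h1 h2
    ext1
    · exact h3
    · ext1
      · exact h1
      · exact h2

/-- Null vectors span a Lorentzian subspace. -/
lemma null_span (S : Submodule ℝ (W × ℝ × ℝ)) {z k₀ v : W × ℝ × ℝ} (hzS : z ∈ S)
    (hz : B z z < 0) (hk₀S : k₀ ∈ S) (hk₀z : B k₀ z = 0) (hk₀ : k₀ ≠ 0)
    (h : ∀ n ∈ S, B n n = 0 → B n v = 0) : ∀ k ∈ S, B k v = 0 := by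
  have main : ∀ k ∈ S, B k z = 0 → B k v = 0 ∧ (k ≠ 0 → B z v = 0) := by
    intro k hk hkz
    obtain ⟨h1, h2⟩ := orth_timelike hz hkz
    set μ := Real.sqrt (B k k / (- B z z)) with hμ
    have hμ2 : μ ^ 2 = B k k / (- B z z) := Real.sq_sqrt (div_nonneg h1 (by linarith))
    have hμ3 : μ ^ 2 * B z z = - B k k := by
      rw [hμ2]
      have : B z z ≠ 0 := hz.ne
      field_simp
    have n1 : B (k + μ • z) (k + μ • z) = 0 := by
      rw [B_add_left, B_add_right, B_add_right, B_smul_left, B_smul_left, B_smul_right,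
        B_smul_right, B_comm z k, hkz]
      linarith
    have n2 : B (k - μ • z) (k - μ • z) = 0 := by
      rw [B_sub_left, B_sub_right, B_sub_right, B_smul_left, B_smul_left, B_smul_right,
        B_smul_right, B_comm z k, hkz]
      linarith
    have e1 := h _ (S.add_mem hk (S.smul_mem μ hzS)) n1
    have e2 := h _ (S.sub_mem hk (S.smul_mem μ hzS)) n2
    rw [B_add_left, B_smul_left] at e1
    rw [B_sub_left, B_smul_left] at e2
    refine ⟨by linarith, ?_⟩
    intro hk0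
    have hpos : 0 < B k k := lt_of_le_of_ne h1 (fun h' => hk0 (h2 h'.symm))
    have hμpos : 0 < μ := by
      rw [hμ]
      exact Real.sqrt_pos.mpr (div_pos hpos (by linarith))
    have : μ * B z v = 0 := by linarith
    rcases mul_eq_zero.mp this with h' | h'
    · exact absurd h' hμpos.ne'
    · exact h'
  have hzv : B z v = 0 := (main k₀ hk₀S hk₀z).2 hk₀
  intro k hk
  have hz0 : B z z ≠ 0 := hz.ne
  set c := B k z / B z z with hc
  have h1 : B (k - c • z) z = 0 := by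
    rw [B_sub_left, B_smul_left, hc]
    field_simp
    ring
  have h2 := (main _ (S.sub_mem hk (S.smul_mem c hzS)) h1).1
  rw [B_sub_left, B_smul_left, hzv] at h2
  linarith

/-! ### Finite-dimensional part -/

section FinDim

variable [FiniteDimensional ℝ W]

lemma finrank_L : Module.finrank ℝ (W × ℝ × ℝ) = Module.finrank ℝ W + 2 := by
  rw [Module.finrank_prod, Module.finrank_prod, Module.finrank_self]

/-- In dimension at least four there is a nonzero vector orthogonal to three given ones. -/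
lemma exists_orth (hd : 2 ≤ Module.finrank ℝ W) (x y z : W × ℝ × ℝ) :
    ∃ k : W × ℝ × ℝ, k ≠ 0 ∧ B k x = 0 ∧ B k y = 0 ∧ B k z = 0 := by
  let f : (W × ℝ × ℝ) →ₗ[ℝ] ℝ × ℝ × ℝ := (Bl x).prod ((Bl y).prod (Bl z))
  have h : Module.finrank ℝ (ℝ × ℝ × ℝ) < Module.finrank ℝ (W × ℝ × ℝ) := by
    rw [finrank_L, Module.finrank_prod, Module.finrank_prod, Module.finrank_self]
    omega
  have hker := LinearMap.ker_ne_bot_of_finrank_lt (f := f) h
  obtain ⟨k, hk, hk0⟩ := (Submodule.ne_bot_iff _).mp hker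
  rw [LinearMap.mem_ker] at hk
  have h1 : f k = (B k x, B k y, B k z) := rfl
  rw [h1, Prod.mk_eq_zero, Prod.mk_eq_zero] at hk
  exact ⟨k, hk0, hk.1, hk.2.1, hk.2.2⟩

/-- A standard timelike vector. -/
noncomputable def tau : W × ℝ × ℝ := (0, 1 / 2, 1)

omit [FiniteDimensional ℝ W] in
lemma B_tau : B (tau : W × ℝ × ℝ) tau = -1 := by
  simp only [B, tau, inner_zero_left]; norm_num

omit [FiniteDimensional ℝ W] in
lemma timelike_ne_zero {z : W × ℝ × ℝ} (hz : B z z < 0) : z ≠ 0 := by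
  rintro rfl
  rw [B_zero_left] at hz
  exact lt_irrefl _ hz

/-- A sphere is determined by its points. -/
lemma eq_of_zero_set (hd : 2 ≤ Module.finrank ℝ W) {v v' : W × ℝ × ℝ} (hv : B v v = 1)
    (hv' : B v' v' = 1) (h : ∀ n, B n n = 0 → B n v = 0 → B n v' = 0) : v' = v ∨ v' = -v := by
  let S : Submodule ℝ (W × ℝ × ℝ) := LinearMap.ker (Bl v)
  have hS : ∀ k, k ∈ S ↔ B k v = 0 := fun k => by rw [LinearMap.mem_ker, Bl_apply]
  set z : W × ℝ × ℝ := tau - (B tau v) • v with hz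
  have hzS : z ∈ S := by
    rw [hS, hz, B_sub_left, B_smul_left, hv]; ring
  have hzz : B z z < 0 := by
    have h1 : B z v = 0 := (hS z).mp hzS
    have h2 : B z z = B (tau : W × ℝ × ℝ) tau - (B tau v) ^ 2 := by
      rw [hz, B_sub_left, B_sub_right, B_sub_right, B_smul_left, B_smul_left, B_smul_right,
        B_smul_right, hv, B_comm v tau]
      ring
    rw [h2, B_tau]
    nlinarith [sq_nonneg (B (tau : W × ℝ × ℝ) v)]
  obtain ⟨k₀, hk₀, hk₀v, hk₀z, _⟩ := exists_orth hd v z z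
  have key := null_span S hzS hzz ((hS _).mpr hk₀v) hk₀z hk₀
    (v := v') (fun n hn hnn => h n hnn ((hS n).mp hn))
  set c := B v v' with hc
  have hcv : v' = c • v := by
    have : v' - c • v = 0 := by
      apply B_nondeg
      intro y
      have h1 : y - (B y v) • v ∈ S := by
        rw [hS, B_sub_left, B_smul_left, hv]; ring
      have h2 := key _ h1
      rw [B_sub_left, B_smul_left] at h2
      rw [B_sub_left, B_smul_left, B_comm v' y, B_comm v y, hc]
      linarith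
    exact sub_eq_zero.mp this
  have hc2 : c ^ 2 = 1 := by
    have := hv'
    rw [hcv, B_smul_left, B_smul_right, hv] at this
    linarith
  have hc3 : c = 1 ∨ c = -1 := by
    have : (c - 1) * (c + 1) = 0 := by ring_nf; linarith [hc2]
    rcases mul_eq_zero.mp this with h | h
    · left; linarith
    · right; linarith
  rcases hc3 with h1 | h1
  · left; rw [hcv, h1, one_smul]
  · right; rw [hcv, h1, neg_smul, one_smul]

/-- `v` belongs to the segment of `w₁, w₂`: every sphere meeting `w₁` and `w₂` meets `v`. -/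
def Seg (w₁ w₂ v : W × ℝ × ℝ) : Prop :=
  ∀ u, B u u = 1 → |B u w₁| ≤ 1 → |B u w₂| ≤ 1 → |B u v| ≤ 1

omit [FiniteDimensional ℝ W] in
lemma null_of_seg {w₁ w₂ v n : W × ℝ × ℝ} (h₁ : B w₁ w₁ = 1) (h₁₂ : |B w₁ w₂| ≤ 1)
    (hv : Seg w₁ w₂ v) (hn : B n n = 0) (hn1 : B n w₁ = 0) (hn2 : B n w₂ = 0) :
    B n v = 0 := by
  by_contra hne
  have key : ∀ t : ℝ, |B w₁ v + t * B n v| ≤ 1 := by
    intro t
    have h := hv (w₁ + t • n) ?_ ?_ ?_
    · rwa [B_add_left, B_smul_left] at h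
    · rw [B_add_left, B_add_right, B_add_right, B_smul_left, B_smul_left, B_smul_right,
        B_smul_right, hn, hn1, B_comm w₁ n, hn1, h₁]
      ring
    · rw [B_add_left, B_smul_left, hn1, h₁]
      norm_num
    · rw [B_add_left, B_smul_left, hn2]
      simpa using h₁₂
  have h2 := key ((2 - B w₁ v) / B n v)
  rw [div_mul_cancel₀ _ hne] at h2
  have h3 : B w₁ v + (2 - B w₁ v) = 2 := by ring
  rw [h3] at h2
  norm_num at h2

/-- Segments of crossing spheres are trivial. -/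
lemma seg_crossing (hd : 2 ≤ Module.finrank ℝ W) {w₁ w₂ v : W × ℝ × ℝ} (h₁ : B w₁ w₁ = 1)
    (h₂ : B w₂ w₂ = 1) (hv1 : B v v = 1) (h₁₂ : |B w₁ w₂| < 1) (hv : Seg w₁ w₂ v) :
    (v = w₁ ∨ v = -w₁) ∨ (v = w₂ ∨ v = -w₂) := by
  set β := B w₁ w₂ with hβ
  have hβ' : B w₂ w₁ = β := by rw [B_comm]
  have hβ2 : 0 < 1 - β ^ 2 := by
    have := sq_lt_one_iff_abs_lt_one β |>.mpr h₁₂
    linarith
  have hβne : 1 - β ^ 2 ≠ 0 := hβ2.ne'
  let S : Submodule ℝ (W × ℝ × ℝ) := LinearMap.ker (Bl w₁) ⊓ LinearMap.ker (Bl w₂)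
  have hS : ∀ k, k ∈ S ↔ B k w₁ = 0 ∧ B k w₂ = 0 := fun k => by
    rw [Submodule.mem_inf, LinearMap.mem_ker, LinearMap.mem_ker, Bl_apply, Bl_apply]
  -- projection to the complement
  have proj : ∀ y : W × ℝ × ℝ, y - ((B y w₁ - β * B y w₂) / (1 - β ^ 2)) • w₁ -
      ((B y w₂ - β * B y w₁) / (1 - β ^ 2)) • w₂ ∈ S := by
    intro y
    rw [hS]
    constructor
    · rw [B_sub_left, B_sub_left, B_smul_left, B_smul_left, h₁, hβ']
      field_simp
      ring
    · rw [B_sub_left, B_sub_left, B_smul_left, B_smul_left, h₂, ← hβ]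
      field_simp
      ring
  set t1 := B (tau : W × ℝ × ℝ) w₁ with ht1
  set t2 := B (tau : W × ℝ × ℝ) w₂ with ht2
  obtain ⟨z, hz⟩ : ∃ z : W × ℝ × ℝ, z = tau - ((t1 - β * t2) / (1 - β ^ 2)) • w₁ -
      ((t2 - β * t1) / (1 - β ^ 2)) • w₂ := ⟨_, rfl⟩
  have hzS : z ∈ S := hz ▸ proj tau
  have hzz : B z z < 0 := by
    obtain ⟨hz1, hz2⟩ := (hS z).mp hzS
    have e1 : B z z = B z tau := by
      nth_rewrite 2 [hz]
      rw [B_sub_right, B_sub_right, B_smul_right, B_smul_right, hz1, hz2]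
      ring
    have e2 : B z tau = -1 - (t1 ^ 2 - 2 * β * t1 * t2 + t2 ^ 2) / (1 - β ^ 2) := by
      rw [hz, B_sub_left, B_sub_left, B_smul_left, B_smul_left, B_tau, B_comm w₁, B_comm w₂,
        ← ht1, ← ht2]
      field_simp
      ring
    rw [e1, e2]
    have h3 : 0 ≤ t1 ^ 2 - 2 * β * t1 * t2 + t2 ^ 2 := by
      have : β ^ 2 ≤ 1 := by linarith
      nlinarith [sq_nonneg (t1 - β * t2), sq_nonneg t2]
    have h4 : 0 ≤ (t1 ^ 2 - 2 * β * t1 * t2 + t2 ^ 2) / (1 - β ^ 2) := div_nonneg h3 hβ2.le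
    linarith
  obtain ⟨k₀, hk₀, hk₀1, hk₀2, hk₀z⟩ := exists_orth hd w₁ w₂ z
  have hk₀S : k₀ ∈ S := (hS _).mpr ⟨hk₀1, hk₀2⟩
  have key := null_span S hzS hzz hk₀S hk₀z hk₀ (v := v) (fun n hn hnn => by
    obtain ⟨hn1, hn2⟩ := (hS n).mp hn
    exact null_of_seg h₁ h₁₂.le hv hnn hn1 hn2)
  -- hence `v` lies in the plane
  obtain ⟨a, b, hab⟩ : ∃ a b : ℝ, v = a • w₁ + b • w₂ := by
    refine ⟨(B v w₁ - β * B v w₂) / (1 - β ^ 2), (B v w₂ - β * B v w₁) / (1 - β ^ 2), ?_⟩
    obtain ⟨k, hk⟩ : ∃ k, k = v - ((B v w₁ - β * B v w₂) / (1 - β ^ 2)) • w₁ -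
      ((B v w₂ - β * B v w₁) / (1 - β ^ 2)) • w₂ := ⟨_, rfl⟩
    have hkS : k ∈ S := hk ▸ proj v
    obtain ⟨hk1, hk2⟩ := (hS k).mp hkS
    have hk0 : k = 0 := by
      apply B_nondeg
      intro y
      obtain ⟨y', hy'⟩ : ∃ y', y' = y - ((B y w₁ - β * B y w₂) / (1 - β ^ 2)) • w₁ -
        ((B y w₂ - β * B y w₁) / (1 - β ^ 2)) • w₂ := ⟨_, rfl⟩
      have h5 : y' ∈ S := hy' ▸ proj y
      have h6 : B k y = B y' v := by
        have h7 : B y' v = B y' k := by
          obtain ⟨hy1, hy2⟩ := (hS y').mp h5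
          rw [hk, B_sub_right, B_sub_right, B_smul_right, B_smul_right, hy1, hy2]
          ring
        rw [h7, hy', B_sub_left, B_sub_left, B_smul_left, B_smul_left, B_comm w₁ k, B_comm w₂ k,
          hk1, hk2, B_comm y k]
        ring
      rw [h6]
      exact key _ h5
    rw [hk, sub_sub, sub_eq_zero] at hk0
    exact hk0
  -- unit vectors of the complement with arbitrary square
  have hk₀pos : 0 < B k₀ k₀ := by
    obtain ⟨h5, h6⟩ := orth_timelike hzz hk₀z
    exact lt_of_le_of_ne h5 (fun h' => hk₀ (h6 h'.symm))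
  have sq_any : ∀ c : ℝ, ∃ q ∈ S, B q q = c := by
    intro c
    rcases le_total 0 c with hc | hc
    · refine ⟨Real.sqrt (c / B k₀ k₀) • k₀, S.smul_mem _ hk₀S, ?_⟩
      rw [B_smul_left, B_smul_right, ← mul_assoc, Real.mul_self_sqrt (div_nonneg hc hk₀pos.le)]
      field_simp
    · refine ⟨Real.sqrt (c / B z z) • z, S.smul_mem _ hzS, ?_⟩
      rw [B_smul_left, B_smul_right, ← mul_assoc,
        Real.mul_self_sqrt (div_nonneg_of_nonpos hc hzz.le)]
      have := hzz.ne
      field_simp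
  -- the coefficient sum is at most one
  have hsum : |a| + |b| ≤ 1 := by
    set s1 : ℝ := if 0 ≤ a then 1 else -1 with hs1
    set s2 : ℝ := if 0 ≤ b then 1 else -1 with hs2
    have hs1a : a * s1 = |a| := by
      rw [hs1]; split_ifs with h
      · rw [abs_of_nonneg h, mul_one]
      · rw [abs_of_neg (not_le.mp h)]; ring
    have hs2b : b * s2 = |b| := by
      rw [hs2]; split_ifs with h
      · rw [abs_of_nonneg h, mul_one]
      · rw [abs_of_neg (not_le.mp h)]; ring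
    have habs1 : |s1| ≤ 1 := by rw [hs1]; split_ifs <;> simp
    have habs2 : |s2| ≤ 1 := by rw [hs2]; split_ifs <;> simp
    obtain ⟨x, hx⟩ : ∃ x : W × ℝ × ℝ, x = ((s1 - β * s2) / (1 - β ^ 2)) • w₁ +
      ((s2 - β * s1) / (1 - β ^ 2)) • w₂ := ⟨_, rfl⟩
    have hx1 : B x w₁ = s1 := by
      rw [hx, B_add_left, B_smul_left, B_smul_left, h₁, hβ']
      field_simp
      ring
    have hx2 : B x w₂ = s2 := by
      rw [hx, B_add_left, B_smul_left, B_smul_left, h₂, ← hβ]
      field_simp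
      ring
    obtain ⟨q, hqS, hqq⟩ := sq_any (1 - B x x)
    obtain ⟨hq1, hq2⟩ := (hS q).mp hqS
    have hxq : B x q = 0 := by
      rw [hx, B_add_left, B_smul_left, B_smul_left, B_comm w₁ q, B_comm w₂ q, hq1, hq2]
      ring
    have hu := hv (x + q) ?_ ?_ ?_
    · rw [hab, B_add_right, B_smul_right, B_smul_right, B_add_left, B_add_left, hx1, hx2, hq1,
        hq2, add_zero, add_zero, hs1a, hs2b] at hu
      exact le_trans (le_abs_self _) hu
    · rw [B_add_left, B_add_right, B_add_right, hxq, B_comm q x, hxq, hqq]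
      ring
    · rw [B_add_left, hx1, hq1, add_zero]; exact habs1
    · rw [B_add_left, hx2, hq2, add_zero]; exact habs2
  have hnorm : a ^ 2 + b ^ 2 + 2 * (a * b) * β = 1 := by
    have := hv1
    rw [hab, B_add_left, B_add_right, B_add_right, B_smul_left, B_smul_left, B_smul_left,
      B_smul_left, B_smul_right, B_smul_right, B_smul_right, B_smul_right, h₁, h₂, hβ',
      ← hβ] at this
    linarith
  have hprod : a * b = 0 := by
    by_contra hne
    have h5 : 0 < |a * b| := abs_pos.mpr hne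
    have h6 : (a * b) * β < |a * b| := by
      calc (a * b) * β ≤ |(a * b) * β| := le_abs_self _
        _ = |a * b| * |β| := abs_mul _ _
        _ < |a * b| * 1 := by apply mul_lt_mul_of_pos_left h₁₂ h5
        _ = |a * b| := mul_one _
    have h7 : (|a| + |b|) ^ 2 ≤ 1 := by
      have h8 : 0 ≤ |a| + |b| := by positivity
      nlinarith
    have h9 : (|a| + |b|) ^ 2 = a ^ 2 + b ^ 2 + 2 * |a * b| := by
      rw [add_sq, sq_abs, sq_abs, abs_mul]; ring
    linarith
  rcases mul_eq_zero.mp hprod with h | h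
  · right
    rw [h] at hnorm hab
    have hb2 : (b - 1) * (b + 1) = 0 := by ring_nf; linarith
    rw [zero_smul, zero_add] at hab
    rcases mul_eq_zero.mp hb2 with h' | h'
    · left; rw [hab, show b = 1 by linarith, one_smul]
    · right; rw [hab, show b = -1 by linarith, neg_smul, one_smul]
  · left
    rw [h] at hnorm hab
    have ha2 : (a - 1) * (a + 1) = 0 := by ring_nf; linarith
    rw [zero_smul, add_zero] at hab
    rcases mul_eq_zero.mp ha2 with h' | h'
    · left; rw [hab, show a = 1 by linarith, one_smul]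
    · right; rw [hab, show a = -1 by linarith, neg_smul, one_smul]

omit [FiniteDimensional ℝ W] in
/-- Points of the pencil of two tangent spheres between them belong to the segment. -/
lemma seg_of_mem {w₁ w₂ : W × ℝ × ℝ} {t : ℝ} (h0 : 0 ≤ t) (h1 : t ≤ 1) :
    Seg w₁ w₂ ((1 - t) • w₁ + t • w₂) := by
  intro u _ hu1 hu2
  rw [B_add_right, B_smul_right, B_smul_right]
  calc |(1 - t) * B u w₁ + t * B u w₂| ≤ |(1 - t) * B u w₁| + |t * B u w₂| := abs_add_le _ _
    _ = (1 - t) * |B u w₁| + t * |B u w₂| := by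
      rw [abs_mul, abs_mul, abs_of_nonneg h0, abs_of_nonneg (by linarith : 0 ≤ 1 - t)]
    _ ≤ (1 - t) * 1 + t * 1 := by
      have : 0 ≤ 1 - t := by linarith
      gcongr
    _ = 1 := by ring

omit [FiniteDimensional ℝ W] in
/-- A vector with prescribed products with a unit vector and an orthogonal null vector. -/
lemma exists_dual {w n : W × ℝ × ℝ} (hw : B w w = 1) (hn0 : n ≠ 0) (hn : B n n = 0)
    (hwn : B w n = 0) (c r : ℝ) (hr : r ≠ 0) :
    ∃ u, B u u = 1 ∧ B u w = c ∧ B u n = r := by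
  obtain ⟨y, hy⟩ : ∃ y, B y n ≠ 0 := by
    by_contra hcon
    push Not at hcon
    exact hn0 (B_nondeg fun y => by rw [B_comm]; exact hcon y)
  obtain ⟨y', hy'⟩ : ∃ y', y' = y - (B y w) • w := ⟨_, rfl⟩
  have e1 : B y' w = 0 := by rw [hy', B_sub_left, B_smul_left, hw]; ring
  have e2 : B y' n = B y n := by rw [hy', B_sub_left, B_smul_left, hwn]; ring
  obtain ⟨x, hx⟩ : ∃ x, x = c • w + (r / B y n) • y' := ⟨_, rfl⟩
  have e3 : B x w = c := by rw [hx, B_add_left, B_smul_left, B_smul_left, hw, e1]; ring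
  have e4 : B x n = r := by
    rw [hx, B_add_left, B_smul_left, B_smul_left, hwn, e2]
    field_simp
    ring
  refine ⟨x + ((1 - B x x) / (2 * r)) • n, ?_, ?_, ?_⟩
  · rw [B_add_left, B_add_right, B_add_right, B_smul_left, B_smul_left, B_smul_right,
      B_smul_right, hn, B_comm n x, e4]
    field_simp
    ring
  · rw [B_add_left, B_smul_left, B_comm n w, hwn, e3]; ring
  · rw [B_add_left, B_smul_left, hn, e4]; ring

omit [FiniteDimensional ℝ W] in
/-- Segments of tangent spheres. -/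
lemma seg_tangent {w₁ w₂ v : W × ℝ × ℝ} (h₁ : B w₁ w₁ = 1)
    (h₂ : B w₂ w₂ = 1) (hv1 : B v v = 1) (h₁₂ : B w₁ w₂ = 1) (hne : w₁ ≠ w₂)
    (hv : Seg w₁ w₂ v) :
    ∃ t : ℝ, 0 ≤ t ∧ t ≤ 1 ∧
      (v = (1 - t) • w₁ + t • w₂ ∨ v = -((1 - t) • w₁ + t • w₂)) := by
  obtain ⟨n, hn⟩ : ∃ n, n = w₁ - w₂ := ⟨_, rfl⟩
  have hn0 : n ≠ 0 := by rw [hn]; exact sub_ne_zero.mpr hne
  have hnn : B n n = 0 := by
    rw [hn, B_sub_left, B_sub_right, B_sub_right, h₁, h₂, B_comm w₂ w₁, h₁₂]; ring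
  have hn1 : B n w₁ = 0 := by rw [hn, B_sub_left, h₁, B_comm w₂ w₁, h₁₂]; ring
  have hn2 : B n w₂ = 0 := by rw [hn, B_sub_left, h₂, h₁₂]; ring
  have hw2 : w₂ = w₁ - n := by rw [hn]; abel
  have hnv : B n v = 0 := null_of_seg h₁ (by rw [h₁₂]; norm_num) hv hnn hn1 hn2
  -- orthogonal vectors
  obtain ⟨u₀, hu₀, hu₀w, hu₀n⟩ := exists_dual h₁ hn0 hnn (by rw [B_comm]; exact hn1) 0 1
    one_ne_zero
  have horth : ∀ q, B q w₁ = 0 → B q n = 0 → B q v = 0 := by
    intro q hq1 hqn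
    by_contra hcon
    have key : ∀ s : ℝ, |B u₀ v + s * B q v| ≤ 1 := by
      intro s
      obtain ⟨x, hx⟩ : ∃ x, x = u₀ + s • q := ⟨_, rfl⟩
      have x1 : B x w₁ = 0 := by rw [hx, B_add_left, B_smul_left, hu₀w, hq1]; ring
      have xn : B x n = 1 := by rw [hx, B_add_left, B_smul_left, hu₀n, hqn]; ring
      have h := hv (x + ((1 - B x x) / 2) • n) ?_ ?_ ?_
      · rw [B_add_left, B_smul_left, hnv, hx, B_add_left, B_smul_left, mul_zero, add_zero] at h
        exact h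
      · rw [B_add_left, B_add_right, B_add_right, B_smul_left, B_smul_left, B_smul_right,
          B_smul_right, hnn, B_comm n x, xn]
        ring
      · rw [B_add_left, B_smul_left, hn1, x1]; norm_num
      · rw [B_add_left, B_smul_left, hn2, hw2, B_sub_right, x1, xn]; norm_num
    have h2 := key ((2 - B u₀ v) / B q v)
    rw [div_mul_cancel₀ _ hcon] at h2
    have h3 : B u₀ v + (2 - B u₀ v) = 2 := by ring
    rw [h3] at h2
    norm_num at h2
  obtain ⟨a, ha⟩ : ∃ a, a = B v w₁ := ⟨_, rfl⟩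
  obtain ⟨k, hk⟩ : ∃ k, k = v - a • w₁ := ⟨_, rfl⟩
  have k1 : B k w₁ = 0 := by rw [hk, B_sub_left, B_smul_left, h₁, ha]; ring
  have kn : B k n = 0 := by
    rw [hk, B_sub_left, B_smul_left, B_comm v n, hnv, B_comm w₁ n, hn1]; ring
  have kv : B k v = 0 := horth k k1 kn
  have kk : B k k = 0 := by
    have : B k k = B k v - a * B k w₁ := by
      nth_rewrite 2 [hk]
      rw [B_sub_right, B_smul_right]
    rw [this, kv, k1]; ring
  obtain ⟨b, hb⟩ := null_orth hn0 hnn kk kn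
  have hva : v = a • w₁ + b • n := by rw [← hb, hk]; abel
  have ha2 : (a - 1) * (a + 1) = 0 := by
    have := hv1
    rw [hva, B_add_left, B_add_right, B_add_right, B_smul_left, B_smul_left, B_smul_left,
      B_smul_left, B_smul_right, B_smul_right, B_smul_right, B_smul_right, h₁, hnn,
      B_comm w₁ n, hn1] at this
    linarith
  -- reduce to `v = ε • (w₁ - t • n)`
  have main : ∀ (ε t : ℝ), ε = 1 ∨ ε = -1 → v = ε • (w₁ - t • n) → 0 ≤ t ∧ t ≤ 1 := by
    intro ε t hε hvt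
    obtain ⟨u, hu, hu1, hun⟩ := exists_dual h₁ hn0 hnn (by rw [B_comm]; exact hn1) 1 2
      two_ne_zero
    have h := hv u hu (by rw [hu1]; norm_num) (by rw [hw2, B_sub_right, hu1, hun]; norm_num)
    rw [hvt, B_smul_right, B_sub_right, B_smul_right, hu1, hun, abs_mul] at h
    have hε1 : |ε| = 1 := by rcases hε with rfl | rfl <;> simp
    rw [hε1, one_mul, abs_le] at h
    constructor <;> linarith [h.1, h.2]
  have hform : ∀ t : ℝ, (1 - t) • w₁ + t • w₂ = w₁ - t • n := by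
    intro t
    rw [hw2]
    module
  rcases mul_eq_zero.mp ha2 with h | h
  · have ha1 : a = 1 := by linarith
    have hvt : v = (1 : ℝ) • (w₁ - (-b) • n) := by rw [hva, ha1]; module
    obtain ⟨t0, t1⟩ := main 1 (-b) (Or.inl rfl) hvt
    refine ⟨-b, t0, t1, Or.inl ?_⟩
    rw [hform, hvt, one_smul]
  · have ha1 : a = -1 := by linarith
    have hvt : v = (-1 : ℝ) • (w₁ - b • n) := by rw [hva, ha1]; module
    obtain ⟨t0, t1⟩ := main (-1) b (Or.inr rfl) hvt
    refine ⟨b, t0, t1, Or.inr ?_⟩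
    rw [hform, hvt, neg_one_smul]

omit [FiniteDimensional ℝ W] in
/-- Vectors orthogonal to a null vector have nonnegative square. -/
lemma orth_null {n k : W × ℝ × ℝ} (hn0 : n ≠ 0) (hn : B n n = 0) (hk : B k n = 0) :
    0 ≤ B k k := by
  by_contra hcon
  push Not at hcon
  exact hn0 ((orth_timelike hcon (by rw [B_comm]; exact hk)).2 hn)

omit [FiniteDimensional ℝ W] in
lemma cs_null {n v w : W × ℝ × ℝ} (hn0 : n ≠ 0) (hn : B n n = 0) (hv : B v v = 1)
    (hw : B w w = 1) (hvn : B v n = 0) (hwn : B w n = 0) : |B v w| ≤ 1 := by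
  have h1 := orth_null hn0 hn (k := v + w) (by rw [B_add_left, hvn, hwn]; ring)
  have h2 := orth_null hn0 hn (k := v - w) (by rw [B_sub_left, hvn, hwn]; ring)
  rw [B_add_left, B_add_right, B_add_right, hv, hw, B_comm w v] at h1
  rw [B_sub_left, B_sub_right, B_sub_right, hv, hw, B_comm w v] at h2
  rw [abs_le]
  constructor <;> linarith

/-- There is a unit vector orthogonal to a given vector. -/
lemma exists_unit_orth (hd : 2 ≤ Module.finrank ℝ W) (n : W × ℝ × ℝ) :
    ∃ w : W × ℝ × ℝ, B w w = 1 ∧ B w n = 0 := by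
  obtain ⟨k, hk0, hkn, hkt, _⟩ := exists_orth hd n tau n
  obtain ⟨h1, h2⟩ := orth_timelike (z := (tau : W × ℝ × ℝ)) (by rw [B_tau]; norm_num) hkt
  have hpos : 0 < B k k := lt_of_le_of_ne h1 (fun h' => hk0 (h2 h'.symm))
  refine ⟨(1 / Real.sqrt (B k k)) • k, ?_, ?_⟩
  · have hs : Real.sqrt (B k k) * Real.sqrt (B k k) = B k k := Real.mul_self_sqrt h1
    have hs0 : Real.sqrt (B k k) ≠ 0 := (Real.sqrt_pos.mpr hpos).ne'
    rw [B_smul_left, B_smul_right, ← mul_assoc]
    field_simp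
    nlinarith
  · rw [B_smul_left, hkn, mul_zero]

set_option linter.unusedSectionVars false

/-- Equality up to sign. -/
def Eqv (w w' : W × ℝ × ℝ) : Prop := w = w' ∨ w = -w'

omit [FiniteDimensional ℝ W] in
lemma Eqv.symm {w w' : W × ℝ × ℝ} (h : Eqv w w') : Eqv w' w := by
  rcases h with h | h
  · exact Or.inl h.symm
  · exact Or.inr (by rw [h, neg_neg])

omit [FiniteDimensional ℝ W] in
lemma Eqv.trans {w w' w'' : W × ℝ × ℝ} (h : Eqv w w') (h' : Eqv w' w'') : Eqv w w'' := by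
  rcases h with h | h <;> rcases h' with h' | h'
  · exact Or.inl (h.trans h')
  · exact Or.inr (h.trans h')
  · exact Or.inr (by rw [h, h'])
  · exact Or.inl (by rw [h, h', neg_neg])

omit [FiniteDimensional ℝ W] in
lemma Eqv.refl (w : W × ℝ × ℝ) : Eqv w w := Or.inl rfl

omit [FiniteDimensional ℝ W] in
lemma Eqv.abs_left {w w' : W × ℝ × ℝ} (h : Eqv w w') (v : W × ℝ × ℝ) :
    |B w v| = |B w' v| := by
  rcases h with rfl | rfl
  · rfl
  · rw [B_neg_left, abs_neg]

omit [FiniteDimensional ℝ W] in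
lemma Eqv.abs_right {w w' : W × ℝ × ℝ} (h : Eqv w w') (v : W × ℝ × ℝ) :
    |B v w| = |B v w'| := by
  rw [B_comm, h.abs_left, B_comm]

omit [FiniteDimensional ℝ W] in
lemma Eqv.zero_left {w w' : W × ℝ × ℝ} (h : Eqv w w') (v : W × ℝ × ℝ) :
    B w v = 0 ↔ B w' v = 0 := by
  rw [← abs_eq_zero, h.abs_left, abs_eq_zero]

/-- A pair of mutually inverse (up to sign) relation-preserving maps on unit vectors. -/
structure AutPair (γ γ' : W × ℝ × ℝ → W × ℝ × ℝ) : Prop where
  unit : ∀ w, B w w = 1 → B (γ w) (γ w) = 1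
  unit' : ∀ w, B w w = 1 → B (γ' w) (γ' w) = 1
  adj : ∀ w w', B w w = 1 → B w' w' = 1 → (|B (γ w) (γ w')| ≤ 1 ↔ |B w w'| ≤ 1)
  adj' : ∀ w w', B w w = 1 → B w' w' = 1 → (|B (γ' w) (γ' w')| ≤ 1 ↔ |B w w'| ≤ 1)
  left : ∀ w, B w w = 1 → Eqv (γ' (γ w)) w
  right : ∀ w, B w w = 1 → Eqv (γ (γ' w)) w
  congr : ∀ w w', B w w = 1 → Eqv w w' → Eqv (γ w) (γ w')
  congr' : ∀ w w', B w w = 1 → Eqv w w' → Eqv (γ' w) (γ' w')

namespace AutPair

variable {γ γ' : W × ℝ × ℝ → W × ℝ × ℝ}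

omit [FiniteDimensional ℝ W] in
lemma symm (h : AutPair γ γ') : AutPair γ' γ :=
  ⟨h.unit', h.unit, h.adj', h.adj, h.right, h.left, h.congr', h.congr⟩

omit [FiniteDimensional ℝ W] in
lemma inj (h : AutPair γ γ') {w w' : W × ℝ × ℝ} (hw : B w w = 1) (hw' : B w' w' = 1)
    (he : Eqv (γ w) (γ w')) : Eqv w w' :=
  ((h.left w hw).symm.trans (h.congr' _ _ (h.unit w hw) he)).trans (h.left w' hw')

omit [FiniteDimensional ℝ W] in
lemma seg (h : AutPair γ γ') {w₁ w₂ v : W × ℝ × ℝ} (h₁ : B w₁ w₁ = 1) (h₂ : B w₂ w₂ = 1)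
    (hv : B v v = 1) (hs : Seg w₁ w₂ v) : Seg (γ w₁) (γ w₂) (γ v) := by
  intro u hu hu1 hu2
  have hr := h.right u hu
  rw [← hr.abs_left] at hu1 hu2 ⊢
  rw [h.adj _ _ (h.unit' u hu) h₁] at hu1
  rw [h.adj _ _ (h.unit' u hu) h₂] at hu2
  rw [h.adj _ _ (h.unit' u hu) hv]
  exact hs _ (h.unit' u hu) hu1 hu2

omit [FiniteDimensional ℝ W] in
lemma seg_eqv {w₁ w₂ v w₁' w₂' v' : W × ℝ × ℝ} (h₁ : Eqv w₁ w₁') (h₂ : Eqv w₂ w₂')
    (hv : Eqv v v') (hs : Seg w₁ w₂ v) : Seg w₁' w₂' v' := by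
  intro u hu hu1 hu2
  rw [← h₁.abs_right] at hu1
  rw [← h₂.abs_right] at hu2
  rw [← hv.abs_right]
  exact hs u hu hu1 hu2

/-- Tangency (with `B = 1`) is preserved up to sign. -/
lemma tangent (h : AutPair γ γ') (hd : 2 ≤ Module.finrank ℝ W) {w₁ w₂ : W × ℝ × ℝ}
    (h₁ : B w₁ w₁ = 1) (h₂ : B w₂ w₂ = 1) (h₁₂ : B w₁ w₂ = 1) (hne : w₁ ≠ w₂) :
    |B (γ w₁) (γ w₂)| = 1 := by
  have hle : |B (γ w₁) (γ w₂)| ≤ 1 := by
    rw [h.adj _ _ h₁ h₂, h₁₂]; norm_num
  by_contra hcon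
  have hlt : |B (γ w₁) (γ w₂)| < 1 := lt_of_le_of_ne hle hcon
  obtain ⟨v, hv⟩ : ∃ v, v = (1 - (1 / 2 : ℝ)) • w₁ + (1 / 2 : ℝ) • w₂ := ⟨_, rfl⟩
  have hvs : Seg w₁ w₂ v := hv ▸ seg_of_mem (by norm_num) (by norm_num)
  have hv1 : B v v = 1 := by
    rw [hv, B_add_left, B_add_right, B_add_right, B_smul_left, B_smul_left, B_smul_left,
      B_smul_left, B_smul_right, B_smul_right, B_smul_right, B_smul_right, h₁, h₂,
      B_comm w₂ w₁, h₁₂]
    norm_num
  have hvw1 : B v w₁ = 1 := by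
    rw [hv, B_add_left, B_smul_left, B_smul_left, h₁, B_comm w₂ w₁, h₁₂]; norm_num
  have hvw2 : B v w₂ = 1 := by
    rw [hv, B_add_left, B_smul_left, B_smul_left, h₂, h₁₂]; norm_num
  have hneq1 : ¬ Eqv v w₁ := by
    rintro (he | he)
    · apply hne
      have : (1 / 2 : ℝ) • w₂ = (1 / 2 : ℝ) • w₁ := by
        have h3 : (1 - (1 / 2 : ℝ)) • w₁ + (1 / 2 : ℝ) • w₂ = w₁ := by rw [← hv, he]
        have h4 : (1 / 2 : ℝ) • w₂ = w₁ - (1 - (1 / 2 : ℝ)) • w₁ := eq_sub_of_add_eq' h3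
        rw [h4]; module
      exact (smul_right_injective _ (by norm_num : (1 / 2 : ℝ) ≠ 0) this).symm
    · rw [he, B_neg_left, h₁] at hvw1; norm_num at hvw1
  have hneq2 : ¬ Eqv v w₂ := by
    rintro (he | he)
    · apply hne
      have : (1 / 2 : ℝ) • w₁ = (1 / 2 : ℝ) • w₂ := by
        have h3 : (1 - (1 / 2 : ℝ)) • w₁ + (1 / 2 : ℝ) • w₂ = w₂ := by rw [← hv, he]
        have h4 : (1 - (1 / 2 : ℝ)) • w₁ = w₂ - (1 / 2 : ℝ) • w₂ := eq_sub_of_add_eq h3
        have h5 : (1 / 2 : ℝ) • w₁ = (1 - (1 / 2 : ℝ)) • w₁ := by module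
        rw [h5, h4]; module
      exact smul_right_injective _ (by norm_num : (1 / 2 : ℝ) ≠ 0) this
    · rw [he, B_neg_left, h₂] at hvw2; norm_num at hvw2
  have hs := h.seg h₁ h₂ hv1 hvs
  rcases seg_crossing hd (h.unit _ h₁) (h.unit _ h₂) (h.unit _ hv1) hlt hs with h3 | h3
  · exact hneq1 (h.inj hv1 h₁ h3)
  · exact hneq2 (h.inj hv1 h₂ h3)

omit [FiniteDimensional ℝ W] in
/-- normalisation of signs -/
lemma exists_sign {x y : W × ℝ × ℝ} (h : |B x y| = 1) : ∃ y', Eqv y' y ∧ B x y' = 1 := by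
  rcases (abs_eq (by norm_num : (0 : ℝ) ≤ 1)).mp h with h | h
  · exact ⟨y, Or.inl rfl, h⟩
  · exact ⟨-y, Or.inr rfl, by rw [B_neg_right, h, neg_neg]⟩

omit [FiniteDimensional ℝ W] in
lemma unit_of_eqv {x y : W × ℝ × ℝ} (h : Eqv x y) (hy : B y y = 1) : B x x = 1 := by
  rcases h with rfl | rfl
  · exact hy
  · rw [B_neg_left, B_neg_right, neg_neg]; exact hy

omit [FiniteDimensional ℝ W] in
lemma pencil_unit {w n : W × ℝ × ℝ} (hw : B w w = 1) (hn : B n n = 0) (hwn : B w n = 0)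
    (t : ℝ) : B (w - t • n) (w - t • n) = 1 := by
  rw [B_sub_left, B_sub_right, B_sub_right, B_smul_left, B_smul_left, B_smul_right,
    B_smul_right, hw, hn, B_comm n w, hwn]
  ring

omit [FiniteDimensional ℝ W] in
lemma pencil_B {w n : W × ℝ × ℝ} (hw : B w w = 1) (hn : B n n = 0) (hwn : B w n = 0)
    (s t : ℝ) : B (w - s • n) (w - t • n) = 1 := by
  rw [B_sub_left, B_sub_right, B_sub_right, B_smul_left, B_smul_left, B_smul_right,
    B_smul_right, hw, hn, B_comm n w, hwn]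
  ring

omit [FiniteDimensional ℝ W] in
lemma pencil_ne {w n : W × ℝ × ℝ} (hn0 : n ≠ 0) {s t : ℝ} (hst : s ≠ t) :
    w - s • n ≠ w - t • n := by
  intro h
  have h1 : s • n = t • n := sub_right_injective h
  have h2 : (s - t) • n = 0 := by rw [sub_smul, h1, sub_self]
  rcases smul_eq_zero.mp h2 with h3 | h3
  · exact hst (sub_eq_zero.mp h3)
  · exact hn0 h3

/-- Pencils of mutually tangent spheres are mapped into pencils. -/
lemma pencil (h : AutPair γ γ') (hd : 2 ≤ Module.finrank ℝ W) {w n w₁ w₂ n' : W × ℝ × ℝ}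
    (hw : B w w = 1) (hn : B n n = 0) (hn0 : n ≠ 0) (hwn : B w n = 0)
    (e₁ : Eqv w₁ (γ w)) (e₂ : Eqv w₂ (γ (w - n))) (h₁₂ : B w₁ w₂ = 1) (hn' : n' = w₁ - w₂)
    (hne : w₁ ≠ w₂) (t : ℝ) : ∃ t' : ℝ, Eqv (γ (w - t • n)) (w₁ - t' • n') := by
  have u1 : B w₁ w₁ = 1 := unit_of_eqv e₁ (h.unit _ hw)
  have hw2 : B (w - n) (w - n) = 1 := by simpa using pencil_unit hw hn hwn 1
  have u2 : B w₂ w₂ = 1 := unit_of_eqv e₂ (h.unit _ hw2)
  have hwt : B (w - t • n) (w - t • n) = 1 := pencil_unit hw hn hwn t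
  have hγt := h.unit _ hwt
  have e1n : w - (1 : ℝ) • n = w - n := by rw [one_smul]
  have e0n : w - (0 : ℝ) • n = w := by rw [zero_smul, sub_zero]
  have hw₂ : w₂ = w₁ - n' := by rw [hn']; abel
  rcases lt_trichotomy t 0 with ht | ht | ht
  · -- `w` lies between `w - t n` and `w - n`
    have hs : Seg (w - t • n) (w - n) w := by
      have : w = (1 - (-t / (1 - t))) • (w - t • n) + (-t / (1 - t)) • (w - n) := by
        have h1 : (1 - t) ≠ 0 := by linarith
        have h2 : (1 - (-t / (1 - t))) * t + (-t / (1 - t)) = 0 := by field_simp; ring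
        have h3 : (1 - (-t / (1 - t))) • (w - t • n) + (-t / (1 - t)) • (w - n) =
            w - ((1 - (-t / (1 - t))) * t + (-t / (1 - t))) • n := by module
        rw [h3, h2, zero_smul, sub_zero]
      nth_rewrite 3 [this]
      apply seg_of_mem
      · apply div_nonneg <;> linarith
      · rw [div_le_one (by linarith)]; linarith
    have hT : |B (γ (w - n)) (γ (w - t • n))| = 1 := by
      have := h.tangent hd (w₁ := w - n) (w₂ := w - t • n) hw2 hwt ?_ ?_
      · exact this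
      · have := pencil_B hw hn hwn 1 t; rwa [e1n] at this
      · have := pencil_ne (w := w) hn0 (s := 1) (t := t) (by linarith); rwa [e1n] at this
    rw [← e₂.abs_left] at hT
    obtain ⟨y, hy, hBy⟩ := exists_sign hT
    have hyu : B y y = 1 := unit_of_eqv hy hγt
    have hs' : Seg y w₂ w₁ := seg_eqv hy.symm e₂.symm e₁.symm (h.seg hwt hw2 hw hs)
    have hyne : y ≠ w₂ := by
      intro he
      rw [he] at hy
      have h5 := h.inj hw2 hwt (e₂.symm.trans hy)
      rcases h5 with h5 | h5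
      · have := pencil_ne (w := w) hn0 (s := 1) (t := t) (by linarith)
        rw [e1n] at this; exact this h5
      · have h6 := pencil_B hw hn hwn 1 t
        rw [e1n, h5, B_neg_left, hwt] at h6
        norm_num at h6
    obtain ⟨s, hs0, hs1, hsv⟩ := seg_tangent hyu u2 u1 (by rw [B_comm]; exact hBy) hyne hs'
    have hpos : w₁ = (1 - s) • y + s • w₂ := by
      rcases hsv with hsv | hsv
      · exact hsv
      · exfalso
        have := h₁₂
        rw [hsv, B_neg_left, B_add_left, B_smul_left, B_smul_left, u2, B_comm y w₂, hBy] at this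
        linarith
    have hs1' : s ≠ 1 := by
      rintro rfl
      apply hne
      rw [hpos]; simp
    have hs2 : 1 - s ≠ 0 := fun h' => hs1' (by linarith)
    refine ⟨-(s / (1 - s)), hy.symm.trans (Or.inl ?_)⟩
    have h7 : (1 - s) • y = w₁ - s • w₂ := by
      rw [eq_sub_iff_add_eq]; exact hpos.symm
    have h8 : y = (1 / (1 - s)) • (w₁ - s • w₂) := by
      rw [← h7, smul_smul, one_div, inv_mul_cancel₀ hs2, one_smul]
    have h9 : (1 / (1 - s)) • (w₁ - s • w₂) =
        ((1 / (1 - s)) * (1 - s)) • w₁ - (-((1 / (1 - s)) * s)) • n' := by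
      rw [hw₂]; module
    rw [h8, h9, one_div, inv_mul_cancel₀ hs2, one_smul, inv_mul_eq_div]
  · refine ⟨0, ?_⟩
    rw [ht, e0n, zero_smul, sub_zero]
    exact e₁.symm
  · rcases le_or_gt t 1 with ht1 | ht1
    · have hs : Seg w (w - n) (w - t • n) := by
        have : w - t • n = (1 - t) • w + t • (w - n) := by module
        rw [this]
        exact seg_of_mem ht.le ht1
      have hs' : Seg w₁ w₂ (γ (w - t • n)) :=
        seg_eqv e₁.symm e₂.symm (Eqv.refl _) (h.seg hw hw2 hwt hs)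
      obtain ⟨s, _, _, hsv⟩ := seg_tangent u1 u2 hγt h₁₂ hne hs'
      refine ⟨s, ?_⟩
      have h9 : (1 - s) • w₁ + s • w₂ = w₁ - s • n' := by rw [hw₂]; module
      rw [h9] at hsv
      exact hsv
    · -- `w - n` lies between `w` and `w - t n`
      have hs : Seg w (w - t • n) (w - n) := by
        have : w - n = (1 - (1 / t)) • w + (1 / t) • (w - t • n) := by
          have h1 : t ≠ 0 := by linarith
          have h3 : (1 - (1 / t)) • w + (1 / t) • (w - t • n) = w - ((1 / t) * t) • n := by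
            module
          rw [h3, one_div, inv_mul_cancel₀ h1, one_smul]
        rw [this]
        apply seg_of_mem
        · positivity
        · rw [div_le_one (by linarith)]; linarith
      have hT : |B (γ w) (γ (w - t • n))| = 1 := by
        have := h.tangent hd (w₁ := w) (w₂ := w - t • n) hw hwt ?_ ?_
        · exact this
        · have := pencil_B hw hn hwn 0 t; rwa [e0n] at this
        · have := pencil_ne (w := w) hn0 (s := 0) (t := t) (by linarith); rwa [e0n] at this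
      rw [← e₁.abs_left] at hT
      obtain ⟨y, hy, hBy⟩ := exists_sign hT
      have hyu : B y y = 1 := unit_of_eqv hy hγt
      have hs' : Seg w₁ y w₂ := seg_eqv e₁.symm hy.symm e₂.symm (h.seg hw hwt hw2 hs)
      have hyne : w₁ ≠ y := by
        intro he
        rw [← he] at hy
        have h5 := h.inj hw hwt (e₁.symm.trans hy)
        rcases h5 with h5 | h5
        · have := pencil_ne (w := w) hn0 (s := 0) (t := t) (by linarith)
          rw [e0n] at this; exact this h5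
        · have h6 := pencil_B hw hn hwn 0 t
          rw [e0n] at h6
          have h7 : B (-(w - t • n)) (w - t • n) = 1 := by
            rw [← h5]; exact h6
          rw [B_neg_left, hwt] at h7
          norm_num at h7
      obtain ⟨s, hs0, hs1, hsv⟩ := seg_tangent u1 hyu u2 hBy hyne hs'
      have hpos : w₂ = (1 - s) • w₁ + s • y := by
        rcases hsv with hsv | hsv
        · exact hsv
        · exfalso
          have := h₁₂
          rw [hsv, B_neg_right, B_add_right, B_smul_right, B_smul_right, u1, hBy] at this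
          linarith
      have hs0' : s ≠ 0 := by
        rintro rfl
        apply hne
        rw [hpos]; simp
      refine ⟨1 / s, hy.symm.trans (Or.inl ?_)⟩
      have h7 : s • y = s • w₁ - n' := by
        have h71 : s • y = w₂ - (1 - s) • w₁ := eq_sub_of_add_eq' hpos.symm
        rw [h71, hw₂]; module
      have h8 : y = (1 / s) • (s • w₁ - n') := by
        rw [← h7, smul_smul, one_div, inv_mul_cancel₀ hs0', one_smul]
      have h9 : (1 / s) • (s • w₁ - n') = ((1 / s) * s) • w₁ - (1 / s) • n' := by module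
      rw [h8, h9, one_div, inv_mul_cancel₀ hs0', one_smul]

/-- One half of the correspondence of points. -/
lemma point_half (h : AutPair γ γ') (hd : 2 ≤ Module.finrank ℝ W) {w n w₁ w₂ n' : W × ℝ × ℝ}
    (hw : B w w = 1) (hn : B n n = 0) (hn0 : n ≠ 0) (hwn : B w n = 0)
    (e₁ : Eqv w₁ (γ w)) (e₂ : Eqv w₂ (γ (w - n))) (h₁₂ : B w₁ w₂ = 1) (hn' : n' = w₁ - w₂)
    (hne : w₁ ≠ w₂) {v : W × ℝ × ℝ} (hv : B v v = 1) (hv' : B (γ v) n' = 0) : B v n = 0 := by
  have u1 : B w₁ w₁ = 1 := unit_of_eqv e₁ (h.unit _ hw)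
  have hw2 : B (w - n) (w - n) = 1 := by simpa using pencil_unit hw hn hwn 1
  have u2 : B w₂ w₂ = 1 := unit_of_eqv e₂ (h.unit _ hw2)
  have hn'0 : n' ≠ 0 := by rw [hn']; exact sub_ne_zero.mpr hne
  have hn'n : B n' n' = 0 := by
    rw [hn', B_sub_left, B_sub_right, B_sub_right, u1, u2, B_comm w₂ w₁, h₁₂]; ring
  have hw1n : B w₁ n' = 0 := by rw [hn', B_sub_right, u1, h₁₂]; ring
  have key : ∀ t : ℝ, |B v w - t * B v n| ≤ 1 := by
    intro t
    obtain ⟨t', ht'⟩ := h.pencil hd hw hn hn0 hwn e₁ e₂ h₁₂ hn' hne t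
    have h1 : |B (γ v) (γ (w - t • n))| ≤ 1 := by
      rw [ht'.abs_right]
      apply cs_null hn'0 hn'n (h.unit _ hv) (pencil_unit u1 hn'n hw1n t') hv'
      rw [B_sub_left, B_smul_left, hw1n, hn'n]; ring
    rw [h.adj _ _ hv (pencil_unit hw hn hwn t), B_sub_right, B_smul_right] at h1
    exact h1
  by_contra hcon
  have h2 := key ((B v w - 2) / B v n)
  rw [div_mul_cancel₀ _ hcon] at h2
  have h3 : B v w - (B v w - 2) = 2 := by ring
  rw [h3] at h2
  norm_num at h2

/-- `n'` is the point corresponding to the point `n`. -/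
def Pt (γ : W × ℝ × ℝ → W × ℝ × ℝ) (n n' : W × ℝ × ℝ) : Prop :=
  ∀ v, B v v = 1 → (B v n = 0 ↔ B (γ v) n' = 0)

/-- Every point has a corresponding point. -/
lemma exists_pt (h : AutPair γ γ') (hd : 2 ≤ Module.finrank ℝ W) {n : W × ℝ × ℝ}
    (hn0 : n ≠ 0) (hn : B n n = 0) : ∃ n', n' ≠ 0 ∧ B n' n' = 0 ∧ Pt γ n n' := by
  obtain ⟨w, hw, hwn⟩ := exists_unit_orth hd n
  have hw2 : B (w - n) (w - n) = 1 := by simpa using pencil_unit hw hn hwn 1
  have h12 : B w (w - n) = 1 := by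
    have := pencil_B hw hn hwn 0 1
    simpa using this
  have hne12 : w ≠ w - n := by
    intro he
    have : n = 0 := by
      have h1 : w - (w - n) = 0 := by rw [← he]; exact sub_self w
      simpa using h1
    exact hn0 this
  have hT := h.tangent hd hw hw2 h12 hne12
  obtain ⟨w₂, e₂, h₁₂⟩ := exists_sign hT
  have u1 : B (γ w) (γ w) = 1 := h.unit _ hw
  have u2 : B w₂ w₂ = 1 := unit_of_eqv e₂ (h.unit _ hw2)
  have hne : γ w ≠ w₂ := by
    intro he
    rw [← he] at e₂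
    rcases h.inj hw hw2 e₂ with h5 | h5
    · exact hne12 h5
    · have h7 : B (-(w - n)) (w - n) = 1 := by rw [← h5]; exact h12
      rw [B_neg_left, hw2] at h7
      norm_num at h7
  obtain ⟨n', hn'⟩ : ∃ n', n' = γ w - w₂ := ⟨_, rfl⟩
  have hn'0 : n' ≠ 0 := by rw [hn']; exact sub_ne_zero.mpr hne
  have hn'n : B n' n' = 0 := by
    rw [hn', B_sub_left, B_sub_right, B_sub_right, u1, u2, B_comm w₂ (γ w), h₁₂]; ring
  have hw1n : B (γ w) n' = 0 := by rw [hn', B_sub_right, u1, h₁₂]; ring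
  refine ⟨n', hn'0, hn'n, ?_⟩
  intro v hv
  constructor
  · intro hvn
    -- use the inverse map and the pencil of `γ w, w₂ = γ w - n'`
    have hsub : γ w - n' = w₂ := by rw [hn']; abel
    have f1 : Eqv w (γ' (γ w)) := (h.left w hw).symm
    have f2 : Eqv (w - n) (γ' (γ w - n')) := by
      rw [hsub]
      exact (h.left _ hw2).symm.trans
        ((h.congr' _ _ u2 e₂).symm)
    have hn'' : n = w - (w - n) := by abel
    apply h.symm.point_half hd (w := γ w) (n := n') (w₁ := w) (w₂ := w - n) (n' := n) u1 hn'n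
      hn'0 hw1n f1 f2 h12 hn'' hne12 (h.unit v hv)
    rw [(h.left v hv).zero_left]
    exact hvn
  · intro hvn
    exact h.point_half hd hw hn hn0 hwn (Eqv.refl _) e₂ h₁₂ hn' hne hv hvn

end AutPair

/-- A null vector is determined up to scaling by the unit vectors orthogonal to it. -/
lemma null_unique (hd : 2 ≤ Module.finrank ℝ W) {n₁ n₂ : W × ℝ × ℝ} (h10 : n₁ ≠ 0)
    (h1 : B n₁ n₁ = 0) (h2 : B n₂ n₂ = 0)
    (h : ∀ v, B v v = 1 → B v n₁ = 0 → B v n₂ = 0) : ∃ c : ℝ, n₂ = c • n₁ := by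
  apply null_orth h10 h1 h2
  obtain ⟨w, hw, hwn⟩ := exists_unit_orth hd n₁
  have e1 := h w hw hwn
  have e2 := h (w + n₁) (by
    rw [B_add_left, B_add_right, B_add_right, hw, h1, B_comm n₁ w, hwn]; ring) (by
    rw [B_add_left, hwn, h1]; ring)
  rw [B_add_left, e1, zero_add, B_comm] at e2
  exact e2

/-- Reflection in `a`. -/
noncomputable def refl (a x : W × ℝ × ℝ) : W × ℝ × ℝ := x - (2 * B x a / B a a) • a

lemma B_refl {a : W × ℝ × ℝ} (ha : B a a ≠ 0) (x y : W × ℝ × ℝ) :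
    B (refl a x) (refl a y) = B x y := by
  unfold refl
  rw [B_sub_left, B_sub_right, B_sub_right, B_smul_left, B_smul_left, B_smul_right,
    B_smul_right, B_comm a y]
  field_simp
  ring

lemma refl_refl {a : W × ℝ × ℝ} (ha : B a a ≠ 0) (x : W × ℝ × ℝ) :
    refl a (refl a x) = x := by
  unfold refl
  rw [B_sub_left, B_smul_left]
  have : 2 * (B x a - 2 * B x a / B a a * B a a) / B a a = - (2 * B x a / B a a) := by
    field_simp
    ring
  rw [this]
  module

lemma refl_neg (a x : W × ℝ × ℝ) : refl a (-x) = - refl a x := by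
  unfold refl
  rw [B_neg_left]
  have : 2 * -B x a / B a a = -(2 * B x a / B a a) := by ring
  rw [this]
  module

lemma refl_eqv {a x y : W × ℝ × ℝ} (h : Eqv x y) : Eqv (refl a x) (refl a y) := by
  rcases h with rfl | rfl
  · exact Or.inl rfl
  · exact Or.inr (refl_neg a y)

/-- Composition with a reflection. -/
lemma AutPair.comp_refl {γ γ' : W × ℝ × ℝ → W × ℝ × ℝ} (h : AutPair γ γ') {a : W × ℝ × ℝ}
    (ha : B a a ≠ 0) : AutPair (fun x => refl a (γ x)) (fun x => γ' (refl a x)) where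
  unit w hw := by rw [B_refl ha]; exact h.unit w hw
  unit' w hw := h.unit' _ (by rw [B_refl ha]; exact hw)
  adj w w' hw hw' := by rw [B_refl ha]; exact h.adj w w' hw hw'
  adj' w w' hw hw' := by
    rw [h.adj' _ _ (by rw [B_refl ha]; exact hw) (by rw [B_refl ha]; exact hw'), B_refl ha]
  left w hw := by rw [refl_refl ha]; exact h.left w hw
  right w hw := by
    have h1 := h.right (refl a w) (by rw [B_refl ha]; exact hw)
    have h2 := refl_eqv (a := a) h1
    rw [refl_refl ha] at h2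
    exact h2
  congr w w' hw he := refl_eqv (h.congr w w' hw he)
  congr' w w' hw he := h.congr' _ _ (by rw [B_refl ha]; exact hw) (refl_eqv he)

/-- The point at infinity. -/
def ee : W × ℝ × ℝ := (0, 1, 0)

lemma B_ee (v : W × ℝ × ℝ) : B v ee = - v.2.2 := by
  simp [B, ee]

lemma ee_ne : (ee : W × ℝ × ℝ) ≠ 0 := by
  intro h
  have : (ee : W × ℝ × ℝ).2.1 = 0 := by rw [h]; rfl
  simp [ee] at this

lemma B_ee_ee : B (ee : W × ℝ × ℝ) ee = 0 := by
  rw [B_ee]; simp [ee]

/-- The point `x` of the Euclidean space `W`. -/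
noncomputable def nx (x : W) : W × ℝ × ℝ := (x, ‖x‖ ^ 2 / 2, 1)

lemma nx_ne (x : W) : nx x ≠ 0 := by
  intro h
  have : (nx x).2.2 = 0 := by rw [h]; rfl
  simp [nx] at this

lemma B_nx_nx (x : W) : B (nx x) (nx x) = 0 := by
  simp only [B, nx, real_inner_self_eq_norm_sq]
  ring

lemma B_nx (v : W × ℝ × ℝ) (x : W) :
    B v (nx x) = inner ℝ v.1 x - v.2.1 - v.2.2 * (‖x‖ ^ 2 / 2) := by
  simp only [B, nx]
  ring

/-- Every null vector is a multiple of `ee` or of some `nx x`. -/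
lemma null_cases {n : W × ℝ × ℝ} (hn : B n n = 0) :
    (∃ c : ℝ, n = c • ee) ∨ ∃ (c : ℝ) (x : W), c ≠ 0 ∧ n = c • nx x := by
  obtain ⟨w, a, b⟩ := n
  simp only [B, real_inner_self_eq_norm_sq] at hn
  by_cases hb : b = 0
  · left
    refine ⟨a, ?_⟩
    have hw : w = 0 := by
      rw [hb] at hn
      have : ‖w‖ = 0 := by nlinarith [norm_nonneg w]
      exact norm_eq_zero.mp this
    rw [hw, hb]
    simp [ee]
  · right
    refine ⟨b, b⁻¹ • w, hb, ?_⟩
    ext1
    · simp only [nx, Prod.smul_fst, smul_smul]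
      rw [mul_inv_cancel₀ hb, one_smul]
    · ext1
      · simp only [nx, Prod.smul_snd, Prod.smul_fst, norm_smul, norm_inv, Real.norm_eq_abs,
          smul_eq_mul, mul_pow, inv_pow, sq_abs]
        field_simp
        linarith
      · simp [nx]

/-- After composing with a reflection, the point at infinity is fixed. -/
lemma AutPair.exists_refl {γ γ' : W × ℝ × ℝ → W × ℝ × ℝ} (h : AutPair γ γ')
    (hd : 2 ≤ Module.finrank ℝ W) :
    AutPair.Pt γ ee ee ∨ ∃ a : W × ℝ × ℝ, B a a ≠ 0 ∧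
      AutPair.Pt (fun x => refl a (γ x)) ee ee := by
  obtain ⟨n', hn'0, hn'n, hpt⟩ := h.exists_pt hd ee_ne B_ee_ee
  rcases null_cases hn'n with ⟨c, hc⟩ | ⟨c, x, hc, hx⟩
  · left
    have hc0 : c ≠ 0 := by
      rintro rfl
      rw [zero_smul] at hc
      exact hn'0 hc
    intro v hv
    rw [hpt v hv, hc, B_smul_right, mul_eq_zero]
    simp [hc0]
  · right
    -- reflection in `nx x - ee`
    obtain ⟨a, ha⟩ : ∃ a, a = nx x - ee := ⟨_, rfl⟩
    have hxe : B (nx x) ee = -1 := by rw [B_ee]; simp [nx]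
    have haa : B a a = 2 := by
      rw [ha, B_sub_left, B_sub_right, B_sub_right, B_nx_nx, B_ee_ee, B_comm ee, hxe]
      norm_num
    have hre : refl a (nx x) = ee := by
      unfold refl
      rw [haa]
      have : B (nx x) a = 1 := by rw [ha, B_sub_right, B_nx_nx, hxe]; norm_num
      rw [this, ha]
      have h2 : (2 * 1 / 2 : ℝ) = 1 := by norm_num
      rw [h2, one_smul]
      abel
    have haa0 : B a a ≠ 0 := by rw [haa]; norm_num
    refine ⟨a, haa0, ?_⟩
    intro v hv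
    have h1 : B (refl a (γ v)) ee = B (γ v) (nx x) := by
      rw [← hre, B_refl haa0]
    show B v ee = 0 ↔ B (refl a (γ v)) ee = 0
    rw [h1, hpt v hv, hx, B_smul_right, mul_eq_zero]
    simp [hc]

/-! ### The induced bijection of the Euclidean space -/

namespace AutPair

variable {γ γ' : W × ℝ × ℝ → W × ℝ × ℝ}

lemma pt_smul {γ : W × ℝ × ℝ → W × ℝ × ℝ} {n n' : W × ℝ × ℝ} {c : ℝ} (hc : c ≠ 0)
    (h : Pt γ n (c • n')) : Pt γ n n' := by
  intro v hv
  rw [h v hv, B_smul_right, mul_eq_zero]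
  simp [hc]

lemma pt_symm (h : AutPair γ γ') {n n' : W × ℝ × ℝ} (hp : Pt γ n n') : Pt γ' n' n := by
  intro v hv
  rw [hp _ (h.unit' v hv), (h.right v hv).zero_left]

/-- The induced map on `W`. -/
lemma exists_phi (h : AutPair γ γ') (hd : 2 ≤ Module.finrank ℝ W) (he : Pt γ ee ee) :
    ∃ φ : W → W, ∀ x, Pt γ (nx x) (nx (φ x)) := by
  have : ∀ x : W, ∃ y : W, Pt γ (nx x) (nx y) := by
    intro x
    obtain ⟨n', hn'0, hn'n, hpt⟩ := h.exists_pt hd (nx_ne x) (B_nx_nx x)
    rcases null_cases hn'n with ⟨c, hc⟩ | ⟨c, y, hc, hy⟩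
    · exfalso
      have hc0 : c ≠ 0 := by
        rintro rfl
        rw [zero_smul] at hc
        exact hn'0 hc
      have h1 : Pt γ (nx x) ee := pt_smul hc0 (hc ▸ hpt)
      obtain ⟨d, hd'⟩ := null_unique hd (nx_ne x) (B_nx_nx x) (B_ee_ee (W := W))
        (fun v hv hvn => (he v hv).mpr ((h1 v hv).mp hvn))
      have h2 : (ee : W × ℝ × ℝ).2.2 = (d • nx x).2.2 := by rw [← hd']
      simp only [ee, nx, Prod.smul_snd, smul_eq_mul, mul_one] at h2
      rw [← h2, zero_smul] at hd'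
      exact ee_ne hd'
    · exact ⟨y, pt_smul hc (hy ▸ hpt)⟩
  choose φ hφ using this
  exact ⟨φ, hφ⟩

lemma nx_unique (hd : 2 ≤ Module.finrank ℝ W) {x y : W}
    (h : ∀ v, B v v = 1 → B v (nx x) = 0 → B v (nx y) = 0) : x = y := by
  obtain ⟨c, hc⟩ := null_unique hd (nx_ne x) (B_nx_nx x) (B_nx_nx y) h
  have h2 : (nx y).2.2 = (c • nx x).2.2 := by rw [← hc]
  simp only [nx, Prod.smul_snd, smul_eq_mul, mul_one] at h2
  rw [← h2, one_smul] at hc
  have h3 : (nx y).1 = (nx x).1 := by rw [hc]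
  exact h3.symm

lemma phi_inverse (h : AutPair γ γ') (hd : 2 ≤ Module.finrank ℝ W) {φ φ' : W → W}
    (hφ : ∀ x, Pt γ (nx x) (nx (φ x))) (hφ' : ∀ x, Pt γ' (nx x) (nx (φ' x))) (x : W) :
    φ' (φ x) = x := by
  symm
  apply nx_unique hd
  intro v hv hvx
  have h1 := (hφ x v hv).mp hvx
  have h2 := (hφ' (φ x) _ (h.unit v hv)).mp h1
  rwa [(h.left v hv).zero_left] at h2

/-- The induced bijection preserves right angles. -/
lemma right_angle (h : AutPair γ γ') (hd : 2 ≤ Module.finrank ℝ W) (he : Pt γ ee ee)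
    {φ : W → W} (hφ : ∀ x, Pt γ (nx x) (nx (φ x))) (hinj : Function.Injective φ)
    (x y z : W) : inner ℝ (z - x) (z - y) = 0 ↔ inner ℝ (φ z - φ x) (φ z - φ y) = 0 := by
  by_cases hxy : x = y
  · subst hxy
    rw [inner_self_eq_zero (𝕜 := ℝ), inner_self_eq_zero (𝕜 := ℝ), sub_eq_zero, sub_eq_zero]
    exact ⟨fun h => by rw [h], fun h => hinj h⟩
  -- the sphere with diameter `x, y` and its tangent planes at `x` and `y`
  have hr0 : 0 < ‖x - y‖ := norm_pos_iff.mpr (sub_ne_zero.mpr hxy)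
  obtain ⟨r, hr⟩ : ∃ r, r = ‖x - y‖ / 2 := ⟨_, rfl⟩
  have hrpos : 0 < r := by rw [hr]; positivity
  have hrne : r ≠ 0 := hrpos.ne'
  obtain ⟨c, hc⟩ : ∃ c : W, c = (1 / 2 : ℝ) • (x + y) := ⟨_, rfl⟩
  obtain ⟨m, hm⟩ : ∃ m : W, m = (1 / (2 * r)) • (x - y) := ⟨_, rfl⟩
  have h2r : ‖x - y‖ = 2 * r := by rw [hr]; ring
  have hmm : inner ℝ m m = (1 : ℝ) := by
    rw [hm, real_inner_smul_left, real_inner_smul_right, real_inner_self_eq_norm_sq, h2r]
    field_simp
  have hxy2 : x - y = (2 * r) • m := by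
    rw [hm, smul_smul]
    have : 2 * r * (1 / (2 * r)) = 1 := by field_simp
    rw [this, one_smul]
  have hcx : c - x = -r • m := by
    have : c - x = -(1 / 2 : ℝ) • (x - y) := by rw [hc]; module
    rw [this, hxy2]; module
  have hcy : c - y = r • m := by
    have : c - y = (1 / 2 : ℝ) • (x - y) := by rw [hc]; module
    rw [this, hxy2]; module
  obtain ⟨T, hT⟩ : ∃ T : W × ℝ × ℝ, T = ((1 / r) • c, (‖c‖ ^ 2 - r ^ 2) / (2 * r), 1 / r) :=
    ⟨_, rfl⟩
  obtain ⟨X, hX⟩ : ∃ X : W × ℝ × ℝ, X = (m, inner ℝ m x, 0) := ⟨_, rfl⟩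
  obtain ⟨Y, hY⟩ : ∃ Y : W × ℝ × ℝ, Y = (m, inner ℝ m y, 0) := ⟨_, rfl⟩
  have hTT : B T T = 1 := by
    have hn : inner ℝ ((1 / r) • c) ((1 / r) • c) = (1 / r) ^ 2 * ‖c‖ ^ 2 := by
      rw [real_inner_smul_left, real_inner_smul_right, real_inner_self_eq_norm_sq]; ring
    rw [hT]
    simp only [B, hn]
    field_simp
    ring
  have hXX : B X X = 1 := by rw [hX]; simp only [B, hmm]; ring
  have hYY : B Y Y = 1 := by rw [hY]; simp only [B, hmm]; ring
  have hXY : B X Y = 1 := by rw [hX, hY]; simp only [B, hmm]; ring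
  have hTX : B T X = -1 := by
    rw [hT, hX]
    simp only [B, real_inner_smul_left]
    have h1 : inner ℝ c m = inner ℝ x m - r := by
      have h2 : c = x + (-r) • m := by rw [← hcx]; abel
      rw [h2, inner_add_left, real_inner_smul_left, hmm]; ring
    rw [h1, real_inner_comm m x]
    field_simp
    ring
  have hTY : B T Y = 1 := by
    rw [hT, hY]
    simp only [B, real_inner_smul_left]
    have h1 : inner ℝ c m = inner ℝ y m + r := by
      have h2 : c = y + r • m := by rw [← hcy]; abel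
      rw [h2, inner_add_left, real_inner_smul_left, hmm]; ring
    rw [h1, real_inner_comm m y]
    field_simp
    ring
  have hTn : ∀ z, B T (nx z) = -(1 / (2 * r)) * inner ℝ (z - x) (z - y) := by
    intro z
    rw [B_nx, hT]
    simp only [real_inner_smul_left]
    have h1 : inner ℝ (z - x) (z - y) = ‖z - c‖ ^ 2 - r ^ 2 := by
      obtain ⟨q, hq⟩ : ∃ q, q = z - c := ⟨_, rfl⟩
      have h2 : z - x = q - r • m := by
        have h21 : z - x = q + (c - x) := by rw [hq]; abel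
        rw [h21, hcx]; module
      have h3 : z - y = q + r • m := by
        have h31 : z - y = q + (c - y) := by rw [hq]; abel
        rw [h31, hcy]
      rw [h2, h3, ← hq, inner_sub_left, inner_add_right, inner_add_right, real_inner_smul_left,
        real_inner_smul_left, real_inner_smul_right, real_inner_smul_right, hmm,
        real_inner_self_eq_norm_sq, real_inner_comm m q]
      ring
    rw [h1, norm_sub_sq_real, real_inner_comm c z]
    field_simp
    ring
  -- images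
  have hVu := h.unit T hTT
  have hXu := h.unit X hXX
  have hYu := h.unit Y hYY
  have hXYne : X ≠ Y := by
    intro hh
    have h1 : X.2.1 = Y.2.1 := by rw [hh]
    rw [hX, hY] at h1
    have h2 : inner ℝ m (x - y) = (0 : ℝ) := by
      rw [inner_sub_right]; exact sub_eq_zero.mpr h1
    rw [hxy2, real_inner_smul_right, hmm] at h2
    simp at h2
    exact hrne h2
  have hTXne : T ≠ -X := by
    intro hh
    have h1 : T.2.2 = (-X).2.2 := by rw [hh]
    rw [hT, hX] at h1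
    simp at h1
    exact hrne h1
  have hTYne : T ≠ Y := by
    intro hh
    have h1 : T.2.2 = Y.2.2 := by rw [hh]
    rw [hT, hY] at h1
    simp at h1
    exact hrne h1
  have t1 : |B (γ X) (γ Y)| = 1 := h.tangent hd hXX hYY hXY hXYne
  have t2 : |B (γ T) (γ Y)| = 1 := h.tangent hd hTT hYY hTY hTYne
  have t3 : |B (γ T) (γ X)| = 1 := by
    have h1 : B (-X) (-X) = 1 := by rw [B_neg_left, B_neg_right, neg_neg]; exact hXX
    have h2 := h.tangent hd hTT h1 (by rw [B_neg_right, hTX, neg_neg]) hTXne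
    rw [← h2]
    exact (h.congr X (-X) hXX (Or.inr (neg_neg X).symm)).abs_right _
  -- infinity
  have hX0 : (γ X).2.2 = 0 := by
    have := (he X hXX).mp (by rw [B_ee, hX]; simp)
    rw [B_ee] at this; linarith
  have hY0 : (γ Y).2.2 = 0 := by
    have := (he Y hYY).mp (by rw [B_ee, hY]; simp)
    rw [B_ee] at this; linarith
  have hV0 : (γ T).2.2 ≠ 0 := by
    intro h0
    have := (he T hTT).mpr (by rw [B_ee, h0, neg_zero])
    rw [B_ee, hT] at this
    simp at this
    exact hrne this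
  -- incidences
  have iTx : B (γ T) (nx (φ x)) = 0 := (hφ x T hTT).mp (by rw [hTn]; simp)
  have iTy : B (γ T) (nx (φ y)) = 0 := (hφ y T hTT).mp (by rw [hTn]; simp)
  have iXx : B (γ X) (nx (φ x)) = 0 := (hφ x X hXX).mp (by rw [B_nx, hX]; simp)
  have iYy : B (γ Y) (nx (φ y)) = 0 := (hφ y Y hYY).mp (by rw [B_nx, hY]; simp)
  -- name the components
  obtain ⟨p, hp⟩ : ∃ p, p = (γ T).1 := ⟨_, rfl⟩
  obtain ⟨a, ha⟩ : ∃ a, a = (γ T).2.1 := ⟨_, rfl⟩
  obtain ⟨b, hb⟩ : ∃ b, b = (γ T).2.2 := ⟨_, rfl⟩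
  obtain ⟨m₁, hm₁⟩ : ∃ m₁, m₁ = (γ X).1 := ⟨_, rfl⟩
  obtain ⟨m₂, hm₂⟩ : ∃ m₂, m₂ = (γ Y).1 := ⟨_, rfl⟩
  rw [← hb] at hV0
  have hm₁1 : inner ℝ m₁ m₁ = (1 : ℝ) := by
    have := hXu
    simp only [B, hX0, mul_zero, zero_mul, sub_zero, ← hm₁] at this
    exact this
  have hm₂1 : inner ℝ m₂ m₂ = (1 : ℝ) := by
    have := hYu
    simp only [B, hY0, mul_zero, zero_mul, sub_zero, ← hm₂] at this
    exact this
  have hm₁₂ : |inner ℝ m₁ m₂| = (1 : ℝ) := by
    have := t1
    simp only [B, hX0, hY0, mul_zero, zero_mul, sub_zero, ← hm₁, ← hm₂] at this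
    exact this
  obtain ⟨c', hc'⟩ : ∃ c' : W, c' = (1 / b) • p := ⟨_, rfl⟩
  have hpc : p = b • c' := by
    rw [hc', smul_smul, mul_one_div_cancel hV0, one_smul]
  have hunit : ‖p‖ ^ 2 - 2 * (a * b) = 1 := by
    have := hVu
    simp only [B, ← hp, ← ha, ← hb, real_inner_self_eq_norm_sq] at this
    linarith
  have hzero : ∀ z, B (γ T) (nx z) = -(b / 2) * (‖z - c'‖ ^ 2 - 1 / b ^ 2) := by
    intro z
    rw [B_nx, ← hp, ← ha, ← hb, norm_sub_sq_real]
    have h1 : ‖p‖ ^ 2 = b ^ 2 * ‖c'‖ ^ 2 := by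
      rw [hpc, norm_smul, mul_pow, Real.norm_eq_abs, sq_abs]
    have h2 : a = (b ^ 2 * ‖c'‖ ^ 2 - 1) / (2 * b) := by
      rw [← h1]; field_simp; linarith
    rw [hpc, real_inner_smul_left, h2, real_inner_comm c' z]
    field_simp
    ring
  have hb2 : b / 2 ≠ 0 := div_ne_zero hV0 two_ne_zero
  have nrm : ∀ z, B (γ T) (nx z) = 0 → ‖z - c'‖ ^ 2 = 1 / b ^ 2 := by
    intro z hz
    rw [hzero z] at hz
    rcases mul_eq_zero.mp hz with h1 | h1
    · exact absurd (neg_eq_zero.mp h1) hb2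
    · linarith
  have nx1 := nrm _ iTx
  have ny1 := nrm _ iTy
  -- the radius vectors are parallel to the normals
  have par : ∀ (k : W) (z : W), inner ℝ k k = (1 : ℝ) → ‖z - c'‖ ^ 2 = 1 / b ^ 2 →
      |b * inner ℝ k (z - c')| = 1 → z - c' = (inner ℝ k (z - c')) • k := by
    intro k z hk hz hkz
    have h1 : (inner ℝ k (z - c')) ^ 2 = 1 / b ^ 2 := by
      have h2 : (b * inner ℝ k (z - c')) ^ 2 = 1 := by rw [← sq_abs, hkz]; norm_num
      field_simp
      linarith
    have h3 : ‖(z - c') - (inner ℝ k (z - c')) • k‖ ^ 2 = 0 := by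
      rw [norm_sub_sq_real, real_inner_smul_right, norm_smul, mul_pow, Real.norm_eq_abs, sq_abs,
        ← real_inner_self_eq_norm_sq k, hk, hz, real_inner_comm k (z - c')]
      have : inner ℝ k (z - c') * inner ℝ k (z - c') = (inner ℝ k (z - c')) ^ 2 := by ring
      rw [this, h1]; ring
    have h4 : ‖(z - c') - (inner ℝ k (z - c')) • k‖ = 0 := by
      have := sq_eq_zero_iff.mp h3
      exact this
    exact sub_eq_zero.mp (norm_eq_zero.mp h4)
  have parx : φ x - c' = (inner ℝ m₁ (φ x - c')) • m₁ := by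
    apply par m₁ _ hm₁1 nx1
    have h1 := t3
    have h2 := iXx
    rw [B_nx, hX0, ← hm₁] at h2
    simp only [B, hX0, ← hp, ← hb, ← hm₁, mul_zero, sub_zero] at h1
    have h3 : (γ X).2.1 = inner ℝ m₁ (φ x) := by linarith
    rw [h3, hpc, real_inner_smul_left] at h1
    rw [← h1, inner_sub_right, real_inner_comm c' m₁, ← abs_neg]
    congr 1
    ring
  have pary : φ y - c' = (inner ℝ m₂ (φ y - c')) • m₂ := by
    apply par m₂ _ hm₂1 ny1
    have h1 := t2
    have h2 := iYy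
    rw [B_nx, hY0, ← hm₂] at h2
    simp only [B, hY0, ← hp, ← hb, ← hm₂, mul_zero, sub_zero] at h1
    have h3 : (γ Y).2.1 = inner ℝ m₂ (φ y) := by linarith
    rw [h3, hpc, real_inner_smul_left] at h1
    rw [← h1, inner_sub_right, real_inner_comm c' m₂, ← abs_neg]
    congr 1
    ring
  have hm12 : m₂ = (inner ℝ m₁ m₂) • m₁ := by
    have h1 : (inner ℝ m₁ m₂) ^ 2 = (1 : ℝ) := by rw [← sq_abs, hm₁₂]; norm_num
    have h3 : ‖m₂ - (inner ℝ m₁ m₂) • m₁‖ ^ 2 = 0 := by
      rw [norm_sub_sq_real, real_inner_smul_right, norm_smul, mul_pow, Real.norm_eq_abs, sq_abs,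
        ← real_inner_self_eq_norm_sq m₁, ← real_inner_self_eq_norm_sq m₂, hm₁1, hm₂1,
        real_inner_comm m₁ m₂]
      have : inner ℝ m₁ m₂ * inner ℝ m₁ m₂ = (inner ℝ m₁ m₂) ^ 2 := by ring
      rw [this, h1]; ring
    have h4 : ‖m₂ - (inner ℝ m₁ m₂) • m₁‖ = 0 := sq_eq_zero_iff.mp h3
    exact sub_eq_zero.mp (norm_eq_zero.mp h4)
  obtain ⟨s₁, hs₁⟩ : ∃ s₁ : ℝ, φ x - c' = s₁ • m₁ := ⟨_, parx⟩
  obtain ⟨s₂, hs₂⟩ : ∃ s₂ : ℝ, φ y - c' = s₂ • m₁ := by
    refine ⟨inner ℝ m₂ (φ y - c') * inner ℝ m₁ m₂, ?_⟩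
    rw [← smul_smul, ← hm12]; exact pary
  have q1 : s₁ ^ 2 = 1 / b ^ 2 := by
    rw [← nx1, hs₁, norm_smul, mul_pow, Real.norm_eq_abs, sq_abs,
      ← real_inner_self_eq_norm_sq m₁, hm₁1, mul_one]
  have q2 : s₂ ^ 2 = 1 / b ^ 2 := by
    rw [← ny1, hs₂, norm_smul, mul_pow, Real.norm_eq_abs, sq_abs,
      ← real_inner_self_eq_norm_sq m₁, hm₁1, mul_one]
  have hs12 : s₂ = -s₁ := by
    have h1 : (s₂ - s₁) * (s₂ + s₁) = 0 := by
      have : (s₂ - s₁) * (s₂ + s₁) = s₂ ^ 2 - s₁ ^ 2 := by ring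
      rw [this, q1, q2, sub_self]
    rcases mul_eq_zero.mp h1 with h2 | h2
    · exfalso
      apply hxy
      apply hinj
      have h3 : φ x - c' = φ y - c' := by rw [hs₁, hs₂, sub_eq_zero.mp h2]
      exact sub_left_injective h3
    · linarith
  have hprod : ∀ z, inner ℝ (φ z - φ x) (φ z - φ y) = ‖φ z - c'‖ ^ 2 - 1 / b ^ 2 := by
    intro z
    have h1 : φ z - φ x = (φ z - c') - s₁ • m₁ := by rw [← hs₁]; abel
    have h2 : φ z - φ y = (φ z - c') + s₁ • m₁ := by
      have : s₁ • m₁ = -(φ y - c') := by rw [hs₂, hs12]; module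
      rw [this]; abel
    rw [h1, h2, inner_sub_left, inner_add_right, inner_add_right, real_inner_smul_right,
      real_inner_smul_left, real_inner_smul_left, real_inner_smul_right, hm₁1,
      real_inner_self_eq_norm_sq, real_inner_comm (φ z - c') m₁, ← q1]
    ring
  have e1 : inner ℝ (z - x) (z - y) = 0 ↔ B T (nx z) = 0 := by
    rw [hTn, mul_eq_zero]
    have : -(1 / (2 * r)) ≠ 0 := neg_ne_zero.mpr (by positivity)
    exact (or_iff_right this).symm
  have e2 : inner ℝ (φ z - φ x) (φ z - φ y) = 0 ↔ B (γ T) (nx (φ z)) = 0 := by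
    rw [hprod, hzero, mul_eq_zero]
    have : -(b / 2) ≠ 0 := neg_ne_zero.mpr hb2
    exact (or_iff_right this).symm
  rw [e1, e2]
  exact hφ z T hTT

end AutPair

end FinDim

end Lorentz

end Pool.Agent.Helper58.Circ
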