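import Mathlib
import Pool.Agent.Helper58.CircA

set_option autoImplicit false

namespace Pool.Agent.Helper58.Circ

section Similarity

variable {W : Type*} [NormedAddCommGroup W] [InnerProductSpace ℝ W] [FiniteDimensional ℝ W]

/-- In dimension at least two there is a vector of the same norm orthogonal to a given one. -/
lemma exists_perp (hd : 2 ≤ Module.finrank ℝ W) (b : W) :
    ∃ a : W, inner ℝ a b = 0 ∧ ‖a‖ = ‖b‖ := by
  have h : Module.finrank ℝ ℝ < Module.finrank ℝ W := by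
    rw [Module.finrank_self]; omega
  have hker := LinearMap.ker_ne_bot_of_finrank_lt (f := (innerₛₗ ℝ b : W →ₗ[ℝ] ℝ)) h
  obtain ⟨k, hk, hk0⟩ := (Submodule.ne_bot_iff _).mp hker
  rw [LinearMap.mem_ker, innerₛₗ_apply_apply] at hk
  have hkn : ‖k‖ ≠ 0 := norm_ne_zero_iff.mpr hk0
  refine ⟨(‖b‖ / ‖k‖) • k, ?_, ?_⟩
  · rw [real_inner_smul_left, real_inner_comm, hk, mul_zero]
  · rw [norm_smul, Real.norm_eq_abs, abs_div, abs_norm, abs_norm, div_mul_cancel₀ _ hkn]

omit [FiniteDimensional ℝ W] in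
/-- A closed quadrilateral with four right angles is a parallelogram. -/
lemma rectangle {P Q R S : W} (h1 : inner ℝ (Q - P) (Q - R) = 0) (h2 : inner ℝ (R - Q) (R - S) = 0)
    (h3 : inner ℝ (S - R) (S - P) = 0) (h4 : inner ℝ (P - S) (P - Q) = 0) : Q - P = R - S := by
  have key : inner ℝ ((Q - P) - (R - S)) ((Q - P) - (R - S)) = (0 : ℝ) := by
    have e : (Q - P) - (R - S) = (Q - R) + (S - P) := by abel
    nth_rewrite 2 [e]
    rw [inner_sub_left, inner_add_right, inner_add_right, h1]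
    have a1 : inner ℝ (Q - P) (S - P) = (0 : ℝ) := by
      have : inner ℝ (P - S) (P - Q) = inner ℝ (Q - P) (S - P) := by
        rw [← neg_sub Q P, ← neg_sub S P, inner_neg_neg, real_inner_comm]
      rw [← this, h4]
    have a2 : inner ℝ (R - S) (Q - R) = (0 : ℝ) := by
      have : inner ℝ (R - Q) (R - S) = - inner ℝ (R - S) (Q - R) := by
        rw [← neg_sub Q R, inner_neg_left, real_inner_comm]
      linarith
    have a3 : inner ℝ (R - S) (S - P) = (0 : ℝ) := by
      have : inner ℝ (S - R) (S - P) = - inner ℝ (R - S) (S - P) := by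
        rw [← neg_sub R S, inner_neg_left]
      linarith
    rw [a1, a2, a3]; ring
  exact sub_eq_zero.mp (inner_self_eq_zero.mp key)

/-- A bijection preserving right angles is a similarity. -/
theorem similarity (hd : 2 ≤ Module.finrank ℝ W) {φ : W → W} (hinj : Function.Injective φ)
    (hR : ∀ x y z : W, inner ℝ (z - x) (z - y) = 0 ↔ inner ℝ (φ z - φ x) (φ z - φ y) = 0) :
    ∃ (f : W →ₗ[ℝ] W) (c : ℝ), 0 < c ∧ (∀ a, ‖f a‖ = c * ‖a‖) ∧ ∀ x, φ x = f x + φ 0 := by
  -- differences at `z`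
  have perp : ∀ z a b, inner ℝ a b = (0 : ℝ) →
      inner ℝ (φ (z + a) - φ z) (φ (z + b) - φ z) = (0 : ℝ) := by
    intro z a b hab
    have h1 := (hR (z + a) (z + b) z).mp (by
      have e1 : z - (z + a) = -a := by abel
      have e2 : z - (z + b) = -b := by abel
      rw [e1, e2, inner_neg_neg, hab])
    rw [← neg_sub (φ (z + a)), ← neg_sub (φ (z + b)), inner_neg_neg] at h1
    exact h1
  have rect : ∀ z a b, inner ℝ a b = (0 : ℝ) → φ (z + a) - φ z = φ (z + a + b) - φ (z + b) := by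
    intro z a b hab
    have hba : inner ℝ b a = (0 : ℝ) := by rw [real_inner_comm, hab]
    apply rectangle
    · apply (hR _ _ _).mp
      have e1 : z + a - z = a := by abel
      have e2 : z + a - (z + a + b) = -b := by abel
      rw [e1, e2, inner_neg_right, hab, neg_zero]
    · apply (hR _ _ _).mp
      have e1 : z + a + b - (z + a) = b := by abel
      have e2 : z + a + b - (z + b) = a := by abel
      rw [e1, e2, hba]
    · apply (hR _ _ _).mp
      have e1 : z + b - (z + a + b) = -a := by abel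
      have e2 : z + b - z = b := by abel
      rw [e1, e2, inner_neg_left, hab, neg_zero]
    · apply (hR _ _ _).mp
      have e1 : z - (z + b) = -b := by abel
      have e2 : z - (z + a) = -a := by abel
      rw [e1, e2, inner_neg_neg, hba]
  have addp : ∀ z a b, inner ℝ a b = (0 : ℝ) →
      φ (z + (a + b)) - φ z = (φ (z + a) - φ z) + (φ (z + b) - φ z) := by
    intro z a b hab
    rw [rect z a b hab, ← add_assoc]; abel
  have sq1 : ∀ z a b, inner ℝ a b = (0 : ℝ) → ‖a‖ = ‖b‖ →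
      ‖φ (z + a) - φ z‖ ^ 2 = - inner ℝ (φ (z + b) - φ z) (φ (z + -b) - φ z) := by
    intro z a b hab hn
    have hab' : inner ℝ a (-b) = (0 : ℝ) := by rw [inner_neg_right, hab, neg_zero]
    have hba : inner ℝ b a = (0 : ℝ) := by rw [real_inner_comm, hab]
    have h1 := addp z a b hab
    have h2 := addp z a (-b) hab'
    have h3 : inner ℝ (a + b) (a + -b) = (0 : ℝ) := by
      rw [inner_add_left, inner_add_right, inner_add_right, inner_neg_right, inner_neg_right,
        hab, hba, real_inner_self_eq_norm_sq, real_inner_self_eq_norm_sq, hn]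
      ring
    have h4 := perp z _ _ h3
    rw [h1, h2, inner_add_left, inner_add_right, inner_add_right, perp z a (-b) hab',
      perp z b a hba, real_inner_self_eq_norm_sq] at h4
    linarith
  have mid : ∀ z b, φ (z + -b) - φ z = -(φ (z + b) - φ z) := by
    intro z b
    obtain ⟨a, hab, hn⟩ := exists_perp hd b
    have hba : inner ℝ b a = (0 : ℝ) := by rw [real_inner_comm, hab]
    have h1 := sq1 z a b hab hn
    have h2 := sq1 z b a hba hn.symm
    have h3 := sq1 z (-a) b (by rw [inner_neg_left, hab, neg_zero]) (by rw [norm_neg, hn])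
    have h4 := sq1 z (-b) a (by rw [inner_neg_left, hba, neg_zero]) (by rw [norm_neg, hn])
    set p := φ (z + a) - φ z
    set p' := φ (z + -a) - φ z
    set q := φ (z + b) - φ z
    set q' := φ (z + -b) - φ z
    have cs1 := abs_real_inner_le_norm q q'
    have cs2 := abs_real_inner_le_norm p p'
    have hpp : ‖p‖ = ‖p'‖ := by
      have : ‖p‖ ^ 2 = ‖p'‖ ^ 2 := by rw [h1, h3]
      nlinarith [norm_nonneg p, norm_nonneg p']
    have hqq : ‖q‖ = ‖q'‖ := by
      have : ‖q‖ ^ 2 = ‖q'‖ ^ 2 := by rw [h2, h4]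
      nlinarith [norm_nonneg q, norm_nonneg q']
    have i1 : ‖p‖ ^ 2 ≤ ‖q‖ ^ 2 := by
      rw [h1]
      calc - inner ℝ q q' ≤ |inner ℝ q q'| := neg_le_abs _
        _ ≤ ‖q‖ * ‖q'‖ := cs1
        _ = ‖q‖ ^ 2 := by rw [← hqq]; ring
    have i2 : ‖q‖ ^ 2 ≤ ‖p‖ ^ 2 := by
      rw [h2]
      calc - inner ℝ p p' ≤ |inner ℝ p p'| := neg_le_abs _
        _ ≤ ‖p‖ * ‖p'‖ := cs2
        _ = ‖p‖ ^ 2 := by rw [← hpp]; ring
    have i3 : ‖p‖ ^ 2 = ‖q‖ ^ 2 := le_antisymm i1 i2
    have h5 : ‖q' + q‖ ^ 2 = 0 := by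
      rw [norm_add_sq_real, real_inner_comm, ← hqq]
      linarith
    have h6 : q' + q = 0 := norm_eq_zero.mp (sq_eq_zero_iff.mp h5)
    exact eq_neg_of_add_eq_zero_left h6
  -- additivity
  obtain ⟨g, hg⟩ : ∃ g : W → W, g = fun x => φ x - φ 0 := ⟨_, rfl⟩
  have g0 : g 0 = 0 := by rw [hg]; simp
  have gmid : ∀ z b, g (z + b) + g (z - b) = (2 : ℝ) • g z := by
    intro z b
    have h1 := mid z b
    rw [← sub_eq_add_neg] at h1
    rw [hg]
    show (φ (z + b) - φ 0) + (φ (z - b) - φ 0) = (2 : ℝ) • (φ z - φ 0)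
    have h2 : φ (z - b) = φ z - (φ (z + b) - φ z) := by
      rw [← sub_eq_zero] at h1 ⊢
      rw [← h1]; abel
    rw [h2, two_smul]; abel
  have g2 : ∀ z, g ((2 : ℝ) • z) = (2 : ℝ) • g z := by
    intro z
    have := gmid z z
    rwa [sub_self, g0, add_zero, ← two_smul ℝ z] at this
  have gadd : ∀ x y, g (x + y) = g x + g y := by
    intro x y
    have h1 := gmid ((1 / 2 : ℝ) • (x + y)) ((1 / 2 : ℝ) • (x - y))
    have e1 : (1 / 2 : ℝ) • (x + y) + (1 / 2 : ℝ) • (x - y) = x := by module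
    have e2 : (1 / 2 : ℝ) • (x + y) - (1 / 2 : ℝ) • (x - y) = y := by module
    rw [e1, e2, ← g2, smul_smul] at h1
    norm_num at h1
    exact h1.symm
  have gneg : ∀ x, g (-x) = - g x := by
    intro x
    have := gadd x (-x)
    rw [add_neg_cancel, g0] at this
    exact (neg_eq_of_add_eq_zero_right this.symm).symm
  have gperp : ∀ a b, inner ℝ a b = (0 : ℝ) → inner ℝ (g a) (g b) = (0 : ℝ) := by
    intro a b hab
    have := perp 0 a b hab
    rw [zero_add, zero_add] at this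
    rw [hg]; exact this
  have gnorm : ∀ a b, ‖a‖ = ‖b‖ → ‖g a‖ = ‖g b‖ := by
    intro a b hn
    have h3 : inner ℝ (a + b) (a - b) = (0 : ℝ) := by
      rw [inner_add_left, inner_sub_right, inner_sub_right, real_inner_comm b a,
        real_inner_self_eq_norm_sq, real_inner_self_eq_norm_sq, hn]
      ring
    have h4 := gperp _ _ h3
    rw [gadd, sub_eq_add_neg, gadd, gneg, inner_add_left, inner_add_right, inner_add_right,
      inner_neg_right, inner_neg_right, real_inner_comm (g b) (g a),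
      real_inner_self_eq_norm_sq, real_inner_self_eq_norm_sq] at h4
    have h5 : ‖g a‖ ^ 2 = ‖g b‖ ^ 2 := by linarith
    nlinarith [norm_nonneg (g a), norm_nonneg (g b)]
  -- a unit vector
  have hnt : Nontrivial W := Module.nontrivial_of_finrank_pos (R := ℝ) (by omega)
  obtain ⟨u, hu⟩ : ∃ u : W, ‖u‖ = 1 := exists_norm_eq W zero_le_one
  -- bound on the unit ball
  have gbd : ∀ a, ‖a‖ ≤ 1 → ‖g a‖ ≤ ‖g u‖ := by
    intro a ha
    obtain ⟨b, hab, hbn⟩ := exists_perp hd u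
    obtain ⟨s, hs⟩ : ∃ s, s = Real.sqrt (1 - ‖a‖ ^ 2) := ⟨_, rfl⟩
    have hs2 : s ^ 2 = 1 - ‖a‖ ^ 2 := by
      rw [hs, Real.sq_sqrt]
      nlinarith [norm_nonneg a]
    have hbu : inner ℝ (‖a‖ • u) (s • b) = (0 : ℝ) := by
      rw [real_inner_smul_left, real_inner_smul_right, real_inner_comm, hab]; ring
    have h1 : ‖‖a‖ • u + s • b‖ = 1 := by
      have : ‖‖a‖ • u + s • b‖ ^ 2 = 1 := by
        rw [norm_add_sq_real, hbu, norm_smul, norm_smul, hbn, hu, norm_norm, Real.norm_eq_abs,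
          mul_one, mul_one, sq_abs, hs2]
        ring
      have h0 := norm_nonneg (‖a‖ • u + s • b)
      nlinarith
    have h2 : ‖g u‖ = ‖g (‖a‖ • u + s • b)‖ := gnorm _ _ (by rw [hu, h1])
    have h3 : ‖g u‖ ^ 2 = ‖g (‖a‖ • u)‖ ^ 2 + ‖g (s • b)‖ ^ 2 := by
      rw [h2, gadd, norm_add_sq_real, gperp _ _ hbu]; ring
    have h4 : ‖g (‖a‖ • u)‖ = ‖g a‖ := gnorm _ _ (by rw [norm_smul, norm_norm, hu, mul_one])
    rw [h4] at h3
    have h5 : ‖g a‖ ^ 2 ≤ ‖g u‖ ^ 2 := by nlinarith [sq_nonneg ‖g (s • b)‖]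
    exact abs_le_of_sq_le_sq' h5 (norm_nonneg _) |>.2
  -- continuity
  let G : W →+ W := ⟨⟨g, g0⟩, gadd⟩
  have hG : ∀ x, G x = g x := fun _ => rfl
  have hcont : Continuous G := by
    apply continuous_of_continuousAt_zero G
    rw [Metric.continuousAt_iff]
    intro ε hε
    obtain ⟨n, hn⟩ := exists_nat_gt (‖g u‖ / ε)
    have hn0 : (0 : ℝ) < n := lt_of_le_of_lt (by positivity) hn
    refine ⟨1 / n, by positivity, ?_⟩
    intro x hx
    rw [dist_zero_right] at hx
    rw [map_zero, dist_zero_right, hG]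
    have h1 : ‖n • x‖ ≤ 1 := by
      rw [← Nat.cast_smul_eq_nsmul ℝ, norm_smul, Real.norm_eq_abs, abs_of_pos hn0]
      have := mul_lt_mul_of_pos_left hx hn0
      rw [mul_one_div_cancel hn0.ne'] at this
      exact this.le
    have h2 := gbd _ h1
    rw [← hG, map_nsmul, hG, ← Nat.cast_smul_eq_nsmul ℝ, norm_smul, Real.norm_eq_abs,
      abs_of_pos hn0] at h2
    have h3 : ‖g u‖ < n * ε := by rwa [div_lt_iff₀ hε] at hn
    have h4 : (n : ℝ) * ‖g x‖ < n * ε := lt_of_le_of_lt h2 h3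
    exact lt_of_mul_lt_mul_left h4 hn0.le
  let F := AddMonoidHom.toRealLinearMap G hcont
  have hF : ∀ x, F x = g x := fun _ => rfl
  refine ⟨F, ‖g u‖, ?_, ?_, ?_⟩
  · rw [norm_pos_iff]
    intro h0
    have : φ u = φ 0 := by rw [hg] at h0; exact sub_eq_zero.mp h0
    have := hinj this
    rw [this, norm_zero] at hu
    exact zero_ne_one hu
  · intro a
    show ‖g a‖ = _
    have h1 : ‖g a‖ = ‖g (‖a‖ • u)‖ := gnorm _ _ (by rw [norm_smul, norm_norm, hu, mul_one])
    rw [h1, ← hF, map_smul, norm_smul, norm_norm, hF]; ring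
  · intro x
    show φ x = g x + φ 0
    rw [hg]; simp

end Similarity

section Linear

variable {W : Type*} [NormedAddCommGroup W] [InnerProductSpace ℝ W]

/-- The linear extension of a similarity. -/
noncomputable def ext (f : W →ₗ[ℝ] W) (c : ℝ) (x₀ : W) : (W × ℝ × ℝ) →ₗ[ℝ] (W × ℝ × ℝ) where
  toFun v := (c⁻¹ • (f v.1 + v.2.2 • x₀),
    c * v.2.1 + c⁻¹ * (inner ℝ x₀ (f v.1) + v.2.2 * (‖x₀‖ ^ 2 / 2)), c⁻¹ * v.2.2)
  map_add' p q := by
    ext1
    · simp only [Prod.fst_add, Prod.snd_add, map_add]; module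
    · ext1
      · simp only [Prod.fst_add, Prod.snd_add, map_add, inner_add_right]; ring
      · simp only [Prod.snd_add]; ring
  map_smul' t p := by
    ext1
    · simp only [Prod.smul_fst, Prod.smul_snd, map_smul, smul_eq_mul, RingHom.id_apply]; module
    · ext1
      · simp only [Prod.smul_fst, Prod.smul_snd, map_smul, smul_eq_mul, RingHom.id_apply,
          real_inner_smul_right]; ring
      · simp only [Prod.smul_snd, smul_eq_mul, RingHom.id_apply]; ring

lemma ext_apply (f : W →ₗ[ℝ] W) (c : ℝ) (x₀ : W) (v : W × ℝ × ℝ) :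
    ext f c x₀ v = (c⁻¹ • (f v.1 + v.2.2 • x₀),
    c * v.2.1 + c⁻¹ * (inner ℝ x₀ (f v.1) + v.2.2 * (‖x₀‖ ^ 2 / 2)), c⁻¹ * v.2.2) := rfl

lemma inner_of_norm {f : W →ₗ[ℝ] W} {c : ℝ} (hf : ∀ a, ‖f a‖ = c * ‖a‖) (a b : W) :
    inner ℝ (f a) (f b) = c ^ 2 * inner ℝ a b := by
  have h1 := norm_add_sq_real (f a) (f b)
  have h2 := norm_add_sq_real a b
  rw [← map_add, hf, hf, hf, mul_pow, h2] at h1
  linarith

lemma B_ext {f : W →ₗ[ℝ] W} {c : ℝ} (hc : 0 < c) (hf : ∀ a, ‖f a‖ = c * ‖a‖) (x₀ : W)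
    (v v' : W × ℝ × ℝ) : B (ext f c x₀ v) (ext f c x₀ v') = B v v' := by
  obtain ⟨w, a, b⟩ := v
  obtain ⟨w', a', b'⟩ := v'
  simp only [ext_apply, B, real_inner_smul_left, real_inner_smul_right, inner_add_left,
    inner_add_right, inner_of_norm hf, real_inner_self_eq_norm_sq]
  rw [real_inner_comm x₀ (f w)]
  field_simp
  ring

lemma ext_nx {f : W →ₗ[ℝ] W} {c : ℝ} (hc : 0 < c) (hf : ∀ a, ‖f a‖ = c * ‖a‖) (x₀ x : W) :
    ext f c x₀ (nx x) = c⁻¹ • nx (f x + x₀) := by
  rw [ext_apply]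
  ext1
  · simp only [nx, Prod.smul_fst, one_smul]
  · ext1
    · simp only [nx, Prod.smul_fst, Prod.smul_snd, smul_eq_mul, one_mul]
      rw [norm_add_sq_real, hf, real_inner_comm x₀ (f x)]
      field_simp
      ring
    · simp only [nx, Prod.smul_snd, smul_eq_mul]

lemma ext_ee (f : W →ₗ[ℝ] W) (c : ℝ) (x₀ : W) : ext f c x₀ ee = c • ee := by
  rw [ext_apply]
  simp [ee]

variable [FiniteDimensional ℝ W] {γ γ' : W × ℝ × ℝ → W × ℝ × ℝ}

lemma AutPair.linear_of_pt (h : AutPair γ γ') (hd : 2 ≤ Module.finrank ℝ W)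
    (he : AutPair.Pt γ ee ee) : ∃ M : (W × ℝ × ℝ) →ₗ[ℝ] (W × ℝ × ℝ),
      (∀ v v', B (M v) (M v') = B v v') ∧ ∀ v, B v v = 1 → Eqv (γ v) (M v) := by
  obtain ⟨φ, hφ⟩ := h.exists_phi hd he
  obtain ⟨φ', hφ'⟩ := h.symm.exists_phi hd (h.pt_symm he)
  have h1 : ∀ x, φ' (φ x) = x := h.phi_inverse hd hφ hφ'
  have h2 : ∀ x, φ (φ' x) = x := h.symm.phi_inverse hd hφ' hφ
  have hinj : Function.Injective φ := Function.LeftInverse.injective h1
  obtain ⟨f, c, hc, hf, hfx⟩ := similarity hd hinj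
    (fun x y z => h.right_angle hd he hφ hinj x y z)
  refine ⟨ext f c (φ 0), B_ext hc hf (φ 0), ?_⟩
  intro v hv
  have hu : B (ext f c (φ 0) v) (ext f c (φ 0) v) = 1 := by rw [B_ext hc hf, hv]
  refine eq_of_zero_set hd hu (h.unit v hv) ?_
  intro n hn hnv
  rcases null_cases hn with ⟨t, ht⟩ | ⟨t, y, ht0, ht⟩
  · rw [ht, B_smul_left] at hnv ⊢
    rcases mul_eq_zero.mp hnv with h3 | h3
    · rw [h3, zero_mul]
    · have h4 : B ee v = 0 := by
        have h5 : B (ext f c (φ 0) ee) (ext f c (φ 0) v) = 0 := by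
          rw [ext_ee, B_smul_left, h3, mul_zero]
        rwa [B_ext hc hf] at h5
      rw [B_comm] at h4
      rw [B_comm ee, (he v hv).mp h4, mul_zero]
  · obtain ⟨x, hx⟩ : ∃ x, φ x = y := ⟨φ' y, h2 y⟩
    rw [ht, B_smul_left] at hnv ⊢
    have h3 := (mul_eq_zero.mp hnv).resolve_left ht0
    have h4 : B (nx x) v = 0 := by
      have h5 : B (ext f c (φ 0) (nx x)) (ext f c (φ 0) v) = 0 := by
        rw [ext_nx hc hf, ← hfx, hx, B_smul_left, h3, mul_zero]
      rwa [B_ext hc hf] at h5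
    rw [B_comm] at h4
    rw [B_comm (nx y), ← hx, (hφ x v hv).mp h4, mul_zero]

/-- Reflections as linear maps. -/
noncomputable def reflL (a : W × ℝ × ℝ) : (W × ℝ × ℝ) →ₗ[ℝ] (W × ℝ × ℝ) where
  toFun x := refl a x
  map_add' p q := by
    unfold refl
    rw [B_add_left, mul_add, add_div]; module
  map_smul' t p := by
    unfold refl
    rw [B_smul_left, RingHom.id_apply]
    have : 2 * (t * B p a) / B a a = t * (2 * B p a / B a a) := by ring
    rw [this]; module

/-- The fundamental theorem: maps of unit vectors preserving the relation `|B| ≤ 1` come from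
linear maps. -/
theorem AutPair.exists_linear (h : AutPair γ γ') (hd : 2 ≤ Module.finrank ℝ W) :
    ∃ M : (W × ℝ × ℝ) →ₗ[ℝ] (W × ℝ × ℝ), ∀ v, B v v = 1 → Eqv (γ v) (M v) := by
  rcases h.exists_refl hd with he | ⟨a, ha, he⟩
  · obtain ⟨M, _, hM⟩ := h.linear_of_pt hd he
    exact ⟨M, hM⟩
  · obtain ⟨M, _, hM⟩ := (h.comp_refl ha).linear_of_pt hd he
    refine ⟨(reflL a).comp M, fun v hv => ?_⟩
    have h1 := refl_eqv (a := a) (hM v hv)
    rw [refl_refl ha] at h1
    exact h1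

end Linear

end Pool.Agent.Helper58.Circ
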