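import Mathlib

set_option autoImplicit false

namespace Pool.Agent.Helper58.Circ

/-! ### Linear groups contain no independent sequences of non-commuting pairs -/

/-- In a group with a faithful finite-dimensional real representation there are no sequences
`α, β` with `α i, β j` commuting exactly when `i ≠ j`. -/
theorem no_seq {G V : Type*} [Group G] [AddCommGroup V] [Module ℝ V] [FiniteDimensional ℝ V]
    (ρ : G →* Module.End ℝ V) (hρ : Function.Injective ρ) (α β : ℕ → G)
    (h1 : ∀ i j, i ≠ j → α i * β j = β j * α i) (h2 : ∀ i, α i * β i ≠ β i * α i) : False := by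
  have hli : LinearIndependent ℝ (fun i : ℕ => ρ (α i)) := by
    rw [linearIndependent_iff']
    intro s c hc j hj
    have e1 : (∑ i ∈ s, c i • ρ (α i)) * ρ (β j) - ρ (β j) * (∑ i ∈ s, c i • ρ (α i)) = 0 := by
      rw [hc, zero_mul, mul_zero, sub_zero]
    rw [Finset.sum_mul, Finset.mul_sum, ← Finset.sum_sub_distrib] at e1
    have e2 : ∀ i ∈ s, i ≠ j → c i • ρ (α i) * ρ (β j) - ρ (β j) * (c i • ρ (α i)) = 0 := by
      intro i _ hij
      rw [smul_mul_assoc, mul_smul_comm, ← map_mul, ← map_mul, h1 i j hij, sub_self]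
    rw [Finset.sum_eq_single_of_mem j hj e2, smul_mul_assoc, mul_smul_comm, ← smul_sub] at e1
    rcases smul_eq_zero.mp e1 with e3 | e3
    · exact e3
    · exfalso
      apply h2 j
      apply hρ
      rw [map_mul, map_mul]
      exact sub_eq_zero.mp e3
  have := hli.finite
  exact not_finite ℕ

/-! ### Such sequences exist among the homeomorphisms of the sphere -/

/-- A bump function supported in `(i, i + 1)`. -/
noncomputable def bump (i : ℕ) (x : ℝ) : ℝ := max 0 (1 / 2 - |x - (i + 1 / 2)|)

lemma bump_cont (i : ℕ) : Continuous (bump i) := by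
  unfold bump; fun_prop

lemma bump_mid (i : ℕ) : bump i (i + 1 / 2) = 1 / 2 := by
  unfold bump; norm_num

lemma bump_disj {i j : ℕ} (hij : i ≠ j) (x : ℝ) : bump i x = 0 ∨ bump j x = 0 := by
  unfold bump
  by_contra hcon
  push Not at hcon
  obtain ⟨hi, hj⟩ := hcon
  have h1 : |x - (i + 1 / 2)| < 1 / 2 := by
    by_contra h
    apply hi
    push Not at h
    exact max_eq_left (by linarith)
  have h2 : |x - (j + 1 / 2)| < 1 / 2 := by
    by_contra h
    apply hj
    push Not at h
    exact max_eq_left (by linarith)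
  rw [abs_lt] at h1 h2
  have h3 : (i : ℝ) < j + 1 := by linarith
  have h4 : (j : ℝ) < i + 1 := by linarith
  have h5 : i < j + 1 := by exact_mod_cast h3
  have h6 : j < i + 1 := by exact_mod_cast h4
  omega

variable {k : ℕ}

/-- The model of Euclidean space of dimension `k + 2`. -/
abbrev V (k : ℕ) := ℝ × ℝ × (Fin k → ℝ)

/-- The shears. -/
noncomputable def shear (k i : ℕ) : V k ≃ₜ V k where
  toFun p := (p.1, p.2.1 + bump i p.1, p.2.2)
  invFun p := (p.1, p.2.1 - bump i p.1, p.2.2)
  left_inv p := by simp
  right_inv p := by simp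
  continuous_toFun := by
    have := bump_cont i
    fun_prop
  continuous_invFun := by
    have := bump_cont i
    fun_prop

/-- The dilations. -/
noncomputable def dil (k i : ℕ) : V k ≃ₜ V k where
  toFun p := (p.1, Real.exp (bump i p.1) * p.2.1, p.2.2)
  invFun p := (p.1, Real.exp (-bump i p.1) * p.2.1, p.2.2)
  left_inv p := by
    simp only [← mul_assoc, ← Real.exp_add]
    simp
  right_inv p := by
    simp only [← mul_assoc, ← Real.exp_add]
    simp
  continuous_toFun := by
    have := bump_cont i
    fun_prop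
  continuous_invFun := by
    have := bump_cont i
    fun_prop

lemma shear_apply (i : ℕ) (p : V k) : shear k i p = (p.1, p.2.1 + bump i p.1, p.2.2) := rfl

lemma dil_apply (i : ℕ) (p : V k) : dil k i p = (p.1, Real.exp (bump i p.1) * p.2.1, p.2.2) := rfl

lemma shear_dil {i j : ℕ} (hij : i ≠ j) (p : V k) :
    shear k i (dil k j p) = dil k j (shear k i p) := by
  rw [shear_apply, dil_apply, dil_apply, shear_apply]
  rcases bump_disj hij p.1 with h | h
  · simp [h]
  · simp [h]

lemma shear_dil_ne (i : ℕ) :
    shear k i (dil k i (i + 1 / 2, 0, 0)) ≠ dil k i (shear k i (i + 1 / 2, 0, 0)) := by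
  intro h
  rw [shear_apply, dil_apply, dil_apply, shear_apply] at h
  have h2 := congrArg (fun q : V k => q.2.1) h
  simp only [bump_mid, mul_zero, zero_add] at h2
  have h3 := Real.add_one_lt_exp (x := 1 / 2) (by norm_num)
  linarith

/-- The homeomorphism of the sphere extending a homeomorphism of Euclidean space. -/
noncomputable def onS {S V : Type*} [TopologicalSpace S] [TopologicalSpace V]
    (e : OnePoint V ≃ₜ S) (h : V ≃ₜ V) : S ≃ₜ S :=
  e.symm.trans (h.onePointCongr.trans e)

lemma onS_apply {S V : Type*} [TopologicalSpace S] [TopologicalSpace V]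
    (e : OnePoint V ≃ₜ S) (h : V ≃ₜ V) (x : S) : onS e h x = e (OnePoint.map h (e.symm x)) := rfl

lemma onS_comm {S V : Type*} [TopologicalSpace S] [TopologicalSpace V]
    (e : OnePoint V ≃ₜ S) {a b : V ≃ₜ V} (h : ∀ x, a (b x) = b (a x)) :
    onS e a * onS e b = onS e b * onS e a := by
  apply Homeomorph.ext
  intro x
  rw [Homeomorph.mul_apply, Homeomorph.mul_apply, onS_apply, onS_apply, onS_apply, onS_apply,
    e.symm_apply_apply, e.symm_apply_apply]
  congr 1
  induction e.symm x using OnePoint.rec with
  | infty => rfl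
  | coe v => simp [h v]

lemma onS_ne {S V : Type*} [TopologicalSpace S] [TopologicalSpace V]
    (e : OnePoint V ≃ₜ S) {a b : V ≃ₜ V} (v : V) (h : a (b v) ≠ b (a v)) :
    onS e a * onS e b ≠ onS e b * onS e a := by
  intro hcon
  apply h
  have h1 := congrArg (fun f : S ≃ₜ S => f (e (v : OnePoint V))) hcon
  simp only [Homeomorph.mul_apply, onS_apply, e.symm_apply_apply, OnePoint.map_some] at h1
  exact OnePoint.coe_injective (e.injective h1)

/-- The sequences of homeomorphisms of the sphere of dimension at least two. -/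
theorem exists_seq {d : ℕ} (hd : 2 ≤ d) :
    ∃ α β : ℕ → (Metric.sphere (0 : EuclideanSpace ℝ (Fin (d + 1))) 1 ≃ₜ
        Metric.sphere (0 : EuclideanSpace ℝ (Fin (d + 1))) 1),
      (∀ i j, i ≠ j → α i * β j = β j * α i) ∧ ∀ i, α i * β i ≠ β i * α i := by
  obtain ⟨k, rfl⟩ : ∃ k, d = k + 2 := ⟨d - 2, by omega⟩
  have hfin : Module.finrank ℝ (V k) + 1 = Fintype.card (Fin (k + 2 + 1)) := by
    rw [Fintype.card_fin, Module.finrank_prod, Module.finrank_prod, Module.finrank_self,
      Module.finrank_fin_fun]
    omega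
  let e := onePointEquivSphereOfFinrankEq (V := V k) hfin
  exact ⟨fun i => onS e (shear k i), fun i => onS e (dil k i),
    fun i j hij => onS_comm e (fun x => shear_dil hij x),
    fun i => onS_ne e _ (shear_dil_ne i)⟩

end Pool.Agent.Helper58.Circ
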