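import Mathlib

set_option autoImplicit false

namespace Pool.Agent.Helper58.SphereGraph

/-- Euclidean space of dimension `d + 1`. -/
abbrev E (d : ℕ) : Type := EuclideanSpace ℝ (Fin (d + 1))

/-- The unit sphere of dimension `d`. -/
def sph (d : ℕ) : Set (E d) := {x : E d | ‖x‖ = 1}

/-- A set is a disc of the closed unit ball of `E d` if it is the intersection of the closed unit
ball with an affine hyperplane `{x | ⟪u, x⟫ = t}`, `u ≠ 0`, which meets the open unit ball. -/
def IsDisc (d : ℕ) (s : Set (E d)) : Prop :=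
  ∃ (u : E d) (t : ℝ), u ≠ 0 ∧ (∃ x : E d, ‖x‖ < 1 ∧ inner ℝ u x = t) ∧
    s = {x : E d | ‖x‖ ≤ 1 ∧ inner ℝ u x = t}

/-- The vertices of the `d`-sphere graph. -/
def Disc (d : ℕ) : Type := {s : Set (E d) // IsDisc d s}

/-- The `d`-sphere graph: the intersection graph of the discs. -/
def sphereGraph (d : ℕ) : SimpleGraph (Disc d) where
  Adj s t := s ≠ t ∧ (s.1 ∩ t.1).Nonempty
  symm := ⟨fun _ _ h => ⟨h.1.symm, by rw [Set.inter_comm]; exact h.2⟩⟩
  loopless := ⟨fun _ h => h.1 rfl⟩

end Pool.Agent.Helper58.SphereGraph
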