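import Mathlib
import Pool.Agent.Helper58.SphereGraphDefs
import Pool.Agent.Helper58.CircA
import Pool.Agent.Helper58.CircB
import Pool.Agent.Helper58.CircC

set_option autoImplicit false

namespace Pool.Agent.Helper58.SphereGraph

open Pool.Agent.Helper58.Circ

/-! ### Discs as unit vectors -/

section Discs

variable {d : ℕ}

/-- The Euclidean space `W` of the Lorentz model. -/
abbrev Wd (d : ℕ) : Type := EuclideanSpace ℝ (Fin d)

/-- The normal vector of a hyperplane. -/
noncomputable def toU (v : Wd d × ℝ × ℝ) : E d :=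
  WithLp.toLp 2 (Fin.cons (v.2.1 - v.2.2 / 2) (fun i => v.1 i))

/-- The right-hand side of the equation of a hyperplane. -/
noncomputable def toT (v : Wd d × ℝ × ℝ) : ℝ := v.2.1 + v.2.2 / 2

/-- The vector of a hyperplane. -/
noncomputable def ofUT (u : E d) (t : ℝ) : Wd d × ℝ × ℝ :=
  (WithLp.toLp 2 (fun i : Fin d => u i.succ), (u 0 + t) / 2, t - u 0)

lemma inner_succ (u u' : E d) : inner ℝ u u' = u 0 * u' 0 + ∑ i : Fin d, u i.succ * u' i.succ := by
  rw [PiLp.inner_apply, Fin.sum_univ_succ]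
  simp only [RCLike.inner_apply, conj_trivial]
  rw [mul_comm (u' 0)]
  congr 1
  exact Finset.sum_congr rfl fun i _ => mul_comm _ _

lemma B_eq (v v' : Wd d × ℝ × ℝ) : B v v' = inner ℝ (toU v) (toU v') - toT v * toT v' := by
  rw [inner_succ]
  simp only [B, toU, toT, PiLp.inner_apply, Fin.cons_zero, Fin.cons_succ, RCLike.inner_apply,
    conj_trivial]
  have : ∑ i : Fin d, v'.1 i * v.1 i = ∑ i : Fin d, v.1 i * v'.1 i :=
    Finset.sum_congr rfl fun i _ => mul_comm _ _
  rw [this]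
  ring

lemma toU_ofUT (u : E d) (t : ℝ) : toU (ofUT u t) = u := by
  ext i
  refine Fin.cases ?_ (fun j => ?_) i
  · simp only [toU, ofUT, Fin.cons_zero]; ring
  · simp only [toU, ofUT, Fin.cons_succ]

lemma toT_ofUT (u : E d) (t : ℝ) : toT (ofUT u t) = t := by
  simp only [toT, ofUT]; ring

lemma toU_smul (c : ℝ) (v : Wd d × ℝ × ℝ) : toU (c • v) = c • toU v := by
  ext i
  refine Fin.cases ?_ (fun j => ?_) i
  · simp only [toU, Prod.smul_fst, Prod.smul_snd, PiLp.smul_apply, Fin.cons_zero, smul_eq_mul]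
    ring
  · simp only [toU, Prod.smul_fst, Prod.smul_snd, PiLp.smul_apply, Fin.cons_succ, smul_eq_mul]

lemma toT_smul (c : ℝ) (v : Wd d × ℝ × ℝ) : toT (c • v) = c * toT v := by
  simp only [toT, Prod.smul_snd, Prod.smul_fst, smul_eq_mul]; ring

/-- The disc of a vector. -/
def sec (v : Wd d × ℝ × ℝ) : Set (E d) := {x : E d | ‖x‖ ≤ 1 ∧ inner ℝ (toU v) x = toT v}

lemma mem_sec (v : Wd d × ℝ × ℝ) (x : E d) :
    x ∈ sec v ↔ ‖x‖ ≤ 1 ∧ B v (ofUT x 1) = 0 := by
  rw [B_eq, toU_ofUT, toT_ofUT, mul_one, sub_eq_zero]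
  rfl

lemma B_pt (x : E d) : B (ofUT x 1) (ofUT x 1) = ‖x‖ ^ 2 - 1 := by
  rw [B_eq, toU_ofUT, toT_ofUT, real_inner_self_eq_norm_sq]; ring

lemma B_norm (v : Wd d × ℝ × ℝ) : B v v = ‖toU v‖ ^ 2 - toT v ^ 2 := by
  rw [B_eq, real_inner_self_eq_norm_sq]; ring

/-- A nonzero vector of nonpositive square is a multiple of a point of the closed ball. -/
lemma exists_pt_ball {n : Wd d × ℝ × ℝ} (hn0 : n ≠ 0) (hn : B n n ≤ 0) :
    ∃ (c : ℝ) (x : E d), c ≠ 0 ∧ ‖x‖ ≤ 1 ∧ n = c • ofUT x 1 := by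
  have hT : toT n ≠ 0 := by
    intro h0
    apply hn0
    rw [B_norm, h0] at hn
    have h1 : ‖toU n‖ = 0 := by nlinarith [norm_nonneg (toU n)]
    have h2 : toU n = 0 := norm_eq_zero.mp h1
    apply B_nondeg
    intro y
    rw [B_eq, h2, h0]; simp
  refine ⟨toT n, (toT n)⁻¹ • toU n, hT, ?_, ?_⟩
  · rw [norm_smul, norm_inv, Real.norm_eq_abs, inv_mul_le_one₀ (abs_pos.mpr hT)]
    rw [B_norm] at hn
    have h1 : ‖toU n‖ ^ 2 ≤ |toT n| ^ 2 := by rw [sq_abs]; linarith
    exact abs_le_of_sq_le_sq' h1 (abs_nonneg _) |>.2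
  · rw [← sub_eq_zero]
    apply B_nondeg
    intro y
    rw [B_sub_left, B_smul_left, B_eq, B_eq, toU_ofUT, toT_ofUT, real_inner_smul_left]
    field_simp
    ring

lemma isDisc_sec {v : Wd d × ℝ × ℝ} (hv : B v v = 1) : IsDisc d (sec v) := by
  rw [B_norm] at hv
  have h0 : toU v ≠ 0 := by
    intro h
    rw [h, norm_zero] at hv
    nlinarith [sq_nonneg (toT v)]
  have h1 : 0 < ‖toU v‖ := norm_pos_iff.mpr h0
  refine ⟨toU v, toT v, h0, ⟨(toT v / ‖toU v‖ ^ 2) • toU v, ?_, ?_⟩, rfl⟩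
  · rw [norm_smul, Real.norm_eq_abs, abs_div, abs_of_pos (by positivity : 0 < ‖toU v‖ ^ 2)]
    have h2 : |toT v| < ‖toU v‖ := by
      rw [← sq_lt_sq₀ (abs_nonneg _) h1.le, sq_abs]; linarith
    rw [div_mul_eq_mul_div, div_lt_one (by positivity)]
    nlinarith
  · rw [real_inner_smul_right, real_inner_self_eq_norm_sq]
    field_simp

lemma exists_unit {s : Set (E d)} (hs : IsDisc d s) : ∃ v : Wd d × ℝ × ℝ, B v v = 1 ∧ sec v = s := by
  obtain ⟨u, t, hu, ⟨x, hx, hxt⟩, rfl⟩ := hs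
  obtain ⟨v₀, hv₀⟩ : ∃ v₀ : Wd d × ℝ × ℝ, v₀ = ofUT u t := ⟨_, rfl⟩
  have hU : toU v₀ = u := by rw [hv₀, toU_ofUT]
  have hT : toT v₀ = t := by rw [hv₀, toT_ofUT]
  have hup : 0 < ‖u‖ := norm_pos_iff.mpr hu
  have hpos : 0 < B v₀ v₀ := by
    rw [B_norm, hU, hT]
    have h1 : |t| ≤ ‖u‖ * ‖x‖ := hxt ▸ abs_real_inner_le_norm u x
    have h2 : ‖u‖ * ‖x‖ < ‖u‖ := by nlinarith
    have h3 : |t| ^ 2 < ‖u‖ ^ 2 := by
      rw [sq_lt_sq₀ (abs_nonneg _) hup.le]; linarith
    rw [sq_abs] at h3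
    linarith
  obtain ⟨c, hc⟩ : ∃ c, c = Real.sqrt (B v₀ v₀) := ⟨_, rfl⟩
  have hc0 : 0 < c := by rw [hc]; exact Real.sqrt_pos.mpr hpos
  have hcc : c * c = B v₀ v₀ := by rw [hc]; exact Real.mul_self_sqrt hpos.le
  refine ⟨c⁻¹ • v₀, ?_, ?_⟩
  · rw [B_smul_left, B_smul_right, ← hcc]
    field_simp
  · ext y
    simp only [sec, Set.mem_ofPred_eq, toU_smul, toT_smul, hU, hT, real_inner_smul_left]
    have : c⁻¹ ≠ 0 := inv_ne_zero hc0.ne'
    rw [mul_right_inj' this]

lemma sec_eqv {v v' : Wd d × ℝ × ℝ} (h : Eqv v v') : sec v = sec v' := by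
  ext x
  rw [mem_sec, mem_sec, h.zero_left]

lemma eqv_of_sec (hd : 2 ≤ d) {v v' : Wd d × ℝ × ℝ} (hv : B v v = 1) (hv' : B v' v' = 1)
    (h : sec v = sec v') : Eqv v' v := by
  have hd' : 2 ≤ Module.finrank ℝ (Wd d) := by rw [finrank_euclideanSpace, Fintype.card_fin]; exact hd
  refine eq_of_zero_set hd' hv hv' ?_
  intro n hn hnv
  by_cases hn0 : n = 0
  · rw [hn0, B_zero_left]
  obtain ⟨c, x, hc, hx, hnx⟩ := exists_pt_ball hn0 hn.le
  rw [hnx, B_smul_left] at hnv ⊢
  have h1 := (mul_eq_zero.mp hnv).resolve_left hc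
  rw [B_comm] at h1
  have h2 : x ∈ sec v := (mem_sec v x).mpr ⟨hx, h1⟩
  rw [h, mem_sec] at h2
  rw [B_comm (ofUT x 1), h2.2, mul_zero]

/-- Two discs meet if and only if the scalar product of the unit vectors is at most one. -/
lemma sec_inter {v v' : Wd d × ℝ × ℝ} (hv : B v v = 1) (hv' : B v' v' = 1) :
    (sec v ∩ sec v').Nonempty ↔ |B v v'| ≤ 1 := by
  constructor
  · rintro ⟨x, hx1, hx2⟩
    rw [mem_sec] at hx1 hx2
    obtain ⟨n, hn⟩ : ∃ n : Wd d × ℝ × ℝ, n = ofUT x 1 := ⟨_, rfl⟩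
    rw [← hn] at hx1 hx2
    have hnn : B n n ≤ 0 := by
      rw [hn, B_pt]
      nlinarith [norm_nonneg x, hx1.1]
    have hn0 : n ≠ 0 := by
      rintro rfl
      have h1 : toT (0 : Wd d × ℝ × ℝ) = 1 := by rw [hn, toT_ofUT]
      simp [toT] at h1
    rcases lt_or_eq_of_le hnn with h | h
    · have h1 := (orth_timelike h (k := v + v') (by rw [B_add_left, hx1.2, hx2.2, add_zero])).1
      have h2 := (orth_timelike h (k := v - v') (by rw [B_sub_left, hx1.2, hx2.2, sub_zero])).1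
      rw [B_add_left, B_add_right, B_add_right, hv, hv', B_comm v' v] at h1
      rw [B_sub_left, B_sub_right, B_sub_right, hv, hv', B_comm v' v] at h2
      rw [abs_le]
      constructor <;> linarith
    · exact cs_null hn0 h hv hv' hx1.2 hx2.2
  · intro hle
    -- a nonzero vector of nonpositive square orthogonal to both
    have key : ∃ n : Wd d × ℝ × ℝ, n ≠ 0 ∧ B n n ≤ 0 ∧ B n v = 0 ∧ B n v' = 0 := by
      obtain ⟨b, hb⟩ : ∃ b, b = B v v' := ⟨_, rfl⟩
      rw [← hb] at hle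
      have hb' : B v' v = b := by rw [B_comm, hb]
      rcases lt_or_eq_of_le hle with h | h
      · -- projection of `tau`
        have hD : 0 < 1 - b ^ 2 := by
          have := (sq_lt_one_iff_abs_lt_one b).mpr h
          linarith
        obtain ⟨s, hs⟩ : ∃ s : ℝ, s = B (tau : Wd d × ℝ × ℝ) v := ⟨_, rfl⟩
        obtain ⟨s', hs'⟩ : ∃ s' : ℝ, s' = B (tau : Wd d × ℝ × ℝ) v' := ⟨_, rfl⟩
        obtain ⟨p, hp⟩ : ∃ p, p = (s - b * s') / (1 - b ^ 2) := ⟨_, rfl⟩
        obtain ⟨q, hq⟩ : ∃ q, q = (s' - b * s) / (1 - b ^ 2) := ⟨_, rfl⟩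
        have e1 : p + q * b = s := by rw [hp, hq]; field_simp; ring
        have e2 : p * b + q = s' := by rw [hp, hq]; field_simp; ring
        obtain ⟨z, hz⟩ : ∃ z : Wd d × ℝ × ℝ, z = tau - p • v - q • v' := ⟨_, rfl⟩
        have hzv : B z v = 0 := by
          rw [hz, B_sub_left, B_sub_left, B_smul_left, B_smul_left, hv, hb', ← hs]
          linarith
        have hzv' : B z v' = 0 := by
          rw [hz, B_sub_left, B_sub_left, B_smul_left, B_smul_left, hv', ← hb, ← hs']
          linarith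
        have hzz : B z z < 0 := by
          have h1 : B z z = B z tau := by
            nth_rewrite 2 [hz]
            rw [B_sub_right, B_sub_right, B_smul_right, B_smul_right, hzv, hzv']
            ring
          have h2 : B z tau = -1 - p * s - q * s' := by
            rw [hz, B_sub_left, B_sub_left, B_smul_left, B_smul_left, B_tau, B_comm v, B_comm v',
              ← hs, ← hs']
          have h3 : p * s + q * s' = p ^ 2 + 2 * p * q * b + q ^ 2 := by
            rw [← e1, ← e2]; ring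
          have h4 : 0 ≤ p ^ 2 + 2 * p * q * b + q ^ 2 := by
            nlinarith [sq_nonneg (p + q * b), sq_nonneg q]
          rw [h1, h2]
          linarith
        exact ⟨z, timelike_ne_zero hzz, hzz.le, hzv, hzv'⟩
      · have hbb : b ^ 2 = 1 := by rw [← sq_abs, h, one_pow]
        by_cases hvv : v' = b • v
        · obtain ⟨z, hz⟩ : ∃ z : Wd d × ℝ × ℝ, z = tau - (B (tau : Wd d × ℝ × ℝ) v) • v := ⟨_, rfl⟩
          have hzv : B z v = 0 := by rw [hz, B_sub_left, B_smul_left, hv]; ring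
          have hzz : B z z < 0 := by
            have h1 : B z z = B z tau := by
              nth_rewrite 2 [hz]
              rw [B_sub_right, B_smul_right, hzv]
              ring
            rw [h1, hz, B_sub_left, B_smul_left, B_tau, B_comm v]
            nlinarith [sq_nonneg (B (tau : Wd d × ℝ × ℝ) v)]
          exact ⟨z, timelike_ne_zero hzz, hzz.le, hzv, by rw [hvv, B_smul_right, hzv, mul_zero]⟩
        · refine ⟨v' - b • v, sub_ne_zero.mpr hvv, ?_, ?_, ?_⟩
          · rw [B_sub_left, B_sub_right, B_sub_right, B_smul_left, B_smul_left, B_smul_right,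
              B_smul_right, hv, hv', hb', ← hb]
            nlinarith
          · rw [B_sub_left, B_smul_left, hv, hb']; ring
          · rw [B_sub_left, B_smul_left, hv', ← hb]; nlinarith
    obtain ⟨n, hn0, hn, hnv, hnv'⟩ := key
    obtain ⟨c, x, hc, hx, hnx⟩ := exists_pt_ball hn0 hn
    refine ⟨x, ?_, ?_⟩
    · rw [mem_sec]
      rw [hnx, B_smul_left, mul_eq_zero] at hnv
      exact ⟨hx, by rw [B_comm]; exact hnv.resolve_left hc⟩
    · rw [mem_sec]
      rw [hnx, B_smul_left, mul_eq_zero] at hnv'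
      exact ⟨hx, by rw [B_comm]; exact hnv'.resolve_left hc⟩

/-! ### Automorphisms of the graph as maps of unit vectors -/

/-- The disc of a unit vector. -/
noncomputable def vert (v : Wd d × ℝ × ℝ) (hv : B v v = 1) : Disc d := ⟨sec v, isDisc_sec hv⟩

/-- A unit vector of a disc. -/
noncomputable def rep (s : Disc d) : Wd d × ℝ × ℝ := (exists_unit s.2).choose

lemma rep_unit (s : Disc d) : B (rep s) (rep s) = 1 := (exists_unit s.2).choose_spec.1

lemma sec_rep (s : Disc d) : sec (rep s) = s.1 := (exists_unit s.2).choose_spec.2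

lemma meet_iff (s t : Disc d) : (s.1 ∩ t.1).Nonempty ↔ |B (rep s) (rep t)| ≤ 1 := by
  rw [← sec_inter (rep_unit s) (rep_unit t), sec_rep, sec_rep]

lemma meet_iff_adj (s t : Disc d) : (s.1 ∩ t.1).Nonempty ↔ s = t ∨ (sphereGraph d).Adj s t := by
  constructor
  · intro h
    by_cases hst : s = t
    · exact Or.inl hst
    · exact Or.inr ⟨hst, h⟩
  · rintro (h | h)
    · rw [h, meet_iff, rep_unit, abs_one]
    · exact h.2

lemma meet_iso (g : sphereGraph d ≃g sphereGraph d) (s t : Disc d) :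
    ((g s).1 ∩ (g t).1).Nonempty ↔ (s.1 ∩ t.1).Nonempty := by
  rw [meet_iff_adj, meet_iff_adj, g.map_adj_iff, g.injective.eq_iff]

open Classical in
/-- The map of vectors induced by an automorphism. -/
noncomputable def gam (g : sphereGraph d ≃g sphereGraph d) (v : Wd d × ℝ × ℝ) : Wd d × ℝ × ℝ :=
  if hv : B v v = 1 then rep (g (vert v hv)) else v

lemma gam_eq (g : sphereGraph d ≃g sphereGraph d) {v : Wd d × ℝ × ℝ} (hv : B v v = 1) :
    gam g v = rep (g (vert v hv)) := by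
  unfold gam; rw [dif_pos hv]

lemma vert_eq {v v' : Wd d × ℝ × ℝ} (hv : B v v = 1) (hv' : B v' v' = 1) (h : Eqv v v') :
    vert v hv = vert v' hv' := Subtype.ext (sec_eqv h)

lemma vert_rep (s : Disc d) : vert (rep s) (rep_unit s) = s := Subtype.ext (sec_rep s)

lemma rep_vert (hd : 2 ≤ d) {v : Wd d × ℝ × ℝ} (hv : B v v = 1) : Eqv (rep (vert v hv)) v :=
  eqv_of_sec hd hv (rep_unit _) (sec_rep (vert v hv)).symm

lemma autPair (hd : 2 ≤ d) (g : sphereGraph d ≃g sphereGraph d) : AutPair (gam g) (gam g.symm) := by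
  have hunit : ∀ (g : sphereGraph d ≃g sphereGraph d) (w : Wd d × ℝ × ℝ), B w w = 1 →
      B (gam g w) (gam g w) = 1 := by
    intro g w hw
    rw [gam_eq g hw]; exact rep_unit _
  have hadj : ∀ (g : sphereGraph d ≃g sphereGraph d) (w w' : Wd d × ℝ × ℝ), B w w = 1 →
      B w' w' = 1 → (|B (gam g w) (gam g w')| ≤ 1 ↔ |B w w'| ≤ 1) := by
    intro g w w' hw hw'
    rw [gam_eq g hw, gam_eq g hw', ← meet_iff, meet_iso, ← sec_inter hw hw']
    rfl
  have hcongr : ∀ (g : sphereGraph d ≃g sphereGraph d) (w w' : Wd d × ℝ × ℝ), B w w = 1 →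
      Eqv w w' → Eqv (gam g w) (gam g w') := by
    intro g w w' hw he
    have hw' : B w' w' = 1 := AutPair.unit_of_eqv he.symm hw
    rw [gam_eq g hw, gam_eq g hw', vert_eq hw hw' he]
    exact Eqv.refl _
  have hleft : ∀ (g : sphereGraph d ≃g sphereGraph d) (w : Wd d × ℝ × ℝ), B w w = 1 →
      Eqv (gam g.symm (gam g w)) w := by
    intro g w hw
    rw [gam_eq g.symm (hunit g w hw)]
    have h1 : vert (gam g w) (hunit g w hw) = g (vert w hw) := by
      have h2 : vert (gam g w) (hunit g w hw) =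
          vert (rep (g (vert w hw))) (rep_unit _) :=
        vert_eq _ _ (by rw [gam_eq g hw]; exact Eqv.refl _)
      rw [h2, vert_rep]
    rw [h1, RelIso.symm_apply_apply]
    exact rep_vert hd hw
  exact {
    unit := hunit g
    unit' := hunit g.symm
    adj := hadj g
    adj' := hadj g.symm
    left := hleft g
    right := by
      have := hleft g.symm
      rwa [show g.symm.symm = g from rfl] at this
    congr := hcongr g
    congr' := hcongr g.symm }

/-- Every automorphism of the graph is induced by a linear map. -/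
lemma exists_linear_iso (hd : 2 ≤ d) (g : sphereGraph d ≃g sphereGraph d) :
    ∃ M : (Wd d × ℝ × ℝ) →ₗ[ℝ] (Wd d × ℝ × ℝ), ∀ s : Disc d, Eqv (rep (g s)) (M (rep s)) := by
  have hd' : 2 ≤ Module.finrank ℝ (Wd d) := by
    rw [finrank_euclideanSpace, Fintype.card_fin]; exact hd
  obtain ⟨M, hM⟩ := (autPair hd g).exists_linear hd'
  refine ⟨M, fun s => ?_⟩
  have h1 := hM (rep s) (rep_unit s)
  rwa [gam_eq g (rep_unit s), vert_rep] at h1

/-! ### A faithful finite-dimensional representation of the automorphism group -/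

/-- The quadratic function on discs given by a bilinear form. -/
noncomputable def quad (d : ℕ) : ((Wd d × ℝ × ℝ) →ₗ[ℝ] (Wd d × ℝ × ℝ) →ₗ[ℝ] ℝ) →ₗ[ℝ] (Disc d → ℝ) where
  toFun Φ s := Φ (rep s) (rep s)
  map_add' Φ Ψ := by ext s; simp
  map_smul' c Φ := by ext s; simp

lemma quad_apply (Φ : (Wd d × ℝ × ℝ) →ₗ[ℝ] (Wd d × ℝ × ℝ) →ₗ[ℝ] ℝ) (s : Disc d) :
    quad d Φ s = Φ (rep s) (rep s) := rfl

/-- The action of the automorphism group on functions. -/
noncomputable def act (d : ℕ) : (sphereGraph d ≃g sphereGraph d) →* Module.End ℝ (Disc d → ℝ) where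
  toFun g :=
    { toFun := fun F s => F (g⁻¹ s)
      map_add' := fun _ _ => rfl
      map_smul' := fun _ _ => rfl }
  map_one' := by
    ext F s
    simp
  map_mul' g h := by
    ext F s
    simp

lemma act_apply (g : sphereGraph d ≃g sphereGraph d) (F : Disc d → ℝ) (s : Disc d) :
    act d g F s = F (g⁻¹ s) := rfl

lemma act_range (hd : 2 ≤ d) (g : sphereGraph d ≃g sphereGraph d) (F : Disc d → ℝ)
    (hF : F ∈ LinearMap.range (quad d)) : act d g F ∈ LinearMap.range (quad d) := by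
  obtain ⟨Φ, rfl⟩ := hF
  obtain ⟨M, hM⟩ := exists_linear_iso hd g⁻¹
  refine ⟨Φ.compl₁₂ M M, ?_⟩
  ext s
  rw [act_apply, quad_apply, quad_apply, LinearMap.compl₁₂_apply]
  rcases hM s with h | h
  · rw [h]
  · rw [h]; simp

/-- The representation on the space of quadratic functions. -/
noncomputable def repn (hd : 2 ≤ d) :
    (sphereGraph d ≃g sphereGraph d) →* Module.End ℝ (LinearMap.range (quad d)) where
  toFun g := (act d g).restrict (act_range hd g)
  map_one' := by
    ext F s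
    simp
  map_mul' g h := by
    ext F s
    simp

lemma repn_injective (hd : 2 ≤ d) : Function.Injective (repn hd) := by
  rw [injective_iff_map_eq_one]
  intro g hg
  have key : ∀ (Φ : (Wd d × ℝ × ℝ) →ₗ[ℝ] (Wd d × ℝ × ℝ) →ₗ[ℝ] ℝ) (s : Disc d),
      Φ (rep (g⁻¹ s)) (rep (g⁻¹ s)) = Φ (rep s) (rep s) := by
    intro Φ s
    have h1 := congrArg (fun T : Module.End ℝ (LinearMap.range (quad d)) =>
      (T ⟨quad d Φ, ⟨Φ, rfl⟩⟩ : Disc d → ℝ) s) hg
    exact h1
  have hd' : 2 ≤ Module.finrank ℝ (Wd d) := by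
    rw [finrank_euclideanSpace, Fintype.card_fin]; exact hd
  have h2 : ∀ s, g⁻¹ s = s := by
    intro s
    have h3 : Eqv (rep (g⁻¹ s)) (rep s) := by
      refine eq_of_zero_set hd' (rep_unit s) (rep_unit _) ?_
      intro n _ hns
      have h4 := key ((LinearMap.mul ℝ ℝ).compl₁₂ (Bl n) (Bl n)) s
      rw [LinearMap.compl₁₂_apply, LinearMap.compl₁₂_apply, LinearMap.mul_apply',
        LinearMap.mul_apply', Bl_apply, Bl_apply, B_comm (rep s), hns, mul_zero] at h4
      rw [B_comm]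
      exact mul_self_eq_zero.mp h4
    have h5 := sec_eqv h3
    rw [sec_rep, sec_rep] at h5
    exact Subtype.ext h5
  rw [← inv_eq_one]
  ext s : 1
  exact h2 s

lemma sph_eq (d : ℕ) : sph d = Metric.sphere (0 : E d) 1 := by
  ext x
  rw [mem_sphere_zero_iff_norm]
  rfl

lemma exists_seq_sph (hd : 2 ≤ d) :
    ∃ α β : ℕ → (sph d ≃ₜ sph d),
      (∀ i j, i ≠ j → α i * β j = β j * α i) ∧ ∀ i, α i * β i ≠ β i * α i := by
  rw [sph_eq]
  exact exists_seq hd

/-- For every `d ≥ 2` the group of homeomorphisms of the `d`-sphere and the automorphism group of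
the `d`-sphere graph are not isomorphic. -/
theorem not_isomorphic (d : ℕ) (hd : 2 ≤ d) :
    ¬ Nonempty ((sph d ≃ₜ sph d) ≃* (sphereGraph d ≃g sphereGraph d)) := by
  rintro ⟨ψ⟩
  obtain ⟨α, β, h1, h2⟩ := exists_seq_sph hd
  refine no_seq (repn hd) (repn_injective hd) (fun i => ψ (α i)) (fun i => ψ (β i)) ?_ ?_
  · intro i j hij
    rw [← map_mul, ← map_mul, h1 i j hij]
  · intro i h
    rw [← map_mul, ← map_mul] at h
    exact h2 i (ψ.injective h)

end Discs

end Pool.Agent.Helper58.SphereGraph
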