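import Mathlib

/-!
# The pseudofan conjecture is false in every dimension `n ≥ 3`, even for minimal pseudofans
-/

set_option autoImplicit false

namespace Pool.Agent.Helper58.Pseudofan

/-- The `i`-th column of the integer matrix `V`, as a vector of `ℝⁿ`. -/
def col {n m : ℕ} (V : Matrix (Fin n) (Fin m) ℤ) (i : Fin m) : Fin n → ℝ :=
  fun k => (V k i : ℝ)

/-- The closed convex cone spanned by a finite family of vectors of `ℝⁿ`. -/
def cone {n : ℕ} {ι : Type} [Fintype ι] (w : ι → Fin n → ℝ) : Set (Fin n → ℝ) :=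
  {x | ∃ c : ι → ℝ, (∀ i, 0 ≤ c i) ∧ x = ∑ i, c i • w i}

/-- The cone spanned by the columns of `V` whose indices lie in `s`. -/
def colCone {n m : ℕ} (V : Matrix (Fin n) (Fin m) ℤ) (s : Finset (Fin m)) : Set (Fin n → ℝ) :=
  cone (fun i : s => col V i)

/-- The dimension of a cone is the dimension of its linear span. -/
noncomputable def dim {n : ℕ} (σ : Set (Fin n → ℝ)) : ℕ :=
  Module.finrank ℝ (Submodule.span ℝ σ)

/-- `F` is a face of the cone `σ`: it is cut out of `σ` by a linear form nonnegative on `σ`. -/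
def IsFace {n : ℕ} (F σ : Set (Fin n → ℝ)) : Prop :=
  ∃ φ : (Fin n → ℝ) →ₗ[ℝ] ℝ, (∀ x ∈ σ, 0 ≤ φ x) ∧ F = {x ∈ σ | φ x = 0}

/-- A facet of `σ` is a face of codimension one. -/
def IsFacet {n : ℕ} (F σ : Set (Fin n → ℝ)) : Prop :=
  IsFace F σ ∧ dim F + 1 = dim σ

/-- `V` is an F-matrix. -/
structure IsFMatrix {n m : ℕ} (V : Matrix (Fin n) (Fin m) ℤ) : Prop where
  rank_eq : (V.map (fun z : ℤ => (z : ℝ))).rank = n
  ne_zero : ∀ i, col V i ≠ 0
  not_pos_mul : ∀ i j, i ≠ j → ∀ t : ℝ, 0 < t → col V i ≠ t • col V j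
  generate : cone (col V) = Set.univ
  gcd_one : ∀ i, Finset.univ.gcd (fun k => V k i) = 1

/-- The set `𝓜` of `n`-dimensional simplicial cones spanned by columns of `V` that contain no
column of `V` other than their generators. -/
def emptyCones {n m : ℕ} (V : Matrix (Fin n) (Fin m) ℤ) : Set (Set (Fin n → ℝ)) :=
  {σ | ∃ s : Finset (Fin m), s.card = n ∧ LinearIndependent ℝ (fun i : s => col V i) ∧
    σ = colCone V s ∧ ∀ j, col V j ∈ σ → j ∈ s}

/-- A simplicial cone is a cone spanned by finitely many linearly independent vectors. -/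
def IsSimplicialCone {n : ℕ} (σ : Set (Fin n → ℝ)) : Prop :=
  ∃ (k : ℕ) (w : Fin k → Fin n → ℝ), LinearIndependent ℝ w ∧ σ = cone w

/-- Complete simplicial fans in `ℝⁿ`. -/
structure IsCompleteSimplicialFan {n : ℕ} (S : Set (Set (Fin n → ℝ))) : Prop where
  finite : S.Finite
  simplicial : ∀ σ ∈ S, IsSimplicialCone σ
  face_mem : ∀ σ ∈ S, ∀ F, IsFace F σ → F ∈ S
  inter_face : ∀ σ ∈ S, ∀ τ ∈ S, IsFace (σ ∩ τ) σ
  complete : ⋃₀ S = Set.univ

/-- `SF V`: the complete simplicial fans whose rays (one-dimensional cones) are exactly the rays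
spanned by the columns of `V`. -/
def SF {n m : ℕ} (V : Matrix (Fin n) (Fin m) ℤ) : Set (Set (Set (Fin n → ℝ))) :=
  {S | IsCompleteSimplicialFan S ∧
    {ρ | ρ ∈ S ∧ dim ρ = 1} = Set.range (fun i : Fin m => colCone V {i})}

/-- `Σ(n)`: the `n`-dimensional cones of `Σ`. -/
def maxCones {n : ℕ} (S : Set (Set (Fin n → ℝ))) : Set (Set (Fin n → ℝ)) :=
  {σ | σ ∈ S ∧ dim σ = n}

/-- Pseudofans of `V`. -/
structure IsPseudofan {n m : ℕ} (V : Matrix (Fin n) (Fin m) ℤ)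
    (C : Set (Set (Fin n → ℝ))) : Prop where
  sub : C ⊆ emptyCones V
  cover : ∀ i : Fin m, ∃ σ ∈ C, IsFace (colCone V {i}) σ
  facet : ∀ σ ∈ C, ∀ f, IsFacet f σ → ∃ τ ∈ C, τ ≠ σ ∧ IsFacet f τ ∧
    (∀ τ' ∈ C, τ' ≠ σ → IsFacet f τ' → τ' = τ) ∧
    ∃ φ : (Fin n → ℝ) →ₗ[ℝ] ℝ, φ ≠ 0 ∧ (∀ x ∈ f, φ x = 0) ∧
      (∀ x ∈ σ, 0 ≤ φ x) ∧ (∀ x ∈ τ, φ x ≤ 0)

/-- Minimal pseudofans of `V`. -/
def IsMinimalPseudofan {n m : ℕ} (V : Matrix (Fin n) (Fin m) ℤ)
    (C : Set (Set (Fin n → ℝ))) : Prop :=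
  IsPseudofan V C ∧ ∀ C' ⊆ C, IsPseudofan V C' → C' = C

end Pool.Agent.Helper58.Pseudofan
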