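import Mathlib
import Pool.Agent.Helper58.PseudofanDefs

set_option autoImplicit false

namespace Pool.Agent.Helper58.Pseudofan

/-! ## Linear algebra of column cones -/

section Cones

variable {n m : ℕ} {V : Matrix (Fin n) (Fin m) ℤ}

lemma mem_colCone {s : Finset (Fin m)} {x : Fin n → ℝ} :
    x ∈ colCone V s ↔ ∃ c : Fin m → ℝ, (∀ i, 0 ≤ c i) ∧ x = ∑ i ∈ s, c i • col V i := by
  classical
  constructor
  · rintro ⟨c, hc, rfl⟩
    refine ⟨fun i => if h : i ∈ s then c ⟨i, h⟩ else 0, ?_, ?_⟩
    · intro i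
      dsimp only
      split_ifs
      · exact hc _
      · exact le_rfl
    · rw [← Finset.sum_coe_sort s]
      refine Finset.sum_congr rfl ?_
      intro i _
      simp
  · rintro ⟨c, hc, rfl⟩
    refine ⟨fun i => c i, fun i => hc i, ?_⟩
    rw [← Finset.sum_coe_sort s]

lemma col_mem_colCone {s : Finset (Fin m)} {i : Fin m} (hi : i ∈ s) :
    col V i ∈ colCone V s := by
  classical
  rw [mem_colCone]
  refine ⟨fun j => if j = i then 1 else 0, ?_, ?_⟩
  · intro j
    dsimp only
    split_ifs <;> norm_num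
  · simp [Finset.sum_ite_eq', hi]

lemma nonneg_of_gen {s : Finset (Fin m)} {φ : (Fin n → ℝ) →ₗ[ℝ] ℝ}
    (h : ∀ i ∈ s, 0 ≤ φ (col V i)) : ∀ x ∈ colCone V s, 0 ≤ φ x := by
  intro x hx
  rw [mem_colCone] at hx
  obtain ⟨c, hc, rfl⟩ := hx
  rw [map_sum]
  refine Finset.sum_nonneg ?_
  intro i hi
  rw [map_smul, smul_eq_mul]
  exact mul_nonneg (hc i) (h i hi)

lemma nonpos_of_gen {s : Finset (Fin m)} {φ : (Fin n → ℝ) →ₗ[ℝ] ℝ}
    (h : ∀ i ∈ s, φ (col V i) ≤ 0) : ∀ x ∈ colCone V s, φ x ≤ 0 := by
  intro x hx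
  have := nonneg_of_gen (V := V) (s := s) (φ := -φ) (by intro i hi; simpa using h i hi) x hx
  simpa using this

lemma face_eq {s : Finset (Fin m)} {φ : (Fin n → ℝ) →ₗ[ℝ] ℝ}
    (h : ∀ i ∈ s, 0 ≤ φ (col V i)) :
    {x | x ∈ colCone V s ∧ φ x = 0} = colCone V (s.filter (fun i => φ (col V i) = 0)) := by
  ext x
  rw [Set.mem_ofPred_eq, mem_colCone, mem_colCone]
  constructor
  · rintro ⟨⟨c, hc, rfl⟩, h0⟩
    refine ⟨c, hc, ?_⟩
    rw [map_sum] at h0
    have hnn : ∀ i ∈ s, 0 ≤ φ (c i • col V i) := by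
      intro i hi
      rw [map_smul, smul_eq_mul]
      exact mul_nonneg (hc i) (h i hi)
    rw [Finset.sum_eq_zero_iff_of_nonneg hnn] at h0
    rw [Finset.sum_filter]
    refine Finset.sum_congr rfl ?_
    intro i hi
    split_ifs with h1
    · rfl
    · have h2 := h0 i hi
      rw [map_smul, smul_eq_mul] at h2
      rcases mul_eq_zero.mp h2 with h3 | h3
      · rw [h3, zero_smul]
      · exact absurd h3 h1
  · rintro ⟨c, hc, rfl⟩
    refine ⟨⟨fun i => if φ (col V i) = 0 then c i else 0, ?_, ?_⟩, ?_⟩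
    · intro i
      dsimp only
      split_ifs
      · exact hc i
      · exact le_rfl
    · rw [Finset.sum_filter]
      refine Finset.sum_congr rfl ?_
      intro i _
      dsimp only
      split_ifs
      · rfl
      · rw [zero_smul]
    · rw [map_sum]
      refine Finset.sum_eq_zero ?_
      intro i hi
      rw [map_smul, (Finset.mem_filter.mp hi).2, smul_zero]

lemma dim_colCone {s : Finset (Fin m)} (hs : LinearIndependent ℝ (fun i : s => col V i)) :
    dim (colCone V s) = s.card := by
  have hspan : Submodule.span ℝ (colCone V s) =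
      Submodule.span ℝ (Set.range (fun i : s => col V i)) := by
    apply le_antisymm
    · rw [Submodule.span_le]
      rintro x ⟨c, _, rfl⟩
      refine Submodule.sum_mem _ ?_
      intro i _
      exact Submodule.smul_mem _ _ (Submodule.subset_span ⟨i, rfl⟩)
    · rw [Submodule.span_le]
      rintro x ⟨i, rfl⟩
      exact Submodule.subset_span (col_mem_colCone i.2)
  unfold dim
  rw [hspan, finrank_span_eq_card hs, Fintype.card_coe]

lemma indep_of_dual {s : Finset (Fin m)}
    (h : ∀ i ∈ s, ∃ φ : (Fin n → ℝ) →ₗ[ℝ] ℝ, (∀ j ∈ s.erase i, φ (col V j) = 0) ∧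
      0 < φ (col V i)) : LinearIndependent ℝ (fun i : s => col V i) := by
  classical
  rw [Fintype.linearIndependent_iff]
  intro g hg i
  obtain ⟨φ, h1, h2⟩ := h i i.2
  have h3 : φ (∑ j : s, g j • col V j) = g i * φ (col V i) := by
    rw [map_sum, Finset.sum_eq_single i]
    · rw [map_smul, smul_eq_mul]
    · intro j _ hji
      rw [map_smul, h1 j, smul_zero]
      rw [Finset.mem_erase]
      exact ⟨fun h => hji (Subtype.ext h), j.2⟩
    · intro h; exact absurd (Finset.mem_univ _) h
  rw [hg, map_zero] at h3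
  rcases mul_eq_zero.mp h3.symm with h4 | h4
  · exact h4
  · exact absurd h4 h2.ne'

lemma indep_subset {s t : Finset (Fin m)} (hst : t ⊆ s)
    (hs : LinearIndependent ℝ (fun i : s => col V i)) :
    LinearIndependent ℝ (fun i : t => col V i) := by
  have := hs.comp (fun i : t => (⟨i.1, hst i.2⟩ : s)) (by
    intro a b hab
    apply Subtype.ext
    have := congrArg Subtype.val hab
    simpa using this)
  exact this

/-- Facets of a simplicial column cone. -/
lemma facet_eq {s : Finset (Fin m)} (hs : LinearIndependent ℝ (fun i : s => col V i))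
    {f : Set (Fin n → ℝ)} (hf : IsFacet f (colCone V s)) :
    ∃ i ∈ s, f = colCone V (s.erase i) := by
  classical
  obtain ⟨⟨φ, hφ, rfl⟩, hd⟩ := hf
  have hgen : ∀ i ∈ s, 0 ≤ φ (col V i) := fun i hi => hφ _ (col_mem_colCone hi)
  rw [face_eq hgen, dim_colCone hs,
    dim_colCone (indep_subset (Finset.filter_subset _ _) hs)] at hd
  have hsub : s.filter (fun i => φ (col V i) = 0) ⊆ s := Finset.filter_subset _ _
  have hcard : (s \ s.filter (fun i => φ (col V i) = 0)).card = 1 := by
    rw [Finset.card_sdiff_of_subset hsub]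
    omega
  obtain ⟨i, hi⟩ := Finset.card_eq_one.mp hcard
  have his : i ∈ s := by
    have : i ∈ s \ s.filter (fun i => φ (col V i) = 0) := by rw [hi]; simp
    exact (Finset.mem_sdiff.mp this).1
  refine ⟨i, his, ?_⟩
  rw [face_eq hgen]
  congr 1
  have h2 : s \ {i} = s.filter (fun i => φ (col V i) = 0) := by
    rw [← hi, Finset.sdiff_sdiff_eq_self hsub]
  rw [← h2, Finset.sdiff_singleton_eq_erase]

lemma isFacet_erase {s : Finset (Fin m)}
    (hs : ∀ i ∈ s, ∃ φ : (Fin n → ℝ) →ₗ[ℝ] ℝ, (∀ j ∈ s.erase i, φ (col V j) = 0) ∧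
      0 < φ (col V i)) {i : Fin m} (hi : i ∈ s) :
    IsFacet (colCone V (s.erase i)) (colCone V s) := by
  classical
  have hind := indep_of_dual hs
  obtain ⟨φ, h1, h2⟩ := hs i hi
  have hgen : ∀ j ∈ s, 0 ≤ φ (col V j) := by
    intro j hj
    by_cases hji : j = i
    · rw [hji]; exact h2.le
    · rw [h1 j (Finset.mem_erase.mpr ⟨hji, hj⟩)]
  refine ⟨⟨φ, nonneg_of_gen hgen, ?_⟩, ?_⟩
  · rw [face_eq hgen]
    congr 1
    ext j
    simp only [Finset.mem_erase, Finset.mem_filter]
    constructor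
    · rintro ⟨hji, hj⟩
      exact ⟨hj, h1 j (Finset.mem_erase.mpr ⟨hji, hj⟩)⟩
    · rintro ⟨hj, h0⟩
      refine ⟨?_, hj⟩
      rintro rfl
      exact h2.ne' h0
  · rw [dim_colCone hind, dim_colCone (indep_subset (Finset.erase_subset _ _) hind),
      Finset.card_erase_of_mem hi]
    have : 0 < s.card := Finset.card_pos.mpr ⟨i, hi⟩
    omega

/-- Rays of a simplicial column cone. -/
lemma isFace_singleton {s : Finset (Fin m)}
    (hs : ∀ i ∈ s, ∃ φ : (Fin n → ℝ) →ₗ[ℝ] ℝ, (∀ j ∈ s.erase i, φ (col V j) = 0) ∧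
      0 < φ (col V i)) {i : Fin m} (hi : i ∈ s) :
    IsFace (colCone V {i}) (colCone V s) := by
  classical
  choose! φ h1 h2 using hs
  have key : ∀ j ∈ s, (∑ l ∈ s.erase i, φ l) (col V j) = if j = i then 0 else φ j (col V j) := by
    intro j hj
    rw [LinearMap.sum_apply]
    by_cases hji : j = i
    · subst hji
      rw [if_pos rfl]
      refine Finset.sum_eq_zero ?_
      intro l hl
      have hl' := Finset.mem_erase.mp hl
      exact h1 l hl'.2 j (Finset.mem_erase.mpr ⟨hl'.1.symm, hj⟩)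
    · rw [if_neg hji, Finset.sum_eq_single j]
      · intro l hl hlj
        exact h1 l (Finset.mem_erase.mp hl).2 j (Finset.mem_erase.mpr ⟨hlj.symm, hj⟩)
      · intro h
        exact absurd (Finset.mem_erase.mpr ⟨hji, hj⟩) h
  have hgen : ∀ j ∈ s, 0 ≤ (∑ l ∈ s.erase i, φ l) (col V j) := by
    intro j hj
    rw [key j hj]
    split_ifs
    · exact le_rfl
    · exact (h2 j hj).le
  refine ⟨∑ l ∈ s.erase i, φ l, nonneg_of_gen hgen, ?_⟩
  rw [face_eq hgen]
  congr 1
  ext j
  simp only [Finset.mem_singleton, Finset.mem_filter]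
  constructor
  · rintro rfl
    exact ⟨hi, by rw [key j hi, if_pos rfl]⟩
  · rintro ⟨hj, h0⟩
    by_contra hji
    rw [key j hj, if_neg hji] at h0
    exact (h2 j hj).ne' h0

end Cones

/-! ## Certificates -/

/-- A combinatorial certificate for a strongly connected pseudofan with two overlapping cones.
Cones are given by index sets. -/
structure Cert {n m : ℕ} (V : Matrix (Fin n) (Fin m) ℤ) (T : Finset (Finset (Fin m))) :
    Prop where
  card : ∀ s ∈ T, s.card = n
  cover : ∀ i, ∃ s ∈ T, i ∈ s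
  empt : ∀ s ∈ T, ∀ j, j ∉ s → ∃ φ : (Fin n → ℝ) →ₗ[ℝ] ℝ,
    (∀ i ∈ s, 0 ≤ φ (col V i)) ∧ φ (col V j) < 0
  nbr : ∀ s ∈ T, ∀ i ∈ s, ∃ t ∈ T, t ≠ s ∧ s.erase i ⊆ t ∧
    (∀ t' ∈ T, t' ≠ s → s.erase i ⊆ t' → t' = t) ∧
    ∃ φ : (Fin n → ℝ) →ₗ[ℝ] ℝ, (∀ j ∈ s.erase i, φ (col V j) = 0) ∧ 0 < φ (col V i) ∧
      ∀ j ∈ t, φ (col V j) ≤ 0
  conn : ∀ T' ⊆ T, T'.Nonempty →
    (∀ s ∈ T', ∀ t ∈ T, t ≠ s → (∃ i ∈ s, s.erase i ⊆ t) → t ∈ T') → T' = T
  ovl : ∃ s ∈ T, ∃ t ∈ T, s ≠ t ∧ ∃ c d : Fin m → ℝ, (∀ i, 0 < c i) ∧ (∀ i, 0 < d i) ∧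
    ∑ i ∈ s, c i • col V i = ∑ i ∈ t, d i • col V i

namespace Cert

variable {n m : ℕ} {V : Matrix (Fin n) (Fin m) ℤ} {T : Finset (Finset (Fin m))}

lemma dual (h : Cert V T) {s : Finset (Fin m)} (hs : s ∈ T) :
    ∀ i ∈ s, ∃ φ : (Fin n → ℝ) →ₗ[ℝ] ℝ, (∀ j ∈ s.erase i, φ (col V j) = 0) ∧
      0 < φ (col V i) := by
  intro i hi
  obtain ⟨t, _, _, _, _, φ, h1, h2, _⟩ := h.nbr s hs i hi
  exact ⟨φ, h1, h2⟩

lemma indep (h : Cert V T) {s : Finset (Fin m)} (hs : s ∈ T) :
    LinearIndependent ℝ (fun i : s => col V i) := indep_of_dual (h.dual hs)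

lemma mem_of_col_mem (h : Cert V T) {s : Finset (Fin m)} (hs : s ∈ T) {j : Fin m}
    (hj : col V j ∈ colCone V s) : j ∈ s := by
  by_contra hjs
  obtain ⟨φ, h1, h2⟩ := h.empt s hs j hjs
  exact absurd (nonneg_of_gen h1 _ hj) (not_le.mpr h2)

lemma colCone_inj (h : Cert V T) {s t : Finset (Fin m)} (hs : s ∈ T) (ht : t ∈ T)
    (hst : colCone V s = colCone V t) : s = t := by
  apply Finset.eq_of_subset_of_card_le
  · intro j hj
    exact h.mem_of_col_mem ht (hst ▸ col_mem_colCone hj)
  · rw [h.card s hs, h.card t ht]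

/-- A facet of a cone of `T` determines the pair of cones of `T` containing it. -/
lemma facet_sub (h : Cert V T) {s t : Finset (Fin m)} (ht : t ∈ T) {i : Fin m}
    (hf : IsFacet (colCone V (s.erase i)) (colCone V t)) : s.erase i ⊆ t := by
  intro j hj
  apply h.mem_of_col_mem ht
  obtain ⟨⟨φ, _, h2⟩, _⟩ := hf
  have : col V j ∈ colCone V (s.erase i) := col_mem_colCone hj
  rw [h2] at this
  exact this.1

lemma facet_of_sub (h : Cert V T) {s t : Finset (Fin m)} (hs : s ∈ T) (ht : t ∈ T) {i : Fin m}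
    (hi : i ∈ s) (hsub : s.erase i ⊆ t) :
    IsFacet (colCone V (s.erase i)) (colCone V t) := by
  have hc1 : (s.erase i).card + 1 = t.card := by
    rw [Finset.card_erase_of_mem hi, h.card s hs, h.card t ht]
    have : 0 < s.card := Finset.card_pos.mpr ⟨i, hi⟩
    rw [h.card s hs] at this
    omega
  have hc2 : (t \ s.erase i).card = 1 := by
    rw [Finset.card_sdiff_of_subset hsub]; omega
  obtain ⟨j, hj⟩ := Finset.card_eq_one.mp hc2
  have hjt : j ∈ t := by
    have : j ∈ t \ s.erase i := by rw [hj]; simp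
    exact (Finset.mem_sdiff.mp this).1
  have h3 : t.erase j = s.erase i := by
    rw [← Finset.sdiff_singleton_eq_erase, ← hj, Finset.sdiff_sdiff_eq_self hsub]
  rw [← h3]
  exact isFacet_erase (h.dual ht) hjt

/-- The collection of cones given by `T`. -/
def cones (V : Matrix (Fin n) (Fin m) ℤ) (T : Finset (Finset (Fin m))) :
    Set (Set (Fin n → ℝ)) := {σ | ∃ s ∈ T, σ = colCone V s}

lemma isPseudofan (h : Cert V T) : IsPseudofan V (cones V T) where
  sub := by
    rintro σ ⟨s, hs, rfl⟩
    exact ⟨s, h.card s hs, h.indep hs, rfl, fun j hj => h.mem_of_col_mem hs hj⟩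
  cover := by
    intro i
    obtain ⟨s, hs, hi⟩ := h.cover i
    exact ⟨colCone V s, ⟨s, hs, rfl⟩, isFace_singleton (h.dual hs) hi⟩
  facet := by
    rintro σ ⟨s, hs, rfl⟩ f hf
    obtain ⟨i, hi, rfl⟩ := facet_eq (h.indep hs) hf
    obtain ⟨t, ht, hts, hsub, huniq, φ, h1, h2, h3⟩ := h.nbr s hs i hi
    refine ⟨colCone V t, ⟨t, ht, rfl⟩, fun he => hts (h.colCone_inj ht hs he),
      h.facet_of_sub hs ht hi hsub, ?_, φ, ?_, ?_, ?_, ?_⟩
    · rintro τ' ⟨t', ht', rfl⟩ hne hf'
      have : t' ≠ s := by rintro rfl; exact hne rfl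
      rw [huniq t' ht' this (h.facet_sub ht' hf')]
    · rintro rfl
      simp at h2
    · intro x hx
      apply le_antisymm
      · exact nonpos_of_gen (fun j hj => (h1 j hj).le) x hx
      · exact nonneg_of_gen (fun j hj => (h1 j hj).ge) x hx
    · refine nonneg_of_gen ?_
      intro j hj
      by_cases hji : j = i
      · rw [hji]; exact h2.le
      · exact (h1 j (Finset.mem_erase.mpr ⟨hji, hj⟩)).ge
    · exact nonpos_of_gen h3

lemma minimal (h : Cert V T) (hm : 0 < m) : IsMinimalPseudofan V (cones V T) := by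
  classical
  refine ⟨h.isPseudofan, ?_⟩
  intro C' hC' hP
  set T' : Finset (Finset (Fin m)) := T.filter (fun s => colCone V s ∈ C') with hT'
  have hTT : T' = T := by
    apply h.conn T' (Finset.filter_subset _ _)
    · obtain ⟨σ, hσ, _⟩ := hP.cover ⟨0, hm⟩
      obtain ⟨s, hs, rfl⟩ := hC' hσ
      exact ⟨s, Finset.mem_filter.mpr ⟨hs, hσ⟩⟩
    · intro s hs t ht hts ⟨i, hi, hsub⟩
      obtain ⟨hsT, hsC⟩ := Finset.mem_filter.mp hs
      obtain ⟨τ, hτ, hne, hfτ, _⟩ := hP.facet _ hsC _ (isFacet_erase (h.dual hsT) hi)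
      obtain ⟨u, hu, rfl⟩ := hC' hτ
      obtain ⟨t₀, _, _, _, huniq, _⟩ := h.nbr s hsT i hi
      have h1 : u = t₀ := huniq u hu (by rintro rfl; exact hne rfl) (h.facet_sub hu hfτ)
      have h2 : t = t₀ := huniq t ht hts hsub
      rw [h2, ← h1]
      exact Finset.mem_filter.mpr ⟨hu, hτ⟩
  apply Set.Subset.antisymm hC'
  rintro σ ⟨s, hs, rfl⟩
  rw [← hTT] at hs
  exact (Finset.mem_filter.mp hs).2

lemma not_fan (h : Cert V T) {S : Set (Set (Fin n → ℝ))} (hS : S ∈ SF V) :
    cones V T ≠ maxCones S := by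
  intro heq
  obtain ⟨s, hs, t, ht, hst, c, d, hc, hd, hcd⟩ := h.ovl
  have hσ : colCone V s ∈ S := by
    have : colCone V s ∈ maxCones S := heq ▸ ⟨s, hs, rfl⟩
    exact this.1
  have hτ : colCone V t ∈ S := by
    have : colCone V t ∈ maxCones S := heq ▸ ⟨t, ht, rfl⟩
    exact this.1
  obtain ⟨φ, h1, h2⟩ := hS.1.inter_face _ hσ _ hτ
  set x := ∑ i ∈ s, c i • col V i with hx
  have hxs : x ∈ colCone V s := mem_colCone.mpr ⟨c, fun i => (hc i).le, rfl⟩
  have hxt : x ∈ colCone V t := mem_colCone.mpr ⟨d, fun i => (hd i).le, hcd⟩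
  have hx0 : φ x = 0 := by
    have : x ∈ colCone V s ∩ colCone V t := ⟨hxs, hxt⟩
    rw [h2] at this
    exact this.2
  rw [hx, map_sum, Finset.sum_eq_zero_iff_of_nonneg] at hx0
  · have hsub : s ⊆ t := by
      intro i hi
      have h3 : φ (col V i) = 0 := by
        have := hx0 i hi
        rw [map_smul, smul_eq_mul] at this
        rcases mul_eq_zero.mp this with h4 | h4
        · exact absurd h4 (hc i).ne'
        · exact h4
      have h4 : col V i ∈ colCone V s ∩ colCone V t := by
        rw [h2]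
        exact ⟨col_mem_colCone hi, h3⟩
      exact h.mem_of_col_mem ht h4.2
    exact hst (Finset.eq_of_subset_of_card_le hsub (by rw [h.card s hs, h.card t ht]))
  · intro i hi
    rw [map_smul, smul_eq_mul]
    exact mul_nonneg (hc i).le (h1 _ (col_mem_colCone hi))

end Cert

/-! ## Suspension: from dimension `n` to dimension `n + 1` -/

section Suspension

variable {n m : ℕ}

/-- The suspended matrix: columns `e₀, -e₀` and the old columns with a new zero coordinate. -/
def susp (V : Matrix (Fin n) (Fin m) ℤ) : Matrix (Fin (n + 1)) (Fin (m + 2)) ℤ :=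
  Matrix.of (Fin.cons (Fin.cons 1 (Fin.cons (-1) (fun _ => 0)))
    (fun k => Fin.cons 0 (Fin.cons 0 (V k))))

/-- Embedding of the old column indices. -/
def up : Fin m ↪ Fin (m + 2) :=
  ⟨fun i => i.succ.succ, fun a b hab => by
    simpa using hab⟩

lemma up_apply (i : Fin m) : up i = i.succ.succ := rfl

variable {V : Matrix (Fin n) (Fin m) ℤ}

lemma susp_zero_zero : susp V 0 0 = 1 := rfl
lemma susp_zero_one : susp V 0 1 = -1 := rfl
lemma susp_zero_up (i : Fin m) : susp V 0 (up i) = 0 := rfl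
lemma susp_succ_zero (k : Fin n) : susp V k.succ 0 = 0 := rfl
lemma susp_succ_one (k : Fin n) : susp V k.succ 1 = 0 := rfl
lemma susp_succ_up (k : Fin n) (i : Fin m) : susp V k.succ (up i) = V k i := rfl

lemma col_susp_up (i : Fin m) : col (susp V) (up i) = Fin.cons (0 : ℝ) (col V i) := by
  funext k
  refine Fin.cases ?_ (fun k => ?_) k
  · simp [col, susp_zero_up]
  · simp [col, susp_succ_up]

lemma col_susp_zero : col (susp V) 0 = Fin.cons (1 : ℝ) (fun _ => 0) := by
  funext k
  refine Fin.cases ?_ (fun k => ?_) k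
  · simp [col, susp_zero_zero]
  · simp [col, susp_succ_zero]

lemma col_susp_one : col (susp V) 1 = Fin.cons (-1 : ℝ) (fun _ => 0) := by
  funext k
  refine Fin.cases ?_ (fun k => ?_) k
  · simp [col, susp_zero_one]
  · simp [col, susp_succ_one]

/-- Forget the new coordinate. -/
def tl : (Fin (n + 1) → ℝ) →ₗ[ℝ] (Fin n → ℝ) where
  toFun x := fun k => x k.succ
  map_add' _ _ := rfl
  map_smul' _ _ := rfl

/-- The new coordinate. -/
def hd : (Fin (n + 1) → ℝ) →ₗ[ℝ] ℝ := LinearMap.proj 0

lemma tl_up (i : Fin m) : tl (col (susp V) (up i)) = col V i := by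
  rw [col_susp_up]; funext k; simp [tl]

lemma tl_zero : tl (col (susp V) 0) = 0 := by
  rw [col_susp_zero]; funext k; simp [tl]

lemma tl_one : tl (col (susp V) 1) = 0 := by
  rw [col_susp_one]; funext k; simp [tl]

lemma hd_up (i : Fin m) : hd (col (susp V) (up i)) = 0 := by
  rw [col_susp_up]; simp [hd]

lemma hd_zero : hd (col (susp V) 0) = 1 := by
  rw [col_susp_zero]; simp [hd]

lemma hd_one : hd (col (susp V) 1) = -1 := by
  rw [col_susp_one]; simp [hd]

lemma up_ne_zero (i : Fin m) : up i ≠ 0 := by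
  rw [up_apply]; exact Fin.succ_ne_zero _

lemma up_ne_one (i : Fin m) : up i ≠ 1 := by
  rw [up_apply]
  intro h
  have h' := congrArg Fin.val h
  simp at h'

lemma one_ne_zero' : (1 : Fin (m + 2)) ≠ 0 := by
  intro h
  have := congrArg Fin.val h
  simp at this

lemma index_cases (j : Fin (m + 2)) : j = 0 ∨ j = 1 ∨ ∃ i : Fin m, j = up i := by
  refine Fin.cases (Or.inl rfl) (fun j => ?_) j
  refine Fin.cases (Or.inr (Or.inl rfl)) (fun i => ?_) j
  exact Or.inr (Or.inr ⟨i, rfl⟩)

/-- The pole with index `0` or `1`. -/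
def pole (b : Bool) : Fin (m + 2) := if b then 1 else 0

lemma up_ne_pole (i : Fin m) (b : Bool) : up i ≠ pole b := by
  cases b
  · exact up_ne_zero i
  · exact up_ne_one i

lemma pole_inj {b b' : Bool} (h : (pole b : Fin (m + 2)) = pole b') : b = b' := by
  cases b <;> cases b' <;> simp [pole] at h ⊢

lemma index_cases' (j : Fin (m + 2)) : (∃ b, j = pole b) ∨ ∃ i : Fin m, j = up i := by
  rcases index_cases j with h | h | h
  · exact Or.inl ⟨false, h⟩
  · exact Or.inl ⟨true, h⟩
  · exact Or.inr h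

/-- sign of a pole -/
def sg (b : Bool) : ℝ := if b then -1 else 1

lemma hd_pole (b : Bool) : hd (col (susp V) (pole b)) = sg b := by
  cases b
  · exact hd_zero
  · exact hd_one

lemma tl_pole (b : Bool) : tl (col (susp V) (pole b)) = 0 := by
  cases b
  · exact tl_zero
  · exact tl_one

/-- lift of an index set with a pole added -/
def lft (b : Bool) (s : Finset (Fin m)) : Finset (Fin (m + 2)) := insert (pole b) (s.map up)

lemma mem_lft_up {b : Bool} {s : Finset (Fin m)} {i : Fin m} : up i ∈ lft b s ↔ i ∈ s := by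
  unfold lft
  rw [Finset.mem_insert, Finset.mem_map']
  constructor
  · rintro (h | h)
    · exact absurd h (up_ne_pole i b)
    · exact h
  · exact Or.inr

lemma mem_lft_pole {b b' : Bool} {s : Finset (Fin m)} :
    pole b' ∈ lft b s ↔ b' = b := by
  unfold lft
  rw [Finset.mem_insert, Finset.mem_map]
  constructor
  · rintro (h | ⟨i, _, h⟩)
    · exact pole_inj h
    · exact absurd h (up_ne_pole i b')
  · rintro rfl
    exact Or.inl rfl

lemma lft_inj {b b' : Bool} {s s' : Finset (Fin m)} (h : lft b s = lft b' s') :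
    b = b' ∧ s = s' := by
  constructor
  · have : (pole b : Fin (m + 2)) ∈ lft b' s' := h ▸ mem_lft_pole.mpr rfl
    exact mem_lft_pole.mp this
  · ext i
    rw [← mem_lft_up (b := b), h, mem_lft_up]

lemma card_lft {b : Bool} {s : Finset (Fin m)} : (lft b s).card = s.card + 1 := by
  unfold lft
  rw [Finset.card_insert_of_notMem, Finset.card_map]
  rw [Finset.mem_map]
  rintro ⟨i, _, h⟩
  exact up_ne_pole i b h

/-- The suspended collection. -/
def suspT (T : Finset (Finset (Fin m))) : Finset (Finset (Fin (m + 2))) :=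
  T.image (lft false) ∪ T.image (lft true)

lemma mem_suspT {T : Finset (Finset (Fin m))} {u : Finset (Fin (m + 2))} :
    u ∈ suspT T ↔ ∃ b, ∃ s ∈ T, u = lft b s := by
  unfold suspT
  rw [Finset.mem_union, Finset.mem_image, Finset.mem_image]
  constructor
  · rintro (⟨s, hs, rfl⟩ | ⟨s, hs, rfl⟩)
    · exact ⟨false, s, hs, rfl⟩
    · exact ⟨true, s, hs, rfl⟩
  · rintro ⟨b, s, hs, rfl⟩
    cases b
    · exact Or.inl ⟨s, hs, rfl⟩
    · exact Or.inr ⟨s, hs, rfl⟩

lemma sg_ne {b : Bool} : sg b * sg b = 1 := by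
  cases b <;> simp [sg]

lemma sg_not {b : Bool} : sg b * sg (!b) = -1 := by
  cases b <;> simp [sg]

lemma eq_not_of_ne {b b' : Bool} (h : b' ≠ b) : b' = !b := by
  cases b <;> cases b' <;> simp_all

theorem Cert.susp {T : Finset (Finset (Fin m))} (h : Cert V T) :
    Cert (susp V) (suspT T) where
  card := by
    intro u hu
    obtain ⟨b, s, hs, rfl⟩ := mem_suspT.mp hu
    rw [card_lft, h.card s hs]
  cover := by
    intro j
    obtain ⟨s₀, hs₀, _⟩ := h.ovl
    rcases index_cases' j with ⟨b, rfl⟩ | ⟨i, rfl⟩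
    · exact ⟨lft b s₀, mem_suspT.mpr ⟨b, s₀, hs₀, rfl⟩, mem_lft_pole.mpr rfl⟩
    · obtain ⟨s, hs, hi⟩ := h.cover i
      exact ⟨lft false s, mem_suspT.mpr ⟨false, s, hs, rfl⟩, mem_lft_up.mpr hi⟩
  empt := by
    intro u hu j hj
    obtain ⟨b, s, hs, rfl⟩ := mem_suspT.mp hu
    rcases index_cases' j with ⟨b', rfl⟩ | ⟨i, rfl⟩
    · rw [mem_lft_pole] at hj
      refine ⟨sg b • hd, ?_, ?_⟩
      · intro l hl
        rcases index_cases' l with ⟨b'', rfl⟩ | ⟨i, rfl⟩
        · rw [mem_lft_pole] at hl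
          subst hl
          rw [LinearMap.smul_apply, hd_pole, smul_eq_mul, sg_ne]
          norm_num
        · rw [LinearMap.smul_apply, hd_up, smul_zero]
      · rw [LinearMap.smul_apply, hd_pole, smul_eq_mul, eq_not_of_ne hj, sg_not]
        norm_num
    · rw [mem_lft_up] at hj
      obtain ⟨φ, h1, h2⟩ := h.empt s hs i hj
      refine ⟨φ.comp tl, ?_, ?_⟩
      · intro l hl
        rcases index_cases' l with ⟨b'', rfl⟩ | ⟨l, rfl⟩
        · rw [LinearMap.comp_apply, tl_pole, map_zero]
        · rw [LinearMap.comp_apply, tl_up]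
          exact h1 l (mem_lft_up.mp hl)
      · rw [LinearMap.comp_apply, tl_up]
        exact h2
  nbr := by
    intro u hu j hj
    obtain ⟨b, s, hs, rfl⟩ := mem_suspT.mp hu
    rcases index_cases' j with ⟨b', rfl⟩ | ⟨i, rfl⟩
    · rw [mem_lft_pole] at hj
      subst hj
      refine ⟨lft (!b') s, mem_suspT.mpr ⟨!b', s, hs, rfl⟩, ?_, ?_, ?_, sg b' • hd, ?_, ?_, ?_⟩
      · intro he
        have := (lft_inj he).1
        cases b' <;> simp at this
      · intro l hl
        rw [Finset.mem_erase] at hl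
        rcases index_cases' l with ⟨b'', rfl⟩ | ⟨l, rfl⟩
        · rw [mem_lft_pole] at hl
          exact absurd (by rw [hl.2]) hl.1
        · rw [mem_lft_up] at hl ⊢
          exact hl.2
      · intro t' ht' hne hsub
        obtain ⟨b'', t, ht, rfl⟩ := mem_suspT.mp ht'
        have hst : s = t := by
          apply Finset.eq_of_subset_of_card_le
          · intro l hl
            rw [← mem_lft_up (b := b'')]
            apply hsub
            rw [Finset.mem_erase]
            exact ⟨up_ne_pole l b', mem_lft_up.mpr hl⟩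
          · rw [h.card s hs, h.card t ht]
        subst hst
        have hb : b'' ≠ b' := by rintro rfl; exact hne rfl
        rw [eq_not_of_ne hb]
      · intro l hl
        rw [Finset.mem_erase] at hl
        rcases index_cases' l with ⟨b'', rfl⟩ | ⟨l, rfl⟩
        · rw [mem_lft_pole] at hl
          exact absurd (by rw [hl.2]) hl.1
        · rw [LinearMap.smul_apply, hd_up, smul_zero]
      · rw [LinearMap.smul_apply, hd_pole, smul_eq_mul, sg_ne]
        norm_num
      · intro l hl
        rcases index_cases' l with ⟨b'', rfl⟩ | ⟨l, rfl⟩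
        · rw [mem_lft_pole] at hl
          subst hl
          rw [LinearMap.smul_apply, hd_pole, smul_eq_mul, sg_not]
          norm_num
        · rw [LinearMap.smul_apply, hd_up, smul_zero]
    · rw [mem_lft_up] at hj
      obtain ⟨t, ht, hts, hsub, huniq, φ, h1, h2, h3⟩ := h.nbr s hs i hj
      refine ⟨lft b t, mem_suspT.mpr ⟨b, t, ht, rfl⟩, ?_, ?_, ?_, φ.comp tl, ?_, ?_, ?_⟩
      · intro he
        exact hts (lft_inj he).2
      · intro l hl
        rw [Finset.mem_erase] at hl
        rcases index_cases' l with ⟨b'', rfl⟩ | ⟨l, rfl⟩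
        · rw [mem_lft_pole] at hl ⊢
          exact hl.2
        · rw [mem_lft_up] at hl ⊢
          apply hsub
          rw [Finset.mem_erase]
          exact ⟨fun h => hl.1 (by rw [h]), hl.2⟩
      · intro t' ht' hne hsub'
        obtain ⟨b'', t'', ht'', rfl⟩ := mem_suspT.mp ht'
        have hb : b = b'' := by
          rw [← mem_lft_pole (b := b'') (b' := b) (s := t'')]
          apply hsub'
          rw [Finset.mem_erase]
          exact ⟨(up_ne_pole i b).symm, mem_lft_pole.mpr rfl⟩
        subst hb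
        have : t'' = t := by
          apply huniq t'' ht'' (by rintro rfl; exact hne rfl)
          intro l hl
          rw [Finset.mem_erase] at hl
          rw [← mem_lft_up (b := b)]
          apply hsub'
          rw [Finset.mem_erase]
          exact ⟨fun h => hl.1 (up.injective h), mem_lft_up.mpr hl.2⟩
        rw [this]
      · intro l hl
        rw [Finset.mem_erase] at hl
        rcases index_cases' l with ⟨b'', rfl⟩ | ⟨l, rfl⟩
        · rw [LinearMap.comp_apply, tl_pole, map_zero]
        · rw [mem_lft_up] at hl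
          rw [LinearMap.comp_apply, tl_up]
          apply h1
          rw [Finset.mem_erase]
          exact ⟨fun h => hl.1 (by rw [h]), hl.2⟩
      · rw [LinearMap.comp_apply, tl_up]
        exact h2
      · intro l hl
        rcases index_cases' l with ⟨b'', rfl⟩ | ⟨l, rfl⟩
        · rw [LinearMap.comp_apply, tl_pole, map_zero]
        · rw [LinearMap.comp_apply, tl_up]
          exact h3 l (mem_lft_up.mp hl)
  conn := by
    intro T'' hsub hne hclosed
    -- adjacency between the two lifts of the same `s`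
    have hpole : ∀ b, ∀ s ∈ T, lft b s ∈ T'' → lft (!b) s ∈ T'' := by
      intro b s hs hmem
      apply hclosed _ hmem _ (mem_suspT.mpr ⟨!b, s, hs, rfl⟩)
      · intro he
        have := (lft_inj he).1
        cases b <;> simp at this
      · refine ⟨pole b, mem_lft_pole.mpr rfl, ?_⟩
        intro l hl
        rw [Finset.mem_erase] at hl
        rcases index_cases' l with ⟨b'', rfl⟩ | ⟨l, rfl⟩
        · rw [mem_lft_pole] at hl
          exact absurd (by rw [hl.2]) hl.1
        · rw [mem_lft_up] at hl ⊢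
          exact hl.2
    have hfalse : ∀ b, ∀ s ∈ T, lft b s ∈ T'' → lft false s ∈ T'' := by
      intro b s hs hmem
      cases b
      · exact hmem
      · exact hpole true s hs hmem
    have hall : T.filter (fun s => lft false s ∈ T'') = T := by
      apply h.conn _ (Finset.filter_subset _ _)
      · obtain ⟨u, hu⟩ := hne
        obtain ⟨b, s, hs, rfl⟩ := mem_suspT.mp (hsub hu)
        exact ⟨s, Finset.mem_filter.mpr ⟨hs, hfalse b s hs hu⟩⟩
      · rintro s hs t ht hts ⟨i, hi, hsub'⟩
        obtain ⟨hsT, hsT''⟩ := Finset.mem_filter.mp hs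
        refine Finset.mem_filter.mpr ⟨ht, ?_⟩
        apply hclosed _ hsT'' _ (mem_suspT.mpr ⟨false, t, ht, rfl⟩)
        · intro he
          exact hts (lft_inj he).2
        · refine ⟨up i, mem_lft_up.mpr hi, ?_⟩
          intro l hl
          rw [Finset.mem_erase] at hl
          rcases index_cases' l with ⟨b'', rfl⟩ | ⟨l, rfl⟩
          · rw [mem_lft_pole] at hl ⊢
            exact hl.2
          · rw [mem_lft_up] at hl ⊢
            apply hsub'
            rw [Finset.mem_erase]
            exact ⟨fun h => hl.1 (by rw [h]), hl.2⟩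
    apply Finset.Subset.antisymm hsub
    intro u hu
    obtain ⟨b, s, hs, rfl⟩ := mem_suspT.mp hu
    have h0 : lft false s ∈ T'' := by
      rw [← hall] at hs
      exact (Finset.mem_filter.mp hs).2
    cases b
    · exact h0
    · exact hpole false s hs h0
  ovl := by
    obtain ⟨s, hs, t, ht, hst, c, d, hc, hd', hcd⟩ := h.ovl
    refine ⟨lft false s, mem_suspT.mpr ⟨false, s, hs, rfl⟩, lft false t,
      mem_suspT.mpr ⟨false, t, ht, rfl⟩, fun he => hst (lft_inj he).2,
      Fin.cons 1 (Fin.cons 1 c), Fin.cons 1 (Fin.cons 1 d), ?_, ?_, ?_⟩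
    · intro j
      rcases index_cases j with rfl | rfl | ⟨i, rfl⟩
      · exact one_pos
      · exact one_pos
      · exact hc i
    · intro j
      rcases index_cases j with rfl | rfl | ⟨i, rfl⟩
      · exact one_pos
      · exact one_pos
      · exact hd' i
    · have key : ∀ (s : Finset (Fin m)) (c : Fin m → ℝ),
          ∑ i ∈ lft false s, (Fin.cons 1 (Fin.cons 1 c) : Fin (m + 2) → ℝ) i •
            col (Pool.Agent.Helper58.Pseudofan.susp V) i =
          Fin.cons 1 (∑ i ∈ s, c i • col V i) := by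
        intro s c
        unfold lft
        rw [Finset.sum_insert, Finset.sum_map]
        · have h1 : ∀ i ∈ s, (Fin.cons 1 (Fin.cons 1 c) : Fin (m + 2) → ℝ) (up i) •
              col (Pool.Agent.Helper58.Pseudofan.susp V) (up i) =
              Fin.cons 0 (c i • col V i) := by
            intro i _
            rw [col_susp_up]
            funext k
            refine Fin.cases ?_ (fun k => ?_) k
            · simp
            · simp [up_apply]
          rw [Finset.sum_congr rfl h1]
          funext k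
          refine Fin.cases ?_ (fun k => ?_) k
          · simp [pole, col_susp_zero]
          · simp [pole, col_susp_zero]
        · rw [Finset.mem_map]
          rintro ⟨i, _, h⟩
          exact up_ne_pole i false h
      rw [key, key, hcd]

end Suspension

/-! ## The base example in dimension `3`: twenty integer vectors, seventy-two triangles -/

section Base

/-- The twenty columns. -/
def vecs : List (ℤ × ℤ × ℤ) := [
  (-3, 4, -3), (-9, 6, 4), (-8, 0, -9), (-5, 3, -10), (-10, -4, -5),
  (-2, 12, 1), (-1, -5, 11), (-2, -1, 1), (-1, -7, -9), (5, -3, 1),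
  (-2, 5, -11), (9, 5, -6), (-3, -5, 1), (6, 5, 9), (11, 4, -1),
  (-4, -1, 0), (1, 6, 10), (7, 8, 5), (3, -11, 3), (3, -3, -4)]

/-- The `3 × 20` matrix. -/
def V0 : Matrix (Fin 3) (Fin 20) ℤ := fun k i =>
  ![(vecs.getD i (0, 0, 0)).1, (vecs.getD i (0, 0, 0)).2.1, (vecs.getD i (0, 0, 0)).2.2] k

/-- The seventy-two positively oriented index triples. -/
def tri : List (Fin 20 × Fin 20 × Fin 20) := [
  (0, 1, 5), (0, 6, 1), (1, 17, 5), (0, 5, 14), (0, 15, 6), (1, 6, 9),
  (1, 15, 17), (5, 17, 9), (5, 9, 14), (0, 14, 15), (3, 6, 15), (6, 19, 9),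
  (1, 9, 16), (1, 4, 15), (15, 16, 17), (9, 17, 13), (9, 11, 14), (10, 15, 14),
  (3, 7, 6), (3, 15, 10), (6, 18, 19), (9, 19, 16), (1, 16, 2), (1, 8, 4),
  (4, 12, 15), (7, 16, 15), (14, 17, 16), (10, 13, 17), (9, 13, 18), (9, 12, 11),
  (3, 14, 11), (3, 10, 14), (3, 11, 7), (6, 7, 18), (10, 19, 18), (13, 16, 19),
  (0, 2, 16), (1, 2, 8), (4, 8, 7), (2, 12, 4), (12, 18, 15), (7, 12, 16),
  (7, 15, 18), (8, 17, 14), (13, 14, 16), (5, 13, 10), (10, 17, 11), (5, 18, 13),
  (9, 18, 12), (11, 12, 19), (2, 7, 11), (10, 11, 19), (8, 10, 18), (13, 19, 14),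
  (0, 3, 2), (0, 16, 3), (2, 11, 8), (7, 8, 19), (2, 4, 7), (2, 3, 12),
  (7, 19, 12), (6, 16, 12), (8, 11, 17), (8, 14, 19), (5, 10, 8), (5, 16, 18),
  (8, 18, 16), (3, 16, 5), (3, 8, 12), (6, 8, 16), (6, 12, 8), (3, 5, 8)]

/-- Parents: triangle number `i > 0` shares an edge with triangle number `par i < i`. -/
def par : List ℕ := [
  0, 0, 0, 0, 1, 1, 2, 2, 3, 3, 4, 5, 5, 6, 6, 7, 8, 9,
  10, 10, 11, 11, 12, 13, 13, 14, 14, 15, 15, 16, 16, 17, 18, 18, 20, 21,
  22, 22, 23, 24, 24, 25, 25, 26, 26, 27, 27, 28, 28, 29, 32, 34, 34, 35,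
  36, 36, 37, 38, 38, 39, 41, 41, 43, 43, 45, 47, 52, 55, 59, 61, 61, 64]

/-- `3 × 3` determinant of three of the columns. -/
def D (i j k : Fin 20) : ℤ :=
  V0 0 i * (V0 1 j * V0 2 k - V0 2 j * V0 1 k) - V0 1 i * (V0 0 j * V0 2 k - V0 2 j * V0 0 k) +
    V0 2 i * (V0 0 j * V0 1 k - V0 1 j * V0 0 k)

/-- The linear form `x ↦ det (x, vⱼ, vₖ)`. -/
def dl (j k : Fin 20) : (Fin 3 → ℝ) →ₗ[ℝ] ℝ :=
  ((V0 1 j * V0 2 k - V0 2 j * V0 1 k : ℤ) : ℝ) • LinearMap.proj 0 -
  ((V0 0 j * V0 2 k - V0 2 j * V0 0 k : ℤ) : ℝ) • LinearMap.proj 1 +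
  ((V0 0 j * V0 1 k - V0 1 j * V0 0 k : ℤ) : ℝ) • LinearMap.proj 2

lemma dl_col (i j k : Fin 20) : dl j k (col V0 i) = (D i j k : ℝ) := by
  simp only [dl, D, col, LinearMap.add_apply, LinearMap.sub_apply, LinearMap.smul_apply,
    LinearMap.proj_apply, smul_eq_mul]
  push_cast
  ring

/-- Index set of a triple. -/
def S (t : Fin 20 × Fin 20 × Fin 20) : Finset (Fin 20) := {t.1, t.2.1, t.2.2}

/-- Boolean membership in a triple. -/
def mem (x : Fin 20) (t : Fin 20 × Fin 20 × Fin 20) : Bool :=
  x == t.1 || x == t.2.1 || x == t.2.2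

lemma mem_iff {x : Fin 20} {t : Fin 20 × Fin 20 × Fin 20} : mem x t = true ↔ x ∈ S t := by
  simp [mem, S, or_assoc]

/-- The three rotations of every triple. -/
def rots : List (Fin 20 × Fin 20 × Fin 20) :=
  tri ++ tri.map (fun t => (t.2.1, t.2.2, t.1)) ++ tri.map (fun t => (t.2.2, t.1, t.2.1))

theorem check_pos : (rots.all fun t => decide (0 < D t.1 t.2.1 t.2.2)) = true := by
  decide +kernel

theorem check_empty : (tri.all fun t => (List.finRange 20).all fun j =>
    mem j t || decide (D j t.2.1 t.2.2 < 0) || decide (D j t.2.2 t.1 < 0) ||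
      decide (D j t.1 t.2.1 < 0)) = true := by
  decide +kernel

/-- neighbour check -/
def nbrOK (t : Fin 20 × Fin 20 × Fin 20) : Bool :=
  match tri.filter (fun t' => mem t.2.1 t' && mem t.2.2 t' && !(mem t.1 t')) with
  | [t'] => decide (D t'.1 t.2.1 t.2.2 ≤ 0) && decide (D t'.2.1 t.2.1 t.2.2 ≤ 0) &&
      decide (D t'.2.2 t.2.1 t.2.2 ≤ 0)
  | _ => false

theorem check_nbr : (rots.all nbrOK) = true := by
  decide +kernel

/-- Two triples share exactly an edge. -/
def adj (t t' : Fin 20 × Fin 20 × Fin 20) : Bool :=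
  (!mem t.1 t' && mem t.2.1 t' && mem t.2.2 t') ||
  (mem t.1 t' && !mem t.2.1 t' && mem t.2.2 t') ||
  (mem t.1 t' && mem t.2.1 t' && !mem t.2.2 t')

/-- The `i`-th triple. -/
def tr (i : ℕ) : Fin 20 × Fin 20 × Fin 20 := tri.getD i (0, 0, 0)

/-- connectivity check -/
def connOK (i : ℕ) : Bool :=
  decide (par.getD i 0 < i) && adj (tr i) (tr (par.getD i 0)) && adj (tr (par.getD i 0)) (tr i)

theorem check_conn : ((List.range 71).all fun i => connOK (i + 1)) = true := by
  decide +kernel

theorem check_cover : ((List.finRange 20).all fun i => tri.any fun t => mem i t) = true := by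
  decide +kernel

theorem check_matrix : ((List.finRange 20).all fun i =>
    decide (Int.gcd (Int.gcd (V0 0 i) (V0 1 i)) (V0 2 i) = 1) &&
    (List.finRange 20).all fun j => decide (i = j) ||
      decide (V0 0 i * V0 1 j - V0 1 i * V0 0 j ≠ 0) ||
      decide (V0 0 i * V0 2 j - V0 2 i * V0 0 j ≠ 0) ||
      decide (V0 1 i * V0 2 j - V0 2 i * V0 1 j ≠ 0)) = true := by
  decide +kernel

/-- The family of index sets. -/
def T0 : Finset (Finset (Fin 20)) := (tri.map S).toFinset

lemma mem_T0 {s : Finset (Fin 20)} : s ∈ T0 ↔ ∃ t ∈ tri, S t = s := by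
  simp [T0]

lemma mem_rots {t : Fin 20 × Fin 20 × Fin 20} (ht : t ∈ tri) :
    t ∈ rots ∧ (t.2.1, t.2.2, t.1) ∈ rots ∧ (t.2.2, t.1, t.2.1) ∈ rots := by
  refine ⟨?_, ?_, ?_⟩
  · simp only [rots, List.mem_append]
    exact Or.inl (Or.inl ht)
  · simp only [rots, List.mem_append, List.mem_map]
    exact Or.inl (Or.inr ⟨t, ht, rfl⟩)
  · simp only [rots, List.mem_append, List.mem_map]
    exact Or.inr ⟨t, ht, rfl⟩

lemma pos_of_mem_rots {t : Fin 20 × Fin 20 × Fin 20} (ht : t ∈ rots) :
    0 < D t.1 t.2.1 t.2.2 := by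
  have := List.all_eq_true.mp check_pos t ht
  simpa using this

lemma D_self_left (i j : Fin 20) : D i i j = 0 := by unfold D; ring
lemma D_self_right (i j : Fin 20) : D i j i = 0 := by unfold D; ring
lemma D_self_mid (i j : Fin 20) : D j i i = 0 := by unfold D; ring

lemma distinct_of_mem_rots {t : Fin 20 × Fin 20 × Fin 20} (ht : t ∈ rots) :
    t.1 ≠ t.2.1 ∧ t.1 ≠ t.2.2 ∧ t.2.1 ≠ t.2.2 := by
  have h := pos_of_mem_rots ht
  refine ⟨?_, ?_, ?_⟩
  · intro he; rw [he, D_self_left] at h; exact lt_irrefl _ h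
  · intro he; rw [he, D_self_right] at h; exact lt_irrefl _ h
  · intro he; rw [he, D_self_mid] at h; exact lt_irrefl _ h

lemma card_S {t : Fin 20 × Fin 20 × Fin 20} (ht : t ∈ tri) : (S t).card = 3 := by
  obtain ⟨h1, h2, h3⟩ := distinct_of_mem_rots (mem_rots ht).1
  exact Finset.card_eq_three.mpr ⟨_, _, _, h1, h2, h3, rfl⟩

/-- For a member of an index set, rotate the triple so that the member comes first. -/
lemma exists_rot {t : Fin 20 × Fin 20 × Fin 20} (ht : t ∈ tri) {i : Fin 20} (hi : i ∈ S t) :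
    ∃ r ∈ rots, S r = S t ∧ r.1 = i := by
  obtain ⟨h1, h2, h3⟩ := mem_rots ht
  simp only [S, Finset.mem_insert, Finset.mem_singleton] at hi
  rcases hi with rfl | rfl | rfl
  · exact ⟨_, h1, rfl, rfl⟩
  · refine ⟨_, h2, ?_, rfl⟩
    ext x; simp only [S, Finset.mem_insert, Finset.mem_singleton]; tauto
  · refine ⟨_, h3, ?_, rfl⟩
    ext x; simp only [S, Finset.mem_insert, Finset.mem_singleton]; tauto

lemma erase_S {r : Fin 20 × Fin 20 × Fin 20} (hr : r ∈ rots) :
    (S r).erase r.1 = {r.2.1, r.2.2} := by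
  obtain ⟨h1, h2, h3⟩ := distinct_of_mem_rots hr
  ext x
  simp only [S, Finset.mem_erase, Finset.mem_insert, Finset.mem_singleton]
  constructor
  · rintro ⟨h, h' | h' | h'⟩
    · exact absurd h' h
    · exact Or.inl h'
    · exact Or.inr h'
  · rintro (rfl | rfl)
    · exact ⟨h1.symm, Or.inr (Or.inl rfl)⟩
    · exact ⟨h2.symm, Or.inr (Or.inr rfl)⟩

lemma nbr_of_mem_rots {r : Fin 20 × Fin 20 × Fin 20} (hr : r ∈ rots) :
    ∃ t' ∈ tri, r.1 ∉ S t' ∧ r.2.1 ∈ S t' ∧ r.2.2 ∈ S t' ∧
      (∀ t'' ∈ tri, r.2.1 ∈ S t'' → r.2.2 ∈ S t'' → r.1 ∉ S t'' → t'' = t') ∧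
      ∀ x ∈ S t', D x r.2.1 r.2.2 ≤ 0 := by
  have h := List.all_eq_true.mp check_nbr r hr
  unfold nbrOK at h
  split at h
  · rename_i t' heq
    have hmem : ∀ t'', t'' ∈ tri.filter
        (fun t' => mem r.2.1 t' && mem r.2.2 t' && !(mem r.1 t')) ↔ t'' = t' := by
      intro t''
      rw [heq, List.mem_singleton]
    have h1 := (hmem t').mpr rfl
    rw [List.mem_filter] at h1
    obtain ⟨h1, h2⟩ := h1
    simp only [Bool.and_eq_true, Bool.not_eq_true', mem_iff] at h2
    refine ⟨t', h1, ?_, h2.1.1, h2.1.2, ?_, ?_⟩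
    · intro hh
      rw [← mem_iff, h2.2] at hh
      exact absurd hh (by simp)
    · intro t'' ht'' ha hb hc
      apply (hmem t'').mp
      rw [List.mem_filter]
      refine ⟨ht'', ?_⟩
      simp only [Bool.and_eq_true, Bool.not_eq_true', mem_iff]
      refine ⟨⟨ha, hb⟩, ?_⟩
      rw [Bool.eq_false_iff]
      intro hh
      exact hc (mem_iff.mp hh)
    · simp only [Bool.and_eq_true, decide_eq_true_eq] at h
      intro x hx
      simp only [S, Finset.mem_insert, Finset.mem_singleton] at hx
      rcases hx with rfl | rfl | rfl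
      · exact h.1.1
      · exact h.1.2
      · exact h.2
  · exact absurd h (by simp)

lemma sub_of_adj {t t' : Fin 20 × Fin 20 × Fin 20} (h : adj t t' = true) :
    S t ≠ S t' ∧ ∃ i ∈ S t, (S t).erase i ⊆ S t' := by
  simp only [adj, Bool.or_eq_true, Bool.and_eq_true, Bool.not_eq_true', mem_iff] at h
  have hne : ∀ x, x ∈ S t → mem x t' = false → S t ≠ S t' := by
    intro x hx hx' he
    rw [he, ← mem_iff, hx'] at hx
    exact absurd hx (by simp)
  rcases h with (⟨⟨h1, h2⟩, h3⟩ | ⟨⟨h1, h2⟩, h3⟩) | ⟨⟨h1, h2⟩, h3⟩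
  · refine ⟨hne t.1 (by simp [S]) h1, t.1, by simp [S], ?_⟩
    intro x hx
    simp only [S, Finset.mem_erase, Finset.mem_insert, Finset.mem_singleton] at hx
    rcases hx with ⟨ha, rfl | rfl | rfl⟩
    · exact absurd rfl ha
    · exact h2
    · exact h3
  · refine ⟨hne t.2.1 (by simp [S]) h2, t.2.1, by simp [S], ?_⟩
    intro x hx
    simp only [S, Finset.mem_erase, Finset.mem_insert, Finset.mem_singleton] at hx
    rcases hx with ⟨ha, rfl | rfl | rfl⟩
    · exact h1
    · exact absurd rfl ha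
    · exact h3
  · refine ⟨hne t.2.2 (by simp [S]) h3, t.2.2, by simp [S], ?_⟩
    intro x hx
    simp only [S, Finset.mem_erase, Finset.mem_insert, Finset.mem_singleton] at hx
    rcases hx with ⟨ha, rfl | rfl | rfl⟩
    · exact h1
    · exact h2
    · exact absurd rfl ha

lemma tri_length : tri.length = 72 := rfl

lemma tr_mem {i : ℕ} (hi : i < 72) : tr i ∈ tri := by
  unfold tr
  rw [List.getD_eq_getElem _ _ (by rw [tri_length]; exact hi)]
  exact List.getElem_mem _

lemma exists_tr {t : Fin 20 × Fin 20 × Fin 20} (ht : t ∈ tri) : ∃ i < 72, t = tr i := by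
  obtain ⟨i, hi, rfl⟩ := List.mem_iff_getElem.mp ht
  refine ⟨i, by rw [tri_length] at hi; exact hi, ?_⟩
  unfold tr
  rw [List.getD_eq_getElem _ _ hi]

lemma par_spec {i : ℕ} (hi : i + 1 < 72) :
    par.getD (i + 1) 0 < i + 1 ∧ adj (tr (i + 1)) (tr (par.getD (i + 1) 0)) = true ∧
      adj (tr (par.getD (i + 1) 0)) (tr (i + 1)) = true := by
  have := List.all_eq_true.mp check_conn i (List.mem_range.mpr (by omega))
  simp only [connOK, Bool.and_eq_true, decide_eq_true_eq] at this
  exact ⟨this.1.1, this.1.2, this.2⟩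

theorem cert0 : Cert V0 T0 where
  card := by
    intro s hs
    obtain ⟨t, ht, rfl⟩ := mem_T0.mp hs
    exact card_S ht
  cover := by
    intro i
    have := List.all_eq_true.mp check_cover i (List.mem_finRange i)
    obtain ⟨t, ht, hi⟩ := List.any_eq_true.mp this
    exact ⟨S t, mem_T0.mpr ⟨t, ht, rfl⟩, mem_iff.mp hi⟩
  empt := by
    intro s hs j hj
    obtain ⟨t, ht, rfl⟩ := mem_T0.mp hs
    obtain ⟨hr1, hr2, hr3⟩ := mem_rots ht
    have hp1 := pos_of_mem_rots hr1
    have hp2 := pos_of_mem_rots hr2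
    have hp3 := pos_of_mem_rots hr3
    dsimp only at hp1 hp2 hp3
    have h := List.all_eq_true.mp (List.all_eq_true.mp check_empty t ht) j (List.mem_finRange j)
    simp only [Bool.or_eq_true, decide_eq_true_eq, mem_iff] at h
    have aux : ∀ a b c : Fin 20, S t = S (a, b, c) → 0 < D a b c → D j b c < 0 →
        ∃ φ : (Fin 3 → ℝ) →ₗ[ℝ] ℝ, (∀ i ∈ S t, 0 ≤ φ (col V0 i)) ∧ φ (col V0 j) < 0 := by
      intro a b c he hpos hneg
      refine ⟨dl b c, ?_, ?_⟩
      · intro i hi
        rw [he] at hi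
        simp only [S, Finset.mem_insert, Finset.mem_singleton] at hi
        rw [dl_col]
        rcases hi with rfl | rfl | rfl
        · exact_mod_cast hpos.le
        · rw [D_self_left]; simp
        · rw [D_self_right]; simp
      · rw [dl_col]; exact_mod_cast hneg
    rcases h with ((h | h) | h) | h
    · exact absurd h hj
    · exact aux t.1 t.2.1 t.2.2 rfl hp1 h
    · refine aux t.2.1 t.2.2 t.1 ?_ hp2 h
      ext x; simp only [S, Finset.mem_insert, Finset.mem_singleton]; tauto
    · refine aux t.2.2 t.1 t.2.1 ?_ hp3 h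
      ext x; simp only [S, Finset.mem_insert, Finset.mem_singleton]; tauto
  nbr := by
    intro s hs i hi
    obtain ⟨t, ht, rfl⟩ := mem_T0.mp hs
    obtain ⟨r, hr, hrt, rfl⟩ := exists_rot ht hi
    obtain ⟨t', ht', ha, hb, hc, huniq, hneg⟩ := nbr_of_mem_rots hr
    refine ⟨S t', mem_T0.mpr ⟨t', ht', rfl⟩, ?_, ?_, ?_, dl r.2.1 r.2.2, ?_, ?_, ?_⟩
    · intro he
      rw [he] at ha
      exact ha hi
    · rw [← hrt, erase_S hr]
      intro x hx
      rw [Finset.mem_insert, Finset.mem_singleton] at hx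
      rcases hx with rfl | rfl
      · exact hb
      · exact hc
    · intro u hu hne hsub
      obtain ⟨t'', ht'', rfl⟩ := mem_T0.mp hu
      rw [← hrt, erase_S hr] at hsub
      have hb' : r.2.1 ∈ S t'' := hsub (by simp)
      have hc' : r.2.2 ∈ S t'' := hsub (by simp)
      by_cases ha' : r.1 ∈ S t''
      · exfalso
        apply hne
        symm
        apply Finset.eq_of_subset_of_card_le
        · rw [← hrt]
          intro x hx
          simp only [S, Finset.mem_insert, Finset.mem_singleton] at hx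
          rcases hx with rfl | rfl | rfl
          · exact ha'
          · exact hb'
          · exact hc'
        · rw [card_S ht'', card_S ht]
      · rw [huniq t'' ht'' hb' hc' ha']
    · intro j hj
      rw [← hrt, erase_S hr, Finset.mem_insert, Finset.mem_singleton] at hj
      rw [dl_col]
      rcases hj with rfl | rfl
      · rw [D_self_left]; simp
      · rw [D_self_right]; simp
    · rw [dl_col]
      exact_mod_cast pos_of_mem_rots hr
    · intro j hj
      rw [dl_col]
      exact_mod_cast hneg j hj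
  conn := by
    intro T' hsub hne hclosed
    have step : ∀ t ∈ tri, ∀ t' ∈ tri, adj t t' = true → S t ∈ T' → S t' ∈ T' := by
      intro t _ t' ht' hadj hmem
      obtain ⟨h1, h2⟩ := sub_of_adj hadj
      exact hclosed _ hmem _ (mem_T0.mpr ⟨t', ht', rfl⟩) h1.symm h2
    have down : ∀ i, i < 72 → S (tr i) ∈ T' → S (tr 0) ∈ T' := by
      intro i
      induction i using Nat.strong_induction_on with
      | _ i ih =>
        intro hi hmem
        rcases i with _ | i
        · exact hmem
        · obtain ⟨h1, h2, _⟩ := par_spec hi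
          exact ih _ h1 (by omega) (step _ (tr_mem hi) _ (tr_mem (by omega)) h2 hmem)
    have h0 : S (tr 0) ∈ T' := by
      obtain ⟨s, hs⟩ := hne
      obtain ⟨t, ht, rfl⟩ := mem_T0.mp (hsub hs)
      obtain ⟨i, hi, rfl⟩ := exists_tr ht
      exact down i hi hs
    have upw : ∀ i, i < 72 → S (tr i) ∈ T' := by
      intro i
      induction i using Nat.strong_induction_on with
      | _ i ih =>
        intro hi
        rcases i with _ | i
        · exact h0
        · obtain ⟨h1, _, h3⟩ := par_spec hi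
          exact step _ (tr_mem (by omega)) _ (tr_mem hi) h3 (ih _ h1 (by omega))
    apply Finset.Subset.antisymm hsub
    intro s hs
    obtain ⟨t, ht, rfl⟩ := mem_T0.mp hs
    obtain ⟨i, hi, rfl⟩ := exists_tr ht
    exact upw i hi
  ovl := by
    refine ⟨S (9, 12, 11), mem_T0.mpr ⟨(9, 12, 11), by decide +kernel, rfl⟩, S (8, 18, 16),
      mem_T0.mpr ⟨(8, 18, 16), by decide +kernel, rfl⟩, by decide +kernel,
      fun i => if i = 9 then 504 else if i = 12 then 2184 else 448,
      fun i => if i = 8 then 4914 else if i = 18 then 182 else 4368, ?_, ?_, ?_⟩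
    · intro i; dsimp only; split_ifs <;> norm_num
    · intro i; dsimp only; split_ifs <;> norm_num
    · have e1 : S (9, 12, 11) = {9, 12, 11} := rfl
      have e2 : S (8, 18, 16) = {8, 18, 16} := rfl
      rw [e1, e2, Finset.sum_insert (by decide +kernel), Finset.sum_insert (by decide +kernel),
        Finset.sum_singleton, Finset.sum_insert (by decide +kernel),
        Finset.sum_insert (by decide +kernel), Finset.sum_singleton]
      funext k
      have g : ∀ k : Fin 3, 504 * V0 k 9 + (2184 * V0 k 12 + 448 * V0 k 11) =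
          4914 * V0 k 8 + (182 * V0 k 18 + 4368 * V0 k 16) := by decide +kernel
      have g' := congrArg (fun z : ℤ => (z : ℝ)) (g k)
      push_cast at g'
      simp only [Pi.add_apply, Pi.smul_apply, smul_eq_mul, col]
      have n1 : (12 : Fin 20) ≠ 9 := by decide
      have n2 : (11 : Fin 20) ≠ 9 := by decide
      have n3 : (11 : Fin 20) ≠ 12 := by decide
      have n4 : (18 : Fin 20) ≠ 8 := by decide
      have n5 : (16 : Fin 20) ≠ 8 := by decide
      have n6 : (16 : Fin 20) ≠ 18 := by decide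
      simp only [if_true, if_neg n1, if_neg n2, if_neg n3, if_neg n4, if_neg n5, if_neg n6]
      linarith

/-- Matrix facts about a column, extracted from the kernel check. -/
lemma matrix_facts (i : Fin 20) :
    Int.gcd (Int.gcd (V0 0 i) (V0 1 i)) (V0 2 i) = 1 ∧ ∀ j, i ≠ j →
      (V0 0 i * V0 1 j - V0 1 i * V0 0 j ≠ 0 ∨ V0 0 i * V0 2 j - V0 2 i * V0 0 j ≠ 0 ∨
        V0 1 i * V0 2 j - V0 2 i * V0 1 j ≠ 0) := by
  have h := List.all_eq_true.mp check_matrix i (List.mem_finRange i)
  rw [Bool.and_eq_true, decide_eq_true_eq] at h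
  refine ⟨h.1, ?_⟩
  intro j hij
  have h2 := List.all_eq_true.mp h.2 j (List.mem_finRange j)
  simp only [Bool.or_eq_true, decide_eq_true_eq] at h2
  tauto

lemma cramer (x : Fin 3 → ℝ) :
    x = (-(dl 1 2 x) / 434) • col V0 0 + (-(dl 2 0 x) / 434) • col V0 1 +
      (-(dl 0 1 x) / 434) • col V0 2 := by
  have hv : ∀ k i, (V0 k i : ℝ) = ((V0 k i : ℤ) : ℝ) := fun _ _ => rfl
  have a00 : V0 0 0 = -3 := by decide +kernel
  have a10 : V0 1 0 = 4 := by decide +kernel
  have a20 : V0 2 0 = -3 := by decide +kernel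
  have a01 : V0 0 1 = -9 := by decide +kernel
  have a11 : V0 1 1 = 6 := by decide +kernel
  have a21 : V0 2 1 = 4 := by decide +kernel
  have a02 : V0 0 2 = -8 := by decide +kernel
  have a12 : V0 1 2 = 0 := by decide +kernel
  have a22 : V0 2 2 = -9 := by decide +kernel
  funext k
  simp only [dl, Pi.add_apply, Pi.smul_apply, smul_eq_mul, col, LinearMap.add_apply,
    LinearMap.sub_apply, LinearMap.smul_apply, LinearMap.proj_apply,
    a00, a10, a20, a01, a11, a21, a02, a12, a22]
  fin_cases k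
  · simp only [a00, a10, a20, a01, a11, a21, a02, a12, a22, Fin.zero_eta, Fin.mk_one,
      Fin.reduceFinMk, Fin.isValue]
    push_cast
    ring
  · simp only [a00, a10, a20, a01, a11, a21, a02, a12, a22, Fin.zero_eta, Fin.mk_one,
      Fin.reduceFinMk, Fin.isValue]
    push_cast
    ring
  · simp only [a00, a10, a20, a01, a11, a21, a02, a12, a22, Fin.zero_eta, Fin.mk_one,
      Fin.reduceFinMk, Fin.isValue]
    push_cast
    ring

lemma rel0 : (117 : ℝ) • col V0 0 + (139 : ℝ) • col V0 1 + (71 : ℝ) • col V0 2 +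
    (434 : ℝ) • col V0 9 = 0 := by
  funext k
  have g : ∀ k : Fin 3, 117 * V0 k 0 + 139 * V0 k 1 + 71 * V0 k 2 + 434 * V0 k 9 = 0 := by
    decide +kernel
  have g' := congrArg (fun z : ℤ => (z : ℝ)) (g k)
  push_cast at g'
  simp only [Pi.add_apply, Pi.smul_apply, smul_eq_mul, col, Pi.zero_apply]
  linarith

/-- The columns generate `ℝ³` as a cone. -/
lemma generate0 : cone (col V0) = Set.univ := by
  rw [Set.eq_univ_iff_forall]
  intro x
  set a := -(dl 1 2 x) / 434 with ha
  set b := -(dl 2 0 x) / 434 with hb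
  set c := -(dl 0 1 x) / 434 with hc
  set N := |a| + |b| + |c| with hN
  have hNa : |a| ≤ N := by
    have := abs_nonneg b; have := abs_nonneg c; linarith
  have hNb : |b| ≤ N := by
    have := abs_nonneg a; have := abs_nonneg c; linarith
  have hNc : |c| ≤ N := by
    have := abs_nonneg a; have := abs_nonneg b; linarith
  have hN0 : 0 ≤ N := le_trans (abs_nonneg _) hNa
  have ha' := neg_abs_le a
  have hb' := neg_abs_le b
  have hc' := neg_abs_le c
  refine ⟨fun i => if i = 0 then a + 117 * N else if i = 1 then b + 139 * N else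
    if i = 2 then c + 71 * N else if i = 9 then 434 * N else 0, ?_, ?_⟩
  · intro i
    dsimp only
    split_ifs
    · linarith
    · linarith
    · linarith
    · linarith
    · exact le_rfl
  · have hx := cramer x
    rw [← ha, ← hb, ← hc] at hx
    have hsub : ({0, 1, 2, 9} : Finset (Fin 20)) ⊆ Finset.univ := Finset.subset_univ _
    rw [← Finset.sum_subset hsub]
    · rw [Finset.sum_insert (by decide +kernel), Finset.sum_insert (by decide +kernel),
        Finset.sum_insert (by decide +kernel), Finset.sum_singleton]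
      have n1 : (1 : Fin 20) ≠ 0 := by decide
      have n2 : (2 : Fin 20) ≠ 0 := by decide
      have n3 : (2 : Fin 20) ≠ 1 := by decide
      have n4 : (9 : Fin 20) ≠ 0 := by decide
      have n5 : (9 : Fin 20) ≠ 1 := by decide
      have n6 : (9 : Fin 20) ≠ 2 := by decide
      simp only [if_true, if_neg n1, if_neg n2, if_neg n3, if_neg n4, if_neg n5, if_neg n6]
      have e : (a + 117 * N) • col V0 0 + ((b + 139 * N) • col V0 1 +
          ((c + 71 * N) • col V0 2 + (434 * N) • col V0 9)) =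
          (a • col V0 0 + b • col V0 1 + c • col V0 2) +
          N • ((117 : ℝ) • col V0 0 + (139 : ℝ) • col V0 1 + (71 : ℝ) • col V0 2 +
            (434 : ℝ) • col V0 9) := by
        module
      rw [e, rel0, smul_zero, add_zero]
      exact hx
    · intro i _ hi
      simp only [Finset.mem_insert, Finset.mem_singleton, not_or] at hi
      simp only [if_neg hi.1, if_neg hi.2.1, if_neg hi.2.2.1, if_neg hi.2.2.2, zero_smul]

lemma rank_of_generate {n m : ℕ} {V : Matrix (Fin n) (Fin m) ℤ}
    (h : cone (col V) = Set.univ) : (V.map (fun z : ℤ => (z : ℝ))).rank = n := by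
  rw [Matrix.rank_eq_finrank_span_cols]
  have : Submodule.span ℝ (Set.range (V.map (fun z : ℤ => (z : ℝ))).col) = ⊤ := by
    rw [eq_top_iff]
    intro x _
    have hx : x ∈ cone (col V) := by rw [h]; trivial
    obtain ⟨c, _, rfl⟩ := hx
    refine Submodule.sum_mem _ ?_
    intro i _
    exact Submodule.smul_mem _ _ (Submodule.subset_span ⟨i, rfl⟩)
  rw [this, finrank_top, Module.finrank_fin_fun]

theorem fmatrix0 : IsFMatrix V0 where
  rank_eq := rank_of_generate generate0
  ne_zero := by
    intro i h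
    have h0 : V0 0 i = 0 := by
      have := congrFun h 0
      simpa [col] using this
    have h1 : V0 1 i = 0 := by
      have := congrFun h 1
      simpa [col] using this
    have h2 : V0 2 i = 0 := by
      have := congrFun h 2
      simpa [col] using this
    have := (matrix_facts i).1
    rw [h0, h1, h2] at this
    simp at this
  not_pos_mul := by
    intro i j hij t _ h
    have h0 : (V0 0 i : ℝ) = t * V0 0 j := by simpa [col] using congrFun h 0
    have h1 : (V0 1 i : ℝ) = t * V0 1 j := by simpa [col] using congrFun h 1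
    have h2 : (V0 2 i : ℝ) = t * V0 2 j := by simpa [col] using congrFun h 2
    rcases (matrix_facts i).2 j hij with h' | h' | h'
    · apply h'
      have : ((V0 0 i * V0 1 j - V0 1 i * V0 0 j : ℤ) : ℝ) = 0 := by
        push_cast; rw [h0, h1]; ring
      exact_mod_cast this
    · apply h'
      have : ((V0 0 i * V0 2 j - V0 2 i * V0 0 j : ℤ) : ℝ) = 0 := by
        push_cast; rw [h0, h2]; ring
      exact_mod_cast this
    · apply h'
      have : ((V0 1 i * V0 2 j - V0 2 i * V0 1 j : ℤ) : ℝ) = 0 := by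
        push_cast; rw [h1, h2]; ring
      exact_mod_cast this
  generate := generate0
  gcd_one := by
    intro i
    have h := (matrix_facts i).1
    set g := Finset.univ.gcd (fun k => V0 k i) with hg
    have hd : ∀ k, g ∣ V0 k i := fun k => Finset.gcd_dvd (Finset.mem_univ k)
    have h1 : g ∣ 1 := by
      have : g ∣ ((Int.gcd (Int.gcd (V0 0 i) (V0 1 i)) (V0 2 i) : ℕ) : ℤ) := by
        apply Int.dvd_coe_gcd
        · exact Int.dvd_coe_gcd (hd 0) (hd 1)
        · exact hd 2
      rwa [h] at this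
    have h2 : normalize g = g := Finset.normalize_gcd
    rw [← h2]
    exact normalize_eq_one.mpr (isUnit_of_dvd_one h1)

end Base

/-! ## Suspension of F-matrices -/

section SuspF

variable {n m : ℕ} {V : Matrix (Fin n) (Fin m) ℤ}

theorem generate_susp (h : cone (col V) = Set.univ) : cone (col (susp V)) = Set.univ := by
  rw [Set.eq_univ_iff_forall]
  intro x
  have hx : tl x ∈ cone (col V) := by rw [h]; trivial
  obtain ⟨c, hc, hcx⟩ := hx
  refine ⟨Fin.cons (max (x 0) 0) (Fin.cons (max (-x 0) 0) c), ?_, ?_⟩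
  · intro j
    rcases index_cases j with rfl | rfl | ⟨i, rfl⟩
    · exact le_max_right _ _
    · exact le_max_right _ _
    · exact hc i
  · rw [Fin.sum_univ_succ, Fin.sum_univ_succ]
    have h1 : ∀ i : Fin m, (Fin.cons (max (x 0) 0) (Fin.cons (max (-x 0) 0) c) :
        Fin (m + 2) → ℝ) i.succ.succ • col (susp V) i.succ.succ =
        Fin.cons 0 (c i • col V i) := by
      intro i
      rw [← up_apply, col_susp_up]
      funext k
      refine Fin.cases ?_ (fun k => ?_) k
      · simp
      · simp [up_apply]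
    rw [Finset.sum_congr rfl (fun i _ => h1 i)]
    have h2 : (Fin.succ (0 : Fin (m + 1)) : Fin (m + 2)) = 1 := rfl
    rw [h2, col_susp_zero, col_susp_one]
    funext k
    refine Fin.cases ?_ (fun k => ?_) k
    · have h3 : x 0 = max (x 0) 0 - max (-x 0) 0 := by
        rcases le_total (x 0) 0 with h | h
        · rw [max_eq_right h, max_eq_left (by linarith)]; ring
        · rw [max_eq_left h, max_eq_right (by linarith)]; ring
      have h4 : (Fin.cons (max (x 0) 0) (Fin.cons (max (-x 0) 0) c) : Fin (m + 2) → ℝ) 1 =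
          max (-x 0) 0 := rfl
      simp only [Pi.add_apply, Pi.smul_apply, Fin.cons_zero, smul_eq_mul, mul_one,
        Finset.sum_apply, Finset.sum_const_zero, add_zero, h4]
      linarith
    · have h5 := congrFun hcx k
      simp only [tl, LinearMap.coe_mk, AddHom.coe_mk, Finset.sum_apply] at h5
      simp only [Pi.add_apply, Pi.smul_apply, Fin.cons_succ, smul_eq_mul, mul_zero,
        Finset.sum_apply, zero_add]
      rw [h5]
      rfl

theorem IsFMatrix.susp (h : IsFMatrix V) : IsFMatrix (susp V) where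
  rank_eq := rank_of_generate (generate_susp h.generate)
  ne_zero := by
    intro j hj
    rcases index_cases' j with ⟨b, rfl⟩ | ⟨i, rfl⟩
    · have := congrArg hd hj
      rw [hd_pole, map_zero] at this
      cases b <;> simp [sg] at this
    · have := congrArg tl hj
      rw [tl_up, map_zero] at this
      exact h.ne_zero i this
  not_pos_mul := by
    intro j j' hjj t ht he
    rcases index_cases' j with ⟨b, rfl⟩ | ⟨i, rfl⟩
    · rcases index_cases' j' with ⟨b', rfl⟩ | ⟨i', rfl⟩
      · have h1 := congrArg hd he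
        rw [map_smul, hd_pole, hd_pole, smul_eq_mul] at h1
        have hb : b ≠ b' := by rintro rfl; exact hjj rfl
        cases b <;> cases b' <;> simp [sg] at h1 hb <;> linarith
      · have h1 := congrArg hd he
        rw [map_smul, hd_pole, hd_up, smul_zero] at h1
        cases b <;> simp [sg] at h1
    · rcases index_cases' j' with ⟨b', rfl⟩ | ⟨i', rfl⟩
      · have h1 := congrArg tl he
        rw [map_smul, tl_up, tl_pole, smul_zero] at h1
        exact h.ne_zero i h1
      · have h1 := congrArg tl he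
        rw [map_smul, tl_up, tl_up] at h1
        exact h.not_pos_mul i i' (by rintro rfl; exact hjj rfl) t ht h1
  generate := generate_susp h.generate
  gcd_one := by
    intro j
    set g := Finset.univ.gcd (fun k => Pool.Agent.Helper58.Pseudofan.susp V k j)
      with hg
    have hdv : ∀ k, g ∣ Pool.Agent.Helper58.Pseudofan.susp V k j :=
      fun k => Finset.gcd_dvd (Finset.mem_univ k)
    have h2 : normalize g = g := Finset.normalize_gcd
    rw [← h2, normalize_eq_one]
    rcases index_cases j with rfl | rfl | ⟨i, rfl⟩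
    · have := hdv 0
      rw [susp_zero_zero] at this
      exact isUnit_of_dvd_one this
    · have := hdv 0
      rw [susp_zero_one] at this
      exact isUnit_of_dvd_one (by simpa using this)
    · apply isUnit_of_dvd_one
      rw [← h.gcd_one i]
      apply Finset.dvd_gcd
      intro k _
      have := hdv k.succ
      rw [susp_succ_up] at this
      exact this

end SuspF

/-- In every dimension `n ≥ 3` there is a certified example. -/
theorem exists_cert (n : ℕ) (hn : 3 ≤ n) : ∃ (m : ℕ) (V : Matrix (Fin n) (Fin m) ℤ)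
    (T : Finset (Finset (Fin m))), 0 < m ∧ IsFMatrix V ∧ Cert V T := by
  induction n, hn using Nat.le_induction with
  | base => exact ⟨20, V0, T0, by norm_num, fmatrix0, cert0⟩
  | succ n _ ih =>
    obtain ⟨m, V, T, _, hF, hC⟩ := ih
    exact ⟨m + 2, susp V, suspT T, by omega, hF.susp, hC.susp⟩

theorem main (n : ℕ) (hn : 3 ≤ n) : ∃ (m : ℕ) (V : Matrix (Fin n) (Fin m) ℤ)
    (C : Set (Set (Fin n → ℝ))), IsFMatrix V ∧ IsMinimalPseudofan V C ∧
      ∀ S ∈ SF V, C ≠ maxCones S := by
  obtain ⟨m, V, T, hm, hF, hC⟩ := exists_cert n hn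
  exact ⟨m, V, Cert.cones V T, hF, hC.minimal hm, fun S hS => hC.not_fan hS⟩

end Pool.Agent.Helper58.Pseudofan
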